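import Mathlib

set_option autoImplicit false

namespace Pool.Agent.Zk32

lemma walk_step {Q : ℕ → Prop} (h0 : Q 0) : ∀ n : ℕ, ¬ Q n → ∃ k < n, Q k ∧ ¬ Q (k + 1) := by
  intro n
  induction n with
  | zero => exact fun h => absurd h0 h
  | succ n ih =>
    intro h
    by_cases hn : Q n
    · exact ⟨n, by omega, hn, h⟩
    · obtain ⟨k, hk, h1, h2⟩ := ih hn
      exact ⟨k, by omega, h1, h2⟩

lemma enter_card (G : Finset (ℕ × ℕ)) (s : ℕ × ℕ → ℕ × ℕ) (hs : Function.Injective s) :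
    (G \ G.image s).card = (G.filter fun n => s n ∉ G).card := by
  classical
  have h1 : G.card = (G.image s).card := (Finset.card_image_of_injective G hs).symm
  rw [Finset.card_sdiff_comm h1]
  have h2 : G.image s \ G = (G.filter fun n => s n ∉ G).image s := by
    ext x
    simp only [Finset.mem_sdiff, Finset.mem_image, Finset.mem_filter]
    constructor
    · rintro ⟨⟨n, hn, rfl⟩, h⟩
      exact ⟨n, ⟨hn, h⟩, rfl⟩
    · rintro ⟨n, ⟨hn, h⟩, rfl⟩
      exact ⟨⟨n, hn, rfl⟩, h⟩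
  rw [h2, Finset.card_image_of_injective _ hs]

lemma temper_diff (G : Finset (ℕ × ℕ)) (D : ℕ) : ∃ Gd : Finset (ℤ × ℤ), (Gd.card : ℝ) ≤
    G.card + ((D : ℝ) + 1) ^ 2 * (((G.filter fun n => (n.1 + 1, n.2) ∉ G).card : ℝ) +
      ((G.filter fun n => (n.1, n.2 + 1) ∉ G).card : ℝ)) ∧
    ∀ a ∈ G, ∀ b : ℕ × ℕ, b.1 ≤ D → b.2 ≤ D → ((a.1 : ℤ) - b.1, (a.2 : ℤ) - b.2) ∈ Gd := by
  classical
  obtain ⟨s₁, hs₁⟩ : ∃ s : ℕ × ℕ → ℕ × ℕ, s = fun n => (n.1 + 1, n.2) := ⟨_, rfl⟩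
  obtain ⟨s₂, hs₂⟩ : ∃ s : ℕ × ℕ → ℕ × ℕ, s = fun n => (n.1, n.2 + 1) := ⟨_, rfl⟩
  have hi₁ : Function.Injective s₁ := by
    rw [hs₁]
    rintro ⟨a, b⟩ ⟨c, d⟩ h
    simp only [Prod.mk.injEq] at h ⊢
    omega
  have hi₂ : Function.Injective s₂ := by
    rw [hs₂]
    rintro ⟨a, b⟩ ⟨c, d⟩ h
    simp only [Prod.mk.injEq] at h ⊢
    omega
  have c₁ := enter_card G s₁ hi₁
  have c₂ := enter_card G s₂ hi₂
  let B : Finset (ℕ × ℕ) := Finset.range (D + 1) ×ˢ Finset.range (D + 1)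
  have hB : B.card = (D + 1) ^ 2 := by
    rw [Finset.card_product, Finset.card_range, sq]
  let G₀ : Finset (ℤ × ℤ) := G.image fun a => ((a.1 : ℤ), (a.2 : ℤ))
  let G₁ : Finset (ℤ × ℤ) := ((G \ G.image s₁) ×ˢ B).image fun x =>
    ((x.1.1 : ℤ) - 1 - x.2.1, (x.1.2 : ℤ) - x.2.2)
  let G₂ : Finset (ℤ × ℤ) := ((G \ G.image s₂) ×ˢ B).image fun x =>
    ((x.1.1 : ℤ) - x.2.1, (x.1.2 : ℤ) - 1 - x.2.2)
  refine ⟨G₀ ∪ G₁ ∪ G₂, ?_, ?_⟩
  · have k0 : G₀.card ≤ G.card := Finset.card_image_le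
    have k1 : G₁.card ≤ (G.filter fun n => (n.1 + 1, n.2) ∉ G).card * (D + 1) ^ 2 := by
      refine Finset.card_image_le.trans ?_
      rw [Finset.card_product, hB, c₁, hs₁]
    have k2 : G₂.card ≤ (G.filter fun n => (n.1, n.2 + 1) ∉ G).card * (D + 1) ^ 2 := by
      refine Finset.card_image_le.trans ?_
      rw [Finset.card_product, hB, c₂, hs₂]
    have k3 : (G₀ ∪ G₁ ∪ G₂).card ≤ G₀.card + G₁.card + G₂.card :=
      (Finset.card_union_le _ _).trans (Nat.add_le_add_right (Finset.card_union_le _ _) _)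
    have k4 : (G₀ ∪ G₁ ∪ G₂).card ≤ G.card + (G.filter fun n => (n.1 + 1, n.2) ∉ G).card * (D + 1) ^ 2 +
        (G.filter fun n => (n.1, n.2 + 1) ∉ G).card * (D + 1) ^ 2 := by omega
    have k5 : ((G₀ ∪ G₁ ∪ G₂).card : ℝ) ≤ G.card +
        ((G.filter fun n => (n.1 + 1, n.2) ∉ G).card : ℝ) * ((D : ℝ) + 1) ^ 2 +
        ((G.filter fun n => (n.1, n.2 + 1) ∉ G).card : ℝ) * ((D : ℝ) + 1) ^ 2 := by
      exact_mod_cast k4
    refine k5.trans (le_of_eq ?_)
    ring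
  · intro a ha b hb₁ hb₂
    have h0 : (((a.1 : ℤ) - (0 : ℕ), (a.2 : ℤ)) : ℤ × ℤ) ∈ G₀ :=
      Finset.mem_image.2 ⟨a, ha, by simp⟩
    by_cases h1 : (((a.1 : ℤ) - (b.1 : ℕ), (a.2 : ℤ)) : ℤ × ℤ) ∈ G₀
    · by_cases h2 : (((a.1 : ℤ) - b.1, (a.2 : ℤ) - (b.2 : ℕ)) : ℤ × ℤ) ∈ G₀
      · exact Finset.mem_union_left _ (Finset.mem_union_left _ h2)
      · obtain ⟨k, hk, h3, h4⟩ := walk_step
          (Q := fun j => (((a.1 : ℤ) - b.1, (a.2 : ℤ) - (j : ℕ)) : ℤ × ℤ) ∈ G₀) (by simpa using h1) b.2 h2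
        obtain ⟨a', ha', e1⟩ := Finset.mem_image.1 h3
        simp only [Prod.mk.injEq] at e1
        have h5 : a' ∈ G \ G.image s₂ := by
          rw [Finset.mem_sdiff]
          refine ⟨ha', fun h6 => h4 ?_⟩
          obtain ⟨n, hn, e2⟩ := Finset.mem_image.1 h6
          rw [hs₂] at e2
          have e3 : n.1 = a'.1 := by rw [← e2]
          have e4 : n.2 + 1 = a'.2 := by rw [← e2]
          refine Finset.mem_image.2 ⟨n, hn, ?_⟩
          simp only [Prod.mk.injEq]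
          push_cast
          omega
        refine Finset.mem_union_right _ (Finset.mem_image.2 ⟨(a', (0, b.2 - k - 1)), ?_, ?_⟩)
        · rw [Finset.mem_product, Finset.mem_product]
          refine ⟨h5, ?_, ?_⟩
          · exact Finset.mem_range.2 (by show 0 < D + 1; omega)
          · exact Finset.mem_range.2 (by show b.2 - k - 1 < D + 1; omega)
        · simp only [Prod.mk.injEq]
          push_cast
          omega
    · obtain ⟨k, hk, h3, h4⟩ := walk_step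
        (Q := fun i => (((a.1 : ℤ) - (i : ℕ), (a.2 : ℤ)) : ℤ × ℤ) ∈ G₀) h0 b.1 h1
      obtain ⟨a', ha', e1⟩ := Finset.mem_image.1 h3
      simp only [Prod.mk.injEq] at e1
      have h5 : a' ∈ G \ G.image s₁ := by
        rw [Finset.mem_sdiff]
        refine ⟨ha', fun h6 => h4 ?_⟩
        obtain ⟨n, hn, e2⟩ := Finset.mem_image.1 h6
        rw [hs₁] at e2
        have e3 : n.1 + 1 = a'.1 := by rw [← e2]
        have e4 : n.2 = a'.2 := by rw [← e2]
        refine Finset.mem_image.2 ⟨n, hn, ?_⟩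
        simp only [Prod.mk.injEq]
        push_cast
        omega
      refine Finset.mem_union_left _ (Finset.mem_union_right _ (Finset.mem_image.2
        ⟨(a', (b.1 - k - 1, b.2)), ?_, ?_⟩))
      · rw [Finset.mem_product, Finset.mem_product]
        refine ⟨h5, ?_, ?_⟩
        · exact Finset.mem_range.2 (by show b.1 - k - 1 < D + 1; omega)
        · exact Finset.mem_range.2 (by show b.2 < D + 1; omega)
      · simp only [Prod.mk.injEq]
        push_cast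
        omega

end Pool.Agent.Zk32
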