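import Pool.Agent.Zk24.SL.Zd

/-!
Thin measures satisfy `Sc`: the bump functions of few balls have integral near one.
-/

set_option autoImplicit false

open MeasureTheory Filter Topology Set

namespace Pool.Agent.Zk98

open Pool.Agent.Zk24.SL

theorem bmp_integral {p l K : ℕ} (hp : 2 ≤ p) (s : Fin K → ℕ) {κ : Measure UnitAddCircle} [IsProbabilityMeasure κ]
    {W : Set UnitAddCircle} (hW : MeasurableSet W)
    (hclose : ∀ x ∈ W, ∃ a, dist x (TopologicalSpace.denseSeq UnitAddCircle (s a)) ≤ 1 / (8 * (p : ℝ) ^ l)) :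
    κ.real W ≤ ∫ x, bmp p l s x ∂κ := by
  have hp0 : (0 : ℝ) < p := by
    have : 0 < p := by omega
    exact_mod_cast this
  have hpl : (0 : ℝ) < (p : ℝ) ^ l := by positivity
  have hb0 : ∀ x, 0 ≤ bmp p l s x := fun x => le_max_left _ _
  have hb1 : ∀ x, bmp p l s x ≤ 1 := fun x => max_le zero_le_one (min_le_left _ _)
  have hint : Integrable (fun x : UnitAddCircle => bmp p l s x) κ := by
    refine (integrable_const (1 : ℝ)).mono' (bmp p l s).continuous.aestronglyMeasurable (ae_of_all _ fun x => ?_)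
    rw [Real.norm_eq_abs, abs_of_nonneg (hb0 x)]
    exact hb1 x
  rw [← integral_indicator_one hW]
  refine integral_mono ((integrable_const (1 : ℝ)).indicator hW) hint fun x => ?_
  by_cases hx : x ∈ W
  · rw [indicator_of_mem hx]
    obtain ⟨a, ha⟩ := hclose x hx
    have h1 : Metric.infDist x (Set.range fun a => TopologicalSpace.denseSeq UnitAddCircle (s a)) ≤
        1 / (8 * (p : ℝ) ^ l) :=
      (Metric.infDist_le_dist_of_mem (Set.mem_range_self (f := fun a => TopologicalSpace.denseSeq UnitAddCircle (s a)) a)).trans ha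
    have h2 : 8 * (p : ℝ) ^ l * Metric.infDist x (Set.range fun a => TopologicalSpace.denseSeq UnitAddCircle (s a)) ≤ 1 := by
      rw [le_div_iff₀ (by positivity)] at h1
      linarith
    show (1 : ℝ) ≤ max 0 (min 1 (2 - 8 * (p : ℝ) ^ l * Metric.infDist x
      (Set.range fun a => TopologicalSpace.denseSeq UnitAddCircle (s a))))
    refine le_trans ?_ (le_max_right _ _)
    refine le_min le_rfl ?_
    linarith
  · rw [indicator_of_notMem hx]
    exact hb0 x

theorem sc_of_zd {p : ℕ} (hp : 2 ≤ p) {κ : Measure UnitAddCircle} [IsProbabilityMeasure κ] (h : Zd p κ) :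
    Sc p κ := by
  intro n C η hη
  have hp0 : (0 : ℝ) < p := by
    have : 0 < p := by omega
    exact_mod_cast this
  obtain ⟨η', hη'⟩ : ∃ η' : ℝ, η' = min η 1 / 2 := ⟨_, rfl⟩
  have hη0 : 0 < η' := by
    rw [hη']
    have : 0 < min η 1 := lt_min hη one_pos
    linarith
  have hη1 : η' < 1 := by
    rw [hη']
    have := min_le_right η 1
    linarith
  have hηη : η' < η := by
    rw [hη'] at hη0 ⊢
    have := min_le_left η 1
    linarith
  have e1 := (tendsto_add_atTop_nat 4).eventually (h (2 * n + 2) η' hη0)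
  obtain ⟨l, ⟨K, cen, hK, hκ⟩, hl⟩ := (e1.and (eventually_ge_atTop (max 4 C))).exists
  have hl4 : 4 ≤ l := (le_max_left _ _).trans hl
  have hlC : C ≤ l := (le_max_right _ _).trans hl
  have hWm : MeasurableSet (⋃ a, Metric.closedBall (cen a) (1 / (p : ℝ) ^ (l + 4))) :=
    MeasurableSet.iUnion fun _ => Metric.isClosed_closedBall.measurableSet
  have hK1 : 1 ≤ K := by
    by_contra hcon
    have h0 : K = 0 := by omega
    subst h0
    rw [iUnion_of_empty, compl_empty, probReal_univ] at hκ
    linarith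
  have hs : ∀ a : Fin K, ∃ k : ℕ, dist (cen a) (TopologicalSpace.denseSeq UnitAddCircle k) < 1 / (16 * (p : ℝ) ^ l) :=
    fun a => (TopologicalSpace.denseRange_denseSeq UnitAddCircle).exists_dist_lt (cen a) (by positivity)
  choose s hs using hs
  refine ⟨l, K, s, by omega, ?_, hK1, ?_, ?_⟩
  · calc C ≤ l := hlC
      _ ≤ p ^ l := (Nat.lt_pow_self (by omega)).le
  · have h1 : (K ^ (n + 1)) ^ 2 ≤ (p ^ l) ^ 2 := by
      calc (K ^ (n + 1)) ^ 2 = K ^ (2 * n + 2) := by rw [← pow_mul]; congr 1; ring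
        _ ≤ p ^ (l + 4) := hK
        _ ≤ p ^ (l * 2) := Nat.pow_le_pow_right (by omega) (by omega)
        _ = (p ^ l) ^ 2 := pow_mul _ _ _
    have h2 : K ^ (n + 1) ≤ p ^ l := (Nat.pow_le_pow_iff_left (by norm_num)).1 h1
    exact (Nat.pow_le_pow_right hK1 (by omega)).trans h2
  · have h1 := bmp_integral (κ := κ) (l := l) hp s hWm (fun x hx => by
      obtain ⟨a, ha⟩ := mem_iUnion.1 hx
      refine ⟨a, ?_⟩
      have h2 := Metric.mem_closedBall.1 ha
      have h3 : (1 : ℝ) / (p : ℝ) ^ (l + 4) ≤ 1 / (16 * (p : ℝ) ^ l) := by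
        apply one_div_le_one_div_of_le (by positivity)
        rw [pow_add, mul_comm]
        apply mul_le_mul_of_nonneg_left _ (by positivity)
        calc (16 : ℝ) = 2 ^ 4 := by norm_num
          _ ≤ (p : ℝ) ^ 4 := pow_le_pow_left₀ (by norm_num) (by exact_mod_cast hp) _
      have h4 : (1 : ℝ) / (8 * (p : ℝ) ^ l) = 1 / (16 * (p : ℝ) ^ l) + 1 / (16 * (p : ℝ) ^ l) := by
        field_simp
        norm_num
      rw [h4]
      exact (dist_triangle x (cen a) _).trans (add_le_add (h2.trans h3) (hs a).le))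
    have h2 := probReal_compl_eq_one_sub (μ := κ) hWm
    linarith

end Pool.Agent.Zk98
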