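import Pool.Agent.Zk24.SL.Zd

/-!
Sums of thin measures are thin, thin measures are singular.
-/

set_option autoImplicit false

open MeasureTheory Filter Topology Set

namespace Pool.Agent.Zk98

open Pool.Agent.Zk24.SL (Zd)

theorem zd_zero {p : ℕ} (hp : 2 ≤ p) : Zd p (Measure.dirac (0 : UnitAddCircle)) := by
  intro n ε hε
  filter_upwards with N
  refine ⟨1, fun _ => 0, ?_, ?_⟩
  · rw [one_pow]
    exact Nat.one_le_pow _ _ (by omega)
  · have h1 : (0 : UnitAddCircle) ∉ (⋃ a : Fin 1, Metric.closedBall ((fun _ => 0 : Fin 1 → UnitAddCircle) a)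
        (1 / (p : ℝ) ^ N))ᶜ := by
      intro h
      exact h (mem_iUnion.2 ⟨0, Metric.mem_closedBall_self (by positivity)⟩)
    have hm : MeasurableSet (⋃ a : Fin 1, Metric.closedBall ((fun _ => 0 : Fin 1 → UnitAddCircle) a)
        (1 / (p : ℝ) ^ N))ᶜ := (MeasurableSet.iUnion fun _ => Metric.isClosed_closedBall.measurableSet).compl
    rw [measureReal_def, Measure.dirac_apply' _ hm, indicator_of_notMem h1, ENNReal.toReal_zero]
    exact hε.le

theorem meas_balls {p N K : ℕ} (cen : Fin K → UnitAddCircle) :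
    MeasurableSet (⋃ a, Metric.closedBall (cen a) (1 / (p : ℝ) ^ N))ᶜ :=
  (MeasurableSet.iUnion fun _ => Metric.isClosed_closedBall.measurableSet).compl

theorem zd_neg {p : ℕ} {κ : Measure UnitAddCircle} [IsProbabilityMeasure κ] (h : Zd p κ) :
    Zd p (κ.map fun y => -y) := by
  intro n ε hε
  filter_upwards [h n ε hε] with N hN
  obtain ⟨K, cen, h1, h2⟩ := hN
  refine ⟨K, fun a => -cen a, h1, ?_⟩
  rw [map_measureReal_apply measurable_neg (meas_balls _)]
  refine le_trans (le_of_eq ?_) h2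
  congr 1
  ext y
  simp only [mem_preimage, mem_compl_iff, mem_iUnion, Metric.mem_closedBall, dist_neg_neg]

theorem pow_bound {K₁ K₂ p n N : ℕ} (hp : 2 ≤ p) (hN : 1 ≤ N) (h1 : K₁ ^ (4 * n + 4) ≤ p ^ (N + 1))
    (h2 : K₂ ^ (4 * n + 4) ≤ p ^ (N + 1)) : (K₁ * K₂) ^ n ≤ p ^ N := by
  by_contra hcon
  rw [not_le] at hcon
  have hK : 1 ≤ K₁ * K₂ := by
    rcases Nat.eq_zero_or_pos (K₁ * K₂) with h | h
    · rw [h] at hcon
      rcases Nat.eq_zero_or_pos n with hn | hn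
      · rw [hn, pow_zero] at hcon
        have := Nat.one_le_pow N p (by omega)
        omega
      · rw [zero_pow (by omega)] at hcon
        omega
    · exact h
  have h3 : (K₁ * K₂) ^ (4 * n + 4) ≤ p ^ (4 * N) := by
    calc (K₁ * K₂) ^ (4 * n + 4) = K₁ ^ (4 * n + 4) * K₂ ^ (4 * n + 4) := mul_pow _ _ _
      _ ≤ p ^ (N + 1) * p ^ (N + 1) := Nat.mul_le_mul h1 h2
      _ = p ^ (2 * N + 2) := by rw [← pow_add]; congr 1; ring
      _ ≤ p ^ (4 * N) := Nat.pow_le_pow_right (by omega) (by omega)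
  have h4 : p ^ (4 * N) < (K₁ * K₂) ^ (4 * n) := by
    have h5 : (p ^ N) ^ 4 < ((K₁ * K₂) ^ n) ^ 4 := Nat.pow_lt_pow_left hcon (by norm_num)
    rw [← pow_mul, ← pow_mul] at h5
    rwa [mul_comm 4 N, mul_comm 4 n]
  have h5 : (K₁ * K₂) ^ (4 * n) ≤ (K₁ * K₂) ^ (4 * n + 4) := Nat.pow_le_pow_right hK (by omega)
  omega

theorem zd_add {p : ℕ} (hp : 2 ≤ p) {Λ : Measure (UnitAddCircle × UnitAddCircle)} [IsProbabilityMeasure Λ]
    (h1 : Zd p (Λ.map Prod.fst)) (h2 : Zd p (Λ.map Prod.snd)) : Zd p (Λ.map fun z => z.1 + z.2) := by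
  intro n ε hε
  have hp0 : (0 : ℝ) < p := by
    have : 0 < p := by omega
    exact_mod_cast this
  have e1 := (tendsto_add_atTop_nat 1).eventually (h1 (4 * n + 4) (ε / 2) (by positivity))
  have e2 := (tendsto_add_atTop_nat 1).eventually (h2 (4 * n + 4) (ε / 2) (by positivity))
  filter_upwards [e1, e2, eventually_ge_atTop 1] with N hN1 hN2 hN
  obtain ⟨K₁, c₁, a1, a2⟩ := hN1
  obtain ⟨K₂, c₂, b1, b2⟩ := hN2
  refine ⟨K₁ * K₂, fun a => c₁ (finProdFinEquiv.symm a).1 + c₂ (finProdFinEquiv.symm a).2,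
    pow_bound hp hN a1 b1, ?_⟩
  have hadd : Measurable fun z : UnitAddCircle × UnitAddCircle => z.1 + z.2 := measurable_add
  rw [map_measureReal_apply hadd (meas_balls _)]
  rw [map_measureReal_apply measurable_fst (meas_balls _)] at a2
  rw [map_measureReal_apply measurable_snd (meas_balls _)] at b2
  have hsub : (fun z : UnitAddCircle × UnitAddCircle => z.1 + z.2) ⁻¹'
      (⋃ a, Metric.closedBall (c₁ (finProdFinEquiv.symm a).1 + c₂ (finProdFinEquiv.symm a).2)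
        (1 / (p : ℝ) ^ N))ᶜ ⊆
      (Prod.fst ⁻¹' (⋃ a, Metric.closedBall (c₁ a) (1 / (p : ℝ) ^ (N + 1)))ᶜ) ∪
        (Prod.snd ⁻¹' (⋃ a, Metric.closedBall (c₂ a) (1 / (p : ℝ) ^ (N + 1)))ᶜ) := by
    intro z hz
    by_contra hcon
    simp only [mem_union, mem_preimage, mem_compl_iff, not_or, not_not, mem_iUnion] at hcon
    obtain ⟨⟨i, hi⟩, j, hj⟩ := hcon
    apply hz
    rw [mem_iUnion]
    refine ⟨finProdFinEquiv (i, j), ?_⟩
    rw [Equiv.symm_apply_apply]
    rw [Metric.mem_closedBall] at hi hj ⊢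
    have h3 : (2 : ℝ) / (p : ℝ) ^ (N + 1) ≤ 1 / (p : ℝ) ^ N := by
      rw [div_le_div_iff₀ (by positivity) (by positivity), pow_succ]
      have h4 : (2 : ℝ) ≤ p := by exact_mod_cast hp
      have h5 : (0 : ℝ) < (p : ℝ) ^ N := by positivity
      nlinarith
    calc dist (z.1 + z.2) (c₁ i + c₂ j) ≤ dist z.1 (c₁ i) + dist z.2 (c₂ j) := dist_add_add_le _ _ _ _
      _ ≤ 1 / (p : ℝ) ^ (N + 1) + 1 / (p : ℝ) ^ (N + 1) := add_le_add hi hj
      _ = 2 / (p : ℝ) ^ (N + 1) := by ring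
      _ ≤ _ := h3
  calc Λ.real _ ≤ Λ.real _ := measureReal_mono hsub
    _ ≤ _ := measureReal_union_le _ _
    _ ≤ ε / 2 + ε / 2 := add_le_add a2 b2
    _ = ε := by ring

theorem sing_of_sets {κ : Measure UnitAddCircle} [IsProbabilityMeasure κ]
    (h : ∀ k : ℕ, ∃ S : Set UnitAddCircle, MeasurableSet S ∧ volume S ≤ ENNReal.ofReal ((1 / 2 : ℝ) ^ k) ∧
      κ Sᶜ ≤ ENNReal.ofReal ((1 / 2 : ℝ) ^ k)) : κ ⟂ₘ (volume : Measure UnitAddCircle) := by
  choose S hS hv hκ using h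
  have hsum : ∑' k, (volume : Measure UnitAddCircle) (S k) ≠ ⊤ := by
    refine ne_top_of_le_ne_top ?_ (ENNReal.tsum_le_tsum hv)
    rw [← ENNReal.ofReal_tsum_of_nonneg (fun k => by positivity) (summable_geometric_of_lt_one (by norm_num) (by norm_num))]
    exact ENNReal.ofReal_ne_top
  have hT : volume (limsup S atTop) = 0 := measure_limsup_atTop_eq_zero hsum
  have hTm : MeasurableSet (limsup S atTop) := MeasurableSet.measurableSet_limsup hS
  refine ⟨(limsup S atTop)ᶜ, hTm.compl, ?_, by rw [compl_compl]; exact hT⟩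
  have h1 : (limsup S atTop)ᶜ ⊆ ⋃ j : ℕ, ⋂ k ∈ Ici j, (S k)ᶜ := by
    intro x hx
    rw [mem_compl_iff, mem_limsup_iff_frequently_mem, not_frequently, eventually_atTop] at hx
    obtain ⟨j, hj⟩ := hx
    exact mem_iUnion.2 ⟨j, mem_iInter₂.2 fun k hk => hj k hk⟩
  refine measure_mono_null h1 (measure_iUnion_null fun j => ?_)
  refine le_antisymm ?_ bot_le
  have h2 : ∀ k : ℕ, j ≤ k → κ (⋂ k ∈ Ici j, (S k)ᶜ) ≤ ENNReal.ofReal ((1 / 2 : ℝ) ^ k) := fun k hk =>
    (measure_mono (biInter_subset_of_mem (show k ∈ Ici j from hk))).trans (hκ k)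
  have h3 : Tendsto (fun k : ℕ => ENNReal.ofReal ((1 / 2 : ℝ) ^ k)) atTop (𝓝 0) := by
    have := ENNReal.tendsto_ofReal (tendsto_pow_atTop_nhds_zero_of_lt_one (r := (1 / 2 : ℝ)) (by norm_num) (by norm_num))
    rwa [ENNReal.ofReal_zero] at this
  exact ge_of_tendsto h3 (by
    filter_upwards [eventually_ge_atTop j] with k hk
    exact h2 k hk)

theorem zd_sing {p : ℕ} (hp : 2 ≤ p) {κ : Measure UnitAddCircle} [IsProbabilityMeasure κ] (h : Zd p κ) :
    κ ⟂ₘ (volume : Measure UnitAddCircle) := by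
  refine sing_of_sets fun k => ?_
  obtain ⟨N, hN, hNk⟩ := ((h 2 ((1 / 2 : ℝ) ^ k) (by positivity)).and (eventually_ge_atTop (2 * k + 2))).exists
  obtain ⟨K, cen, h1, h2⟩ := hN
  have hp0 : (0 : ℝ) < p := by
    have : 0 < p := by omega
    exact_mod_cast this
  refine ⟨⋃ a, Metric.closedBall (cen a) (1 / (p : ℝ) ^ N),
    MeasurableSet.iUnion fun _ => Metric.isClosed_closedBall.measurableSet, ?_, ?_⟩
  · have h3 : volume (⋃ a, Metric.closedBall (cen a) (1 / (p : ℝ) ^ N)) ≤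
        ∑ _a : Fin K, ENNReal.ofReal (2 * (1 / (p : ℝ) ^ N)) := by
      refine (measure_iUnion_fintype_le _ _).trans (Finset.sum_le_sum fun a _ => ?_)
      rw [AddCircle.volume_closedBall]
      exact ENNReal.ofReal_le_ofReal (min_le_right _ _)
    refine h3.trans ?_
    rw [Finset.sum_const, Finset.card_univ, Fintype.card_fin, nsmul_eq_mul,
      ← ENNReal.ofReal_natCast, ← ENNReal.ofReal_mul (Nat.cast_nonneg _)]
    apply ENNReal.ofReal_le_ofReal
    have h4 : ((K : ℝ) * (2 * (1 / (p : ℝ) ^ N))) ^ 2 ≤ ((1 / 2 : ℝ) ^ k) ^ 2 := by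
      have hK : (K : ℝ) ^ 2 ≤ (p : ℝ) ^ N := by exact_mod_cast h1
      have hpN : (0 : ℝ) < (p : ℝ) ^ N := by positivity
      have h5 : ((K : ℝ) * (2 * (1 / (p : ℝ) ^ N))) ^ 2 = 4 * (K : ℝ) ^ 2 / ((p : ℝ) ^ N * (p : ℝ) ^ N) := by
        field_simp
        ring
      have h6 : 4 * (K : ℝ) ^ 2 / ((p : ℝ) ^ N * (p : ℝ) ^ N) ≤ 4 / (p : ℝ) ^ N := by
        rw [div_le_div_iff₀ (by positivity) hpN]
        nlinarith
      have h7 : (4 : ℝ) / (p : ℝ) ^ N ≤ 4 / 2 ^ (2 * k + 2) := by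
        apply div_le_div_of_nonneg_left (by norm_num) (by positivity)
        calc (2 : ℝ) ^ (2 * k + 2) ≤ 2 ^ N := pow_le_pow_right₀ (by norm_num) hNk
          _ ≤ (p : ℝ) ^ N := pow_le_pow_left₀ (by norm_num) (by exact_mod_cast hp) _
      have h8 : (4 : ℝ) / 2 ^ (2 * k + 2) = ((1 / 2 : ℝ) ^ k) ^ 2 := by
        rw [← pow_mul, mul_comm k 2, pow_add, div_pow, one_pow]
        field_simp
        norm_num
      rw [h5, ← h8]
      exact h6.trans h7
    exact (pow_le_pow_iff_left₀ (by positivity) (by positivity) (by norm_num)).1 h4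
  · have h3 : κ (⋃ a, Metric.closedBall (cen a) (1 / (p : ℝ) ^ N))ᶜ =
        ENNReal.ofReal (κ.real (⋃ a, Metric.closedBall (cen a) (1 / (p : ℝ) ^ N))ᶜ) :=
      (ofReal_measureReal (measure_ne_top _ _)).symm
    rw [h3]
    exact ENNReal.ofReal_le_ofReal h2

end Pool.Agent.Zk98
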