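import Pool.Agent.Zk98.SolC

set_option autoImplicit false

namespace Pool.Agent.Zk98

theorem near_count (K u v : ℕ) (hu : 1 ≤ u) (hv : 1 ≤ v) (w D : ℝ) (hD : 0 ≤ D) :
    ((((Finset.Ico K (2*K)) ×ˢ (Finset.Ico K (2*K))).filter
      (fun z : ℕ × ℕ => |((z.1 : ℝ) * u - (z.2 : ℝ) * v) - w| ≤ D)).card : ℝ) ≤
      (2 * D + 1) * (K * ((Nat.gcd u v : ℕ) : ℝ) / v + 1) := by
  classical
  obtain ⟨B, hB⟩ : ∃ B : ℝ, B = K * ((Nat.gcd u v : ℕ) : ℝ) / v + 1 := ⟨_, rfl⟩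
  have hB0 : 0 ≤ B := by rw [hB]; positivity
  obtain ⟨T, hT⟩ : ∃ T : ℤ → Finset (ℕ × ℕ), T = fun m => ((Finset.Ico K (2*K)) ×ˢ (Finset.Ico K (2*K))).filter
      (fun z : ℕ × ℕ => (z.1 : ℤ) * u - (z.2 : ℤ) * v = m) := ⟨_, rfl⟩
  have h1 : ((Finset.Ico K (2*K)) ×ˢ (Finset.Ico K (2*K))).filter
      (fun z : ℕ × ℕ => |((z.1 : ℝ) * u - (z.2 : ℝ) * v) - w| ≤ D) ⊆
      (Finset.Icc ⌈w - D⌉ ⌊w + D⌋).biUnion T := by
    intro z hz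
    rw [Finset.mem_filter] at hz
    obtain ⟨hz1, hz2⟩ := hz
    rw [abs_le] at hz2
    rw [Finset.mem_biUnion]
    refine ⟨(z.1 : ℤ) * u - (z.2 : ℤ) * v, ?_, ?_⟩
    · rw [Finset.mem_Icc]
      constructor
      · apply Int.ceil_le.2
        push_cast
        linarith
      · apply Int.le_floor.2
        push_cast
        linarith
    · rw [hT, Finset.mem_filter]
      exact ⟨hz1, rfl⟩
  have h2 := (Finset.card_le_card h1).trans Finset.card_biUnion_le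
  have h3 : ((((Finset.Ico K (2*K)) ×ˢ (Finset.Ico K (2*K))).filter
      (fun z : ℕ × ℕ => |((z.1 : ℝ) * u - (z.2 : ℝ) * v) - w| ≤ D)).card : ℝ) ≤
      ∑ m ∈ Finset.Icc ⌈w - D⌉ ⌊w + D⌋, ((T m).card : ℝ) := by
    exact_mod_cast h2
  have h4 : ∑ m ∈ Finset.Icc ⌈w - D⌉ ⌊w + D⌋, ((T m).card : ℝ) ≤
      ((Finset.Icc ⌈w - D⌉ ⌊w + D⌋).card : ℝ) * B := by
    rw [← nsmul_eq_mul]
    refine Finset.sum_le_card_nsmul _ _ _ fun m _ => ?_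
    rw [hT, hB]
    exact sol_count K u v hu hv m
  have h5 : ((Finset.Icc ⌈w - D⌉ ⌊w + D⌋).card : ℝ) ≤ 2 * D + 1 := by
    rw [Int.card_Icc]
    have h6 : ((⌊w + D⌋ + 1 - ⌈w - D⌉ : ℤ) : ℝ) ≤ 2 * D + 1 := by
      push_cast
      have := Int.floor_le (w + D)
      have := Int.le_ceil (w - D)
      linarith
    rcases le_or_gt 0 (⌊w + D⌋ + 1 - ⌈w - D⌉) with h | h
    · have h7 : (((⌊w + D⌋ + 1 - ⌈w - D⌉).toNat : ℤ) : ℝ) = ((⌊w + D⌋ + 1 - ⌈w - D⌉ : ℤ) : ℝ) := by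
        rw [Int.toNat_of_nonneg h]
      rw [Int.cast_natCast] at h7
      rw [h7]
      exact h6
    · rw [Int.toNat_of_nonpos h.le]
      push_cast
      linarith
  rw [← hB]
  exact h3.trans (h4.trans (mul_le_mul_of_nonneg_right h5 hB0))

end Pool.Agent.Zk98
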