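import Pool.Agent.Zk55.RF.Base

set_option autoImplicit false

/-!
The constants at the vertices for functions which are one-sided limits in the direction.
-/

namespace Pool.Agent.Zk98.RF

open Complex Set MeasureTheory Filter Topology Pool.Agent.W780.PG Pool.Agent.W780.BB
  Pool.Agent.TH578.BE Pool.Agent.K3h17.BK Pool.Agent.Zk55.CF Pool.Agent.Zk55.RF

open scoped Real ComplexConjugate

variable {n : ℕ} {p : Fin (n + 3) → ℂ} {χ : Fin (n + 3) → ℂ} {f : ℂ × ℝ → ℂ}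

/-- Convergence in the mean implies weak convergence. -/
theorem sq {S : Set ℝ} (hS : MeasurableSet S) {u : ℝ → ℝ → ℂ} (hm : ∀ ρ, Measurable (u ρ))
    (hb : ∀ ρ θ, ‖u ρ θ‖ ≤ 2) (h : Tendsto (fun ρ : ℝ => ∫ θ in (0 : ℝ)..(2 * π),
      S.indicator (fun θ => ‖u ρ θ‖) θ) (𝓝[>] 0) (𝓝 0)) {ψ : ℝ → ℂ} (hc : Continuous ψ) :
    Tendsto (fun ρ : ℝ => ∫ θ in (0 : ℝ)..(2 * π), S.indicator ψ θ * u ρ θ) (𝓝[>] 0) (𝓝 0) := by
  have hpi := Real.pi_pos
  obtain ⟨B, hB⟩ : ∃ B, ∀ θ ∈ Icc (0 : ℝ) (2 * π), ‖ψ θ‖ ≤ B :=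
    isCompact_Icc.exists_bound_of_continuousOn hc.continuousOn
  have h2 := h.const_mul B
  rw [mul_zero] at h2
  refine squeeze_zero_norm (fun ρ => ?_) h2
  rw [← intervalIntegral.integral_const_mul]
  refine intervalIntegral.norm_integral_le_of_norm_le (by positivity)
    (Filter.Eventually.of_forall fun θ hθ => ?_) ?_
  · by_cases h3 : θ ∈ S
    · rw [indicator_of_mem h3, indicator_of_mem h3, norm_mul]
      exact mul_le_mul_of_nonneg_right (hB θ ⟨hθ.1.le, hθ.2⟩) (norm_nonneg _)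
    · rw [indicator_of_notMem h3, indicator_of_notMem h3, zero_mul, norm_zero, mul_zero]
  · refine IntervalIntegrable.const_mul ?_ B
    refine (intervalIntegrable_const (c := (2 : ℝ))).mono_fun
      (((hm ρ).norm).indicator hS).aestronglyMeasurable (Filter.Eventually.of_forall fun θ => ?_)
    refine (norm_indicator_le_norm_self _ _).trans ?_
    rw [norm_norm]
    refine (hb ρ θ).trans ?_
    norm_num

theorem diff_meas (hp : IsConvexPolygon p) (hf : Measurable f) (j : Fin (n + 3)) (ρ : ℝ) :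
    Measurable fun θ => Kp p f j ρ θ - Kp p f j (-ρ) θ :=
  (Kp_meas hp hf j (σ := fun _ => ρ) measurable_const).sub
    (Kp_meas hp hf j (σ := fun _ => -ρ) measurable_const)

theorem diff_bound (hp : IsConvexPolygon p) (hb : ∀ x, ‖f x‖ ≤ 1)
    (hE : IsEigenfunction p 0 χ f) (j : Fin (n + 3)) (ρ θ : ℝ) :
    ‖Kp p f j ρ θ - Kp p f j (-ρ) θ‖ ≤ 2 := by
  linarith [norm_sub_le (Kp p f j ρ θ) (Kp p f j (-ρ) θ), Kp_bound hp hE hb j ρ θ,
    Kp_bound hp hE hb j (-ρ) θ]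

theorem out_of (hp : IsConvexPolygon p) (hχ : ∀ i, χ i = 1 ∨ χ i = -1)
    (hE : IsEigenfunction p 0 χ f) (j : Fin (n + 3)) {ψ : ℝ → ℂ}
    (hper : ∀ θ, ψ (θ + 2 * π) = ψ θ)
    (h1 : Tendsto (fun ρ : ℝ => ∫ θ in (0 : ℝ)..(2 * π), (Inc p j).indicator (fun θ => ψ (π + θ)) θ *
      (Kp p (frev f) j ρ θ - Kp p (frev f) j (-ρ) θ)) (𝓝[>] 0) (𝓝 0)) :
    Tendsto (fun ρ : ℝ => ∫ θ in (0 : ℝ)..(2 * π), (Out p j).indicator ψ θ *
      (Kp p f j ρ θ - Kp p f j (-ρ) θ)) (𝓝[>] 0) (𝓝 0) := by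
  have h2 := h1.neg
  rw [neg_zero] at h2
  refine h2.congr fun ρ => ?_
  have hgp : ∀ θ, (Out p j).indicator ψ (θ + 2 * π) * (Kp p f j ρ (θ + 2 * π) -
      Kp p f j (-ρ) (θ + 2 * π)) = (Out p j).indicator ψ θ * (Kp p f j ρ θ - Kp p f j (-ρ) θ) := by
    intro θ
    have hm : θ + 2 * π ∈ Out p j ↔ θ ∈ Out p j := by
      unfold Out
      simp only [mem_ofPred_eq]
      rw [show θ + 2 * π - tau p j = θ - tau p j + 2 * π by ring,
        show θ + 2 * π - tau p (j - 1) = θ - tau p (j - 1) + 2 * π by ring, Real.sin_add_two_pi,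
        Real.sin_add_two_pi]
    rw [Kp_per hE, Kp_per hE]
    congr 1
    by_cases h : θ ∈ Out p j
    · rw [indicator_of_mem h, indicator_of_mem (hm.2 h), hper]
    · rw [indicator_of_notMem h, indicator_of_notMem fun h' => h (hm.1 h')]
  have h3 := int_shift (g := fun θ => (Out p j).indicator ψ θ *
    (Kp p f j ρ θ - Kp p f j (-ρ) θ)) hgp π
  rw [← h3, ← intervalIntegral.integral_neg]
  refine intervalIntegral.integral_congr fun θ _ => ?_
  rw [Kp_rev hp hχ hE, Kp_rev hp hχ hE, neg_neg, add_comm θ π]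
  by_cases h : θ ∈ Inc p j
  · rw [indicator_of_mem h, indicator_of_mem ((out_iff j θ).2 h)]
    ring
  · rw [indicator_of_notMem h, indicator_of_notMem fun h' => h ((out_iff j θ).1 h')]
    ring

theorem ind_eq {S : Set ℝ} {ψ : ℝ → ℂ} (h : ∀ θ, ψ θ ≠ 0 → θ ∈ S) : S.indicator ψ = ψ := by
  ext θ
  by_cases h1 : θ ∈ S
  · rw [indicator_of_mem h1]
  · rw [indicator_of_notMem h1]
    by_contra h2
    exact h1 (h θ fun h3 => h2 h3.symm)

/-- The other side. -/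
theorem other (hp : IsConvexPolygon p) (hf : Measurable f) (hb : ∀ x, ‖f x‖ ≤ 1)
    (hE : IsEigenfunction p 0 χ f) (j : Fin (n + 3))
    (hJ : Tendsto (fun ρ : ℝ => ∫ θ in (0 : ℝ)..(2 * π),
      (Inc p j).indicator (fun θ => ‖Kp p f j ρ θ - Kp p f j (-ρ) θ‖) θ) (𝓝[>] 0) (𝓝 0))
    {ψ : ℝ → ℂ} (hc : Continuous ψ) (hs : ∀ θ, ψ θ ≠ 0 → θ ∈ Inc p j) {v : ℂ}
    (h : Tendsto (fun ρ : ℝ => ∫ θ in (0 : ℝ)..(2 * π), ψ θ * Kp p f j ρ θ) (𝓝[>] 0) (𝓝 v))
    {σ : ℝ} (hσ : σ = 1 ∨ σ = -1) :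
    Tendsto (fun ρ : ℝ => ∫ θ in (0 : ℝ)..(2 * π), ψ θ * Kp p f j (σ * ρ) θ) (𝓝[>] 0) (𝓝 v) := by
  rcases hσ with rfl | rfl
  · simpa only [one_mul] using h
  · have h1 := sq (inc_meas j) (diff_meas hp hf j) (diff_bound hp hb hE j) hJ hc
    rw [ind_eq hs] at h1
    have h2 := h.sub h1
    rw [sub_zero] at h2
    refine h2.congr fun ρ => ?_
    have hi : ∀ s : ℝ, IntervalIntegrable (fun θ => ψ θ * Kp p f j s θ) volume 0 (2 * π) := by
      intro s
      exact (bdd_ii (Kp_meas hp hf j (σ := fun _ => s) measurable_const)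
        (fun θ => Kp_bound hp hE hb j s θ) _ _).continuousOn_mul hc.continuousOn
    have hd : IntervalIntegrable (fun θ => ψ θ * (Kp p f j ρ θ - Kp p f j (-ρ) θ)) volume 0
        (2 * π) := (bdd_ii (diff_meas hp hf j ρ) (diff_bound hp hb hE j ρ) _ _).continuousOn_mul
          hc.continuousOn
    rw [← intervalIntegral.integral_sub (hi ρ) hd]
    refine intervalIntegral.integral_congr fun θ _ => ?_
    simp only [neg_mul, one_mul]
    ring

/-- The constant at the vertex `j`. -/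
theorem vtx_const_sided (hp : IsConvexPolygon p) (hf : Measurable f) (hb : ∀ x, ‖f x‖ ≤ 1)
    (hE : IsEigenfunction p 0 (fun _ => 1) f) (j : Fin (n + 3))
    (hir : Irrational ((tau p j - tau p (j - 1)) / π))
    (hJ : Tendsto (fun ρ : ℝ => ∫ θ in (0 : ℝ)..(2 * π),
      (Inc p j).indicator (fun θ => ‖Kp p f j ρ θ - Kp p f j (-ρ) θ‖) θ) (𝓝[>] 0) (𝓝 0))
    (hJ' : Tendsto (fun ρ : ℝ => ∫ θ in (0 : ℝ)..(2 * π),
      (Inc p j).indicator (fun θ => ‖Kp p (frev f) j ρ θ - Kp p (frev f) j (-ρ) θ‖) θ)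
      (𝓝[>] 0) (𝓝 0))
    {L : ℝ → ℂ} (hL : Measurable L) (hLb : ∀ θ, ‖L θ‖ ≤ 1)
    (hlim : Tendsto (fun ρ : ℝ => ∫ θ in (0 : ℝ)..(2 * π),
      (Inc p j).indicator (fun θ => ‖Kp p f j ρ θ - L θ‖) θ) (𝓝[>] 0) (𝓝 0)) :
    ∃ c : ℂ, ∀ g : ℂ × ℝ → ℂ, (g = f ∨ g = frev f) → ∀ σ : ℝ, (σ = 1 ∨ σ = -1) →
      ∀ ψ : ℝ → ℂ, Continuous ψ → (∀ θ, ψ (θ + 2 * π) = ψ θ) → (∀ θ, ψ θ ≠ 0 → θ ∈ Inc p j) →
      Tendsto (fun ρ : ℝ => ∫ θ in (0 : ℝ)..(2 * π), ψ θ * Kp p g j (σ * ρ) θ) (𝓝[>] 0)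
        (𝓝 (c * ∫ θ in (0 : ℝ)..(2 * π), ψ θ)) := by
  have hpi := Real.pi_pos
  have hχ : ∀ i : Fin (n + 3), (fun _ : Fin (n + 3) => (1 : ℂ)) i = 1 ∨
      (fun _ : Fin (n + 3) => (1 : ℂ)) i = -1 := fun i => Or.inl rfl
  have hfr : Measurable (frev f) := by
    unfold frev
    exact hf.comp (measurable_fst.prodMk (measurable_snd.add_const π))
  have hbr : ∀ x, ‖frev f x‖ ≤ 1 := fun x => hb _
  have hEr := rev_eigen hχ hE
  have ma : ∀ ρ, Measurable (ka p f j ρ) := by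
    intro ρ
    unfold ka
    refine Kp_meas hp hf j (σ := fun θ => -sn (Real.sin (θ - tau p j)) * ρ) ?_
    exact ((sn_meas.comp (Real.measurable_sin.comp (measurable_id.sub_const _))).neg).mul_const ρ
  have mb : ∀ ρ, Measurable (kb p f j ρ) := by
    intro ρ
    unfold kb
    refine Kp_meas hp hf j (σ := fun θ => sn (Real.sin (θ - tau p (j - 1))) * ρ) ?_
    exact (sn_meas.comp (Real.measurable_sin.comp (measurable_id.sub_const _))).mul_const ρ
  have ba : ∀ ρ θ, ‖ka p f j ρ θ‖ ≤ 1 := fun ρ θ => Kp_bound hp hE hb j _ _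
  have bb : ∀ ρ θ, ‖kb p f j ρ θ‖ ≤ 1 := fun ρ θ => Kp_bound hp hE hb j _ _
  have hs2 : ∀ θ τ : ℝ, Real.sin (θ + 2 * π - τ) = Real.sin (θ - τ) := by
    intro θ τ
    rw [show θ + 2 * π - τ = θ - τ + 2 * π by ring, Real.sin_add_two_pi]
  have pa : ∀ ρ θ, ka p f j ρ (θ + 2 * π) = ka p f j ρ θ := by
    intro ρ θ
    unfold ka
    rw [hs2, Kp_per hE]
  have pb : ∀ ρ θ, kb p f j ρ (θ + 2 * π) = kb p f j ρ θ := by
    intro ρ θ
    unfold kb
    rw [hs2, Kp_per hE]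
  have hJk : ∀ k : ℤ, Tendsto (fun ρ => ∫ θ in (0 : ℝ)..(2 * π), ek k θ *
      (ka p f j ρ θ - kb p f j ρ θ)) (𝓝[>] 0) (𝓝 0) := by
    intro k
    have h1 := (sq (inc_meas j) (diff_meas hp hf j) (diff_bound hp hb hE j) hJ (ek_cont k)).sub
      (out_of hp hχ hE j (ek_per k) (sq (inc_meas j) (diff_meas hp hfr j)
        (diff_bound hp hbr hEr j) hJ' (ψ := fun θ => ek k (π + θ))
        ((ek_cont k).comp (continuous_const.add continuous_id))))
    rw [sub_zero] at h1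
    refine h1.congr fun ρ => ?_
    have hDm := diff_meas hp hf j ρ
    have hi : ∀ S : Set ℝ, MeasurableSet S → IntervalIntegrable (fun θ => S.indicator (ek k) θ *
        (Kp p f j ρ θ - Kp p f j (-ρ) θ)) volume 0 (2 * π) := by
      intro S hS
      refine bdd_ii (u := fun θ => S.indicator (ek k) θ *
        (Kp p f j ρ θ - Kp p f j (-ρ) θ)) (C := 2) (((ek_cont k).measurable.indicator hS).mul hDm)
        (fun θ => ?_) _ _
      rw [norm_mul]
      have h2 : ‖S.indicator (ek k) θ‖ ≤ 1 := by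
        have h3 : ‖S.indicator (ek k) θ‖ ≤ ‖ek k θ‖ := norm_indicator_le_norm_self _ _
        rwa [ek_norm] at h3
      calc _ ≤ 1 * 2 := mul_le_mul h2 (diff_bound hp hb hE j ρ θ) (norm_nonneg _) zero_le_one
        _ = 2 := by norm_num
    have hom : MeasurableSet (Out p j) := by
      have h1 : Continuous fun θ : ℝ => Real.sin (θ - tau p j) := by fun_prop
      have h2 : Continuous fun θ : ℝ => Real.sin (θ - tau p (j - 1)) := by fun_prop
      exact ((isOpen_lt continuous_const h1).inter (isOpen_lt continuous_const h2)).measurableSet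
    rw [← intervalIntegral.integral_sub (hi _ (inc_meas j)) (hi _ hom)]
    refine intervalIntegral.integral_congr_ae ?_
    filter_upwards [ae_sin (tau p j), ae_sin (tau p (j - 1))] with θ h2 h3 _
    exact (ab_diff j h2 h3 (ek k)).symm
  obtain ⟨h1, -, -⟩ := four ma ba pa mb bb pb (hχ j) (hχ (j - 1)) (ka_law hp hχ hE j)
    (kb_law hp hχ hE j) hJk hir
  -- on the incoming directions
  have onInc : ∀ ψ : ℝ → ℂ, (∀ θ, ψ θ ≠ 0 → θ ∈ Inc p j) → ∀ ρ,
      ∫ θ in (0 : ℝ)..(2 * π), ψ θ * ka p f j ρ θ = ∫ θ in (0 : ℝ)..(2 * π), ψ θ * Kp p f j ρ θ := by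
    intro ψ hψ ρ
    refine intervalIntegral.integral_congr fun θ _ => ?_
    by_cases h : ψ θ = 0
    · rw [h, zero_mul, zero_mul]
    · unfold ka
      rw [sn_neg (hψ θ h).1, neg_neg, one_mul]
  -- on the outgoing directions
  have onOut : ∀ ψ : ℝ → ℂ, (∀ θ, ψ θ ≠ 0 → θ ∈ Out p j) → ∀ ρ,
      ∫ θ in (0 : ℝ)..(2 * π), ψ θ * ka p f j ρ θ =
        ∫ θ in (0 : ℝ)..(2 * π), ψ θ * Kp p f j (-ρ) θ := by
    intro ψ hψ ρ
    refine intervalIntegral.integral_congr fun θ _ => ?_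
    by_cases h : ψ θ = 0
    · rw [h, zero_mul, zero_mul]
    · unfold ka
      rw [sn_pos (hψ θ h).1, neg_mul, one_mul]
  -- a positive test function
  obtain ⟨z0, hz0⟩ : (reg p).Nonempty := (Pool.Agent.W174.PG.basic n p hp).2.2.2.2.2.1
  set ψ0 : ℝ → ℝ := fun θ => max 0 (-Real.sin (θ - tau p j)) *
    max 0 (-Real.sin (θ - tau p (j - 1))) with hψ0
  have c0 : Continuous ψ0 := by rw [hψ0]; fun_prop
  have p0 : ∀ θ, ψ0 (θ + 2 * π) = ψ0 θ := by
    intro θ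
    simp only [hψ0, hs2]
  have s0 : ∀ θ, (ψ0 θ : ℂ) ≠ 0 → θ ∈ Inc p j := by
    intro θ h
    have h4 : ψ0 θ ≠ 0 := by exact_mod_cast h
    have h5 := left_ne_zero_of_mul h4
    have h6 := right_ne_zero_of_mul h4
    constructor
    · by_contra hcon
      push Not at hcon
      exact h5 (max_eq_left (by linarith))
    · by_contra hcon
      push Not at hcon
      exact h6 (max_eq_left (by linarith))
  have hI0 : 0 < ∫ θ in (0 : ℝ)..(2 * π), ψ0 θ := by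
    have hne : z0 ≠ p j := by
      rintro rfl
      have h4 := hz0 j
      rw [Pool.Agent.W174.PG.lft_left] at h4
      exact lt_irrefl _ h4
    have h4 := on_ray hne
    have h5 : 0 < ‖z0 - p j‖ := by rw [norm_pos_iff, sub_ne_zero]; exact hne
    have h6 : arg (p j - z0) ∈ Inc p j := inc_of_mem hp h5 (by rw [← h4]; exact hz0)
    have h7 : 0 < ψ0 (arg (p j - z0)) := by
      simp only [hψ0]
      exact mul_pos (lt_max_of_lt_right (by linarith [h6.1]))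
        (lt_max_of_lt_right (by linarith [h6.2]))
    -- periodic: move the point into the interval
    have hp0 : Function.Periodic ψ0 (2 * π) := p0
    have h8 := hp0.intervalIntegral_add_eq (arg (p j - z0) - π) 0
    rw [zero_add] at h8
    rw [← h8]
    refine intervalIntegral.integral_pos (by linarith) c0.continuousOn
      (fun θ _ => mul_nonneg (le_max_left _ _) (le_max_left _ _))
      ⟨arg (p j - z0), ⟨by linarith, by linarith⟩, h7⟩
  have hI0c : ((∫ θ in (0 : ℝ)..(2 * π), ψ0 θ : ℝ) : ℂ) ≠ 0 := by exact_mod_cast hI0.ne'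
  have hI0e : ∫ θ in (0 : ℝ)..(2 * π), (ψ0 θ : ℂ) = ((∫ θ in (0 : ℝ)..(2 * π), ψ0 θ : ℝ) : ℂ) :=
    intervalIntegral.integral_ofReal
  have c0' : Continuous fun θ => (ψ0 θ : ℂ) := Complex.continuous_ofReal.comp c0
  have hL1 : Tendsto (fun ρ : ℝ => ∫ θ in (0 : ℝ)..(2 * π), (ψ0 θ : ℂ) * Kp p f j ρ θ) (𝓝[>] 0)
      (𝓝 (∫ θ in (0 : ℝ)..(2 * π), (ψ0 θ : ℂ) * L θ)) := by
    have hum : ∀ ρ, Measurable fun θ => Kp p f j ρ θ - L θ := fun ρ =>
      (Kp_meas hp hf j (σ := fun _ => ρ) measurable_const).sub hL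
    have hub : ∀ ρ θ, ‖Kp p f j ρ θ - L θ‖ ≤ 2 := fun ρ θ => by
      linarith [norm_sub_le (Kp p f j ρ θ) (L θ), Kp_bound hp hE hb j ρ θ, hLb θ]
    have h4 := sq (inc_meas j) hum hub hlim c0'
    rw [ind_eq s0] at h4
    have h5 := h4.add_const (∫ θ in (0 : ℝ)..(2 * π), (ψ0 θ : ℂ) * L θ)
    rw [zero_add] at h5
    refine h5.congr fun ρ => ?_
    rw [← intervalIntegral.integral_add
      ((bdd_ii (hum ρ) (hub ρ) _ _).continuousOn_mul c0'.continuousOn)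
      ((bdd_ii hL hLb _ _).continuousOn_mul c0'.continuousOn)]
    refine intervalIntegral.integral_congr fun θ _ => ?_
    ring
  -- the mean values converge
  have hM : Tendsto (fun ρ => (1 / (2 * (π : ℂ))) * ∫ θ in (0 : ℝ)..(2 * π), ka p f j ρ θ)
      (𝓝[>] 0) (𝓝 ((∫ θ in (0 : ℝ)..(2 * π), (ψ0 θ : ℂ) * L θ) /
        ((∫ θ in (0 : ℝ)..(2 * π), ψ0 θ : ℝ) : ℂ))) := by
    have h4 := dens ma ba h1 (ψ := fun θ => (ψ0 θ : ℂ)) c0' (fun θ => by rw [p0])
    have h5 := (hL1.sub h4).div_const ((∫ θ in (0 : ℝ)..(2 * π), ψ0 θ : ℝ) : ℂ)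
    rw [sub_zero] at h5
    refine h5.congr fun ρ => ?_
    rw [onInc _ s0, hI0e]
    field_simp
    ring
  have key : ∀ ψ : ℝ → ℂ, Continuous ψ → (∀ θ, ψ (θ + 2 * π) = ψ θ) →
      Tendsto (fun ρ : ℝ => ∫ θ in (0 : ℝ)..(2 * π), ψ θ * ka p f j ρ θ) (𝓝[>] 0)
        (𝓝 ((∫ θ in (0 : ℝ)..(2 * π), (ψ0 θ : ℂ) * L θ) /
        ((∫ θ in (0 : ℝ)..(2 * π), ψ0 θ : ℝ) : ℂ) * ∫ θ in (0 : ℝ)..(2 * π), ψ θ)) := by
    intro ψ hc hper
    have h4 := dens ma ba h1 hc hper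
    have h5 := hM.mul_const (∫ θ in (0 : ℝ)..(2 * π), ψ θ)
    have h6 := h4.add h5
    rw [zero_add] at h6
    refine h6.congr fun ρ => ?_
    ring
  refine ⟨(∫ θ in (0 : ℝ)..(2 * π), (ψ0 θ : ℂ) * L θ) /
        ((∫ θ in (0 : ℝ)..(2 * π), ψ0 θ : ℝ) : ℂ), ?_⟩
  intro g hg σ hσ ψ hc hper hs
  rcases hg with rfl | rfl
  · refine other hp hf hb hE j hJ hc hs ?_ hσ
    refine (key ψ hc hper).congr fun ρ => ?_
    rw [onInc ψ hs]
  · refine other hp hfr hbr hEr j hJ' hc hs ?_ hσ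
    have hper' : ∀ θ, ψ (θ + 2 * π + π) = ψ (θ + π) := by
      intro θ
      rw [show θ + 2 * π + π = θ + π + 2 * π by ring, hper]
    have hso : ∀ θ, ψ (θ + π) ≠ 0 → θ ∈ Out p j := by
      intro θ h
      obtain ⟨h2, h3⟩ := hs _ h
      have e : ∀ τ, Real.sin (θ + π - τ) = - Real.sin (θ - τ) := by
        intro τ
        rw [show θ + π - τ = θ - τ + π by ring, Real.sin_add_pi]
      rw [e] at h2 h3
      exact ⟨by linarith, by linarith⟩
    have h4 := key (fun θ => ψ (θ + π)) (hc.comp (continuous_id.add continuous_const)) hper'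
    have h5 : ∫ θ in (0 : ℝ)..(2 * π), ψ (θ + π) = ∫ θ in (0 : ℝ)..(2 * π), ψ θ := by
      rw [← int_shift hper π]
      refine intervalIntegral.integral_congr fun θ _ => ?_
      rw [add_comm]
    simp only [h5] at h4
    refine h4.congr fun ρ => ?_
    rw [onOut (fun θ => ψ (θ + π)) hso]
    have h6 := int_shift (g := fun θ => ψ (θ + π) * Kp p f j (-ρ) θ)
      (fun θ => by rw [hper', Kp_per hE]) π
    rw [← h6]
    refine intervalIntegral.integral_congr fun θ _ => ?_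
    rw [Kp_rev hp hχ hE, show π + θ + π = θ + 2 * π by ring, hper, add_comm π θ]

end Pool.Agent.Zk98.RF
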