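import Mathlib
import Pool.Agent.N375.AV.L2
import Pool.Agent.Zk73.OR.B

set_option autoImplicit false

/-! Exceptional sets with a saving of every power of the logarithm: divisors of almost all integers, orders modulo almost all
primes, and compositions. -/

namespace Pool.Agent.Zk98.LD

open Finset Classical
open Pool.Agent.N733.TG (Expanding)
open Pool.Agent.N375.AV (LogThin PD preimage_log logThin_mono near_log absorb)
open Pool.Agent.Zk73.OR (small_exps ne_zero_of_small order_pos dvd_of_order log_small)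

/-- the preimage of a set under a set valued function -/
def pre (F : ℕ → Set ℕ) (W : Set ℕ) : Set ℕ := {m | ∃ w ∈ F m, w ∈ W}

/-- set valued functions along which exceptional sets with a saving of every power of the logarithm remain such -/
def Keeps (F : ℕ → Set ℕ) : Prop := ∀ W : Set ℕ, LogThin W → LogThin (pre F W)

/-- Set valued functions `F` which hit every `w` with at most the expected frequency, up to powers of the logarithm and up to
few `m`: for every `U` there are `c > 0` and `C` such that for every `N ≥ 1`, for all `m ≤ N` but at most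
`C N / (1 + log N)^U` (the elements of `B`) all `w ∈ F m` satisfy `exp ((1 + log N)^c) ≤ w ≤ N^C`, and every `w` is in `F m`
for at most `C N (1 + log N)^C / w` of these `m`. -/
def Spread (F : ℕ → Set ℕ) : Prop :=
  ∀ U : ℕ, ∃ (c : ℝ) (C : ℕ), 0 < c ∧ ∀ N : ℕ, 1 ≤ N → ∃ B : Finset ℕ,
    (B.card : ℝ) ≤ C * N / (1 + Real.log N) ^ U ∧
    (∀ m : ℕ, 1 ≤ m → m ≤ N → m ∉ B → ∀ w ∈ F m, Real.exp ((1 + Real.log N) ^ c) ≤ w ∧ w ≤ N ^ C) ∧
    ∀ w : ℕ, 1 ≤ w → ∀ M : Finset ℕ, (∀ m ∈ M, 1 ≤ m ∧ m ≤ N ∧ m ∉ B ∧ w ∈ F m) →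
      (M.card : ℝ) ≤ C * N * (1 + Real.log N) ^ C / w

/-- the sum of the reciprocals of the elements `≥ Y` of a set with a saving of a power of the logarithm -/
lemma sum_inv_log {K : ℝ} {A : ℕ} (hK : 0 ≤ K) (W : Set ℕ)
    (hW : ∀ X : ℕ, 1 ≤ X → (((range (X + 1)).filter (fun w => w ∈ W)).card : ℝ) ≤ K * X / (1 + Real.log X) ^ A)
    {Y : ℝ} (hY : 1 ≤ Y) (X : ℕ) :
    ∑ w ∈ (Icc 1 X).filter (fun w => w ∈ W ∧ Y ≤ w), (1 : ℝ) / w ≤
      2 * K * (Nat.log 2 X + 1) / (1 + Real.log Y) ^ A := by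
  have hlY : 0 ≤ Real.log Y := Real.log_nonneg hY
  have hmaps : ∀ w ∈ (Icc 1 X).filter (fun w => w ∈ W ∧ Y ≤ w), Nat.log 2 w ∈ range (Nat.log 2 X + 1) := by
    intro w hw
    rw [mem_filter, mem_Icc] at hw
    rw [mem_range]
    exact Nat.lt_succ_of_le (Nat.log_mono_right hw.1.2)
  rw [← sum_fiberwise_of_maps_to hmaps]
  have key : ∀ j ∈ range (Nat.log 2 X + 1),
      ∑ w ∈ ((Icc 1 X).filter (fun w => w ∈ W ∧ Y ≤ w)).filter (fun w => Nat.log 2 w = j), (1 : ℝ) / w ≤
        2 * K / (1 + Real.log Y) ^ A := by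
    intro j _
    rcases (((Icc 1 X).filter (fun w => w ∈ W ∧ Y ≤ w)).filter (fun w => Nat.log 2 w = j)).eq_empty_or_nonempty
      with he | ⟨w0, hw0⟩
    · rw [he, sum_empty]
      positivity
    · have h2 : Y ≤ (2 : ℝ) ^ (j + 1) := by
        rw [mem_filter, mem_filter, mem_Icc] at hw0
        have h1 := Nat.lt_pow_succ_log_self (by norm_num : 1 < 2) w0
        rw [hw0.2] at h1
        have h3 : (w0 : ℝ) ≤ (2 : ℝ) ^ (j + 1) := by exact_mod_cast h1.le
        linarith [hw0.1.2.2]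
      have hsub : ((Icc 1 X).filter (fun w => w ∈ W ∧ Y ≤ w)).filter (fun w => Nat.log 2 w = j) ⊆
          (range (2 ^ (j + 1) + 1)).filter (fun w => w ∈ W) := by
        intro w hw
        rw [mem_filter, mem_filter, mem_Icc] at hw
        rw [mem_filter, mem_range]
        have h1 := Nat.lt_pow_succ_log_self (by norm_num : 1 < 2) w
        rw [hw.2] at h1
        exact ⟨by omega, hw.1.2.1⟩
      have hterm : ∀ w ∈ ((Icc 1 X).filter (fun w => w ∈ W ∧ Y ≤ w)).filter (fun w => Nat.log 2 w = j),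
          (1 : ℝ) / w ≤ 1 / 2 ^ j := by
        intro w hw
        rw [mem_filter, mem_filter, mem_Icc] at hw
        have h1 := Nat.pow_log_le_self 2 (by omega : w ≠ 0)
        rw [hw.2] at h1
        apply one_div_le_one_div_of_le (by positivity)
        exact_mod_cast h1
      have hcard := (Nat.cast_le (α := ℝ)).2 (card_le_card hsub)
      have hWj := hW (2 ^ (j + 1)) Nat.one_le_two_pow
      push_cast at hWj
      have hl : Real.log Y ≤ Real.log ((2 : ℝ) ^ (j + 1)) := Real.log_le_log (by linarith) h2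
      calc _ ≤ ∑ w ∈ ((Icc 1 X).filter (fun w => w ∈ W ∧ Y ≤ w)).filter (fun w => Nat.log 2 w = j),
              (1 : ℝ) / 2 ^ j := sum_le_sum hterm
        _ = ((((Icc 1 X).filter (fun w => w ∈ W ∧ Y ≤ w)).filter (fun w => Nat.log 2 w = j)).card : ℝ) *
              (1 / 2 ^ j) := by rw [sum_const, nsmul_eq_mul]
        _ ≤ (K * 2 ^ (j + 1) / (1 + Real.log ((2 : ℝ) ^ (j + 1))) ^ A) * (1 / 2 ^ j) :=
            mul_le_mul_of_nonneg_right (hcard.trans hWj) (by positivity)
        _ ≤ (K * 2 ^ (j + 1) / (1 + Real.log Y) ^ A) * (1 / 2 ^ j) := by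
            apply mul_le_mul_of_nonneg_right _ (by positivity)
            apply div_le_div_of_nonneg_left (by positivity) (by positivity)
            exact pow_le_pow_left₀ (by linarith) (by linarith) A
        _ = 2 * K / (1 + Real.log Y) ^ A := by
            field_simp
            ring
  refine (sum_le_sum key).trans (le_of_eq ?_)
  rw [sum_const, card_range, nsmul_eq_mul]
  push_cast
  ring

/-- **Functions with the expected frequency keep sets with a saving of every power of the logarithm.** -/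
theorem Spread.keeps {F : ℕ → Set ℕ} (hF : Spread F) : Keeps F := by
  intro W hW A
  obtain ⟨c, C, hc, h⟩ := hF A
  obtain ⟨A', hA'⟩ := exists_nat_ge (((A + C + 1 : ℕ) : ℝ) / c)
  obtain ⟨K, hK⟩ := hW A'
  have hK' : ∀ X : ℕ, 1 ≤ X → (((range (X + 1)).filter (fun w => w ∈ W)).card : ℝ) ≤
      |K| * X / (1 + Real.log X) ^ A' := by
    intro X hX
    have hX1 : (1 : ℝ) ≤ X := by exact_mod_cast hX
    have := Real.log_nonneg hX1
    refine (hK X hX).trans ?_
    apply div_le_div_of_nonneg_right _ (by positivity)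
    exact mul_le_mul_of_nonneg_right (le_abs_self _) (by linarith)
  obtain ⟨K₄, hK₄, habs⟩ := absorb A (b := 1) (c := 1) one_pos one_pos
  refine ⟨K₄ + C + C * (2 * |K| * (2 * C + 1)), fun N hN => ?_⟩
  have hN1 : (1 : ℝ) ≤ N := by exact_mod_cast hN
  have hN0 : (0 : ℝ) < N := by linarith
  obtain ⟨L, hL⟩ : ∃ L, L = Real.log N := ⟨_, rfl⟩
  have hL0 : 0 ≤ L := by rw [hL]; exact Real.log_nonneg hN1
  obtain ⟨B, hB1, hB2, hB3⟩ := h N hN
  rw [← hL] at hB1 hB2 hB3 ⊢
  obtain ⟨Y, hY⟩ : ∃ Y, Y = Real.exp ((1 + L) ^ c) := ⟨_, rfl⟩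
  have hY1 : 1 ≤ Y := by rw [hY]; exact Real.one_le_exp (by positivity)
  rw [← hY] at hB2
  obtain ⟨V, hV⟩ : ∃ V, V = (Icc 1 (N ^ C)).filter (fun w => w ∈ W ∧ Y ≤ w) := ⟨_, rfl⟩
  obtain ⟨T, hT⟩ : ∃ T : ℕ → Finset ℕ, T = fun w : ℕ => (Icc (1 : ℕ) N).filter (fun m : ℕ => m ∉ B ∧ w ∈ F m) :=
    ⟨_, rfl⟩
  have hsub : (range (N + 1)).filter (fun v => v ∈ pre F W) ⊆ insert 0 (B ∪ V.biUnion T) := by
    intro m hm
    rw [mem_filter, mem_range] at hm
    obtain ⟨hmN, w, hw, hwW⟩ := hm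
    rw [mem_insert, mem_union, mem_biUnion]
    rcases Nat.eq_zero_or_pos m with h0 | h0
    · exact Or.inl h0
    · right
      by_cases hmB : m ∈ B
      · exact Or.inl hmB
      · right
        obtain ⟨h1, h2⟩ := hB2 m h0 (by omega) hmB w hw
        refine ⟨w, ?_, ?_⟩
        · rw [hV, mem_filter, mem_Icc]
          refine ⟨⟨?_, h2⟩, hwW, h1⟩
          have : (0 : ℝ) < w := by linarith
          exact_mod_cast this
        · rw [hT, mem_filter, mem_Icc]
          exact ⟨⟨h0, by omega⟩, hmB, hw⟩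
  have hPA : 0 < (1 + L) ^ A := by positivity
  have h1X : 1 ≤ K₄ * N / (1 + L) ^ A := by
    have h2 := habs L hL0
    rw [Real.rpow_one, one_mul, hL, Real.exp_log hN0, ← hL] at h2
    rw [le_div_iff₀ hPA, one_mul]
    exact h2
  have hTc : ∀ w ∈ V, ((T w).card : ℝ) ≤ C * N * (1 + L) ^ C * (1 / w) := by
    intro w hw
    rw [hV, mem_filter, mem_Icc] at hw
    have := hB3 w hw.1.1 (T w) (fun m hm => by
      rw [hT, mem_filter, mem_Icc] at hm
      exact ⟨hm.1.1, hm.1.2, hm.2.1, hm.2.2⟩)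
    calc _ ≤ _ := this
      _ = _ := by ring
  have hlog2 : (Nat.log 2 (N ^ C) : ℝ) + 1 ≤ (2 * C + 1) * (1 + L) := by
    have h2 := Nat.pow_log_le_self 2 (pow_ne_zero C (by omega : N ≠ 0))
    have h3 : ((2 : ℝ)) ^ (Nat.log 2 (N ^ C)) ≤ (N : ℝ) ^ C := by exact_mod_cast h2
    have h4 := Real.log_le_log (by positivity) h3
    rw [Real.log_pow, Real.log_pow, ← hL] at h4
    have h5 := Real.log_two_gt_d9
    have h6 : (0 : ℝ) ≤ (Nat.log 2 (N ^ C) : ℝ) := Nat.cast_nonneg _
    have h7 : (0 : ℝ) ≤ (C : ℝ) := Nat.cast_nonneg _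
    have h8 : (Nat.log 2 (N ^ C) : ℝ) * (1 / 2) ≤ C * L :=
      (mul_le_mul_of_nonneg_left (by linarith) h6).trans h4
    nlinarith
  have hpow : (1 + L) ^ (A + C + 1) ≤ (1 + Real.log Y) ^ A' := by
    rw [hY, Real.log_exp]
    have h1 : (1 + L) ^ (A + C + 1) ≤ ((1 + L) ^ c) ^ A' := by
      rw [← Real.rpow_natCast, ← Real.rpow_natCast, ← Real.rpow_mul (by linarith)]
      apply Real.rpow_le_rpow_of_exponent_le (by linarith)
      rw [div_le_iff₀ hc] at hA'
      linarith
    refine h1.trans ?_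
    apply pow_le_pow_left₀ (by positivity)
    linarith
  have hsum : ∑ w ∈ V, ((T w).card : ℝ) ≤ C * (2 * |K| * (2 * C + 1)) * N / (1 + L) ^ A := by
    have h1 := sum_inv_log (abs_nonneg K) W hK' hY1 (N ^ C)
    rw [← hV] at h1
    calc ∑ w ∈ V, ((T w).card : ℝ) ≤ ∑ w ∈ V, C * N * (1 + L) ^ C * (1 / w) := sum_le_sum hTc
      _ = C * N * (1 + L) ^ C * ∑ w ∈ V, (1 : ℝ) / w := by rw [← mul_sum]
      _ ≤ C * N * (1 + L) ^ C * (2 * |K| * (Nat.log 2 (N ^ C) + 1) / (1 + Real.log Y) ^ A') :=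
          mul_le_mul_of_nonneg_left h1 (by positivity)
      _ ≤ C * N * (1 + L) ^ C * (2 * |K| * ((2 * C + 1) * (1 + L)) / (1 + L) ^ (A + C + 1)) := by
          apply mul_le_mul_of_nonneg_left _ (by positivity)
          have e1 : 2 * |K| * ((Nat.log 2 (N ^ C) : ℝ) + 1) ≤ 2 * |K| * ((2 * C + 1) * (1 + L)) :=
            mul_le_mul_of_nonneg_left hlog2 (by positivity)
          exact div_le_div₀ (by positivity) e1 (by positivity) hpow
      _ = C * (2 * |K| * (2 * C + 1)) * N / (1 + L) ^ A := by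
          rw [pow_add, pow_add, pow_one]
          field_simp
  have hcard : (((range (N + 1)).filter (fun v => v ∈ pre F W)).card : ℝ) ≤
      1 + B.card + ∑ w ∈ V, ((T w).card : ℝ) := by
    have h2 := (card_le_card hsub).trans ((card_insert_le _ _).trans (Nat.add_le_add_right
      ((card_union_le _ _).trans (Nat.add_le_add_left card_biUnion_le _)) 1))
    have h3 : (((range (N + 1)).filter (fun v => v ∈ pre F W)).card : ℝ) ≤
      B.card + ∑ w ∈ V, ((T w).card : ℝ) + 1 := by exact_mod_cast h2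
    linarith
  calc _ ≤ _ := hcard
    _ ≤ K₄ * N / (1 + L) ^ A + C * N / (1 + L) ^ A + C * (2 * |K| * (2 * C + 1)) * N / (1 + L) ^ A := by
        linarith
    _ = _ := by ring

/-- values which are small and taken rarely: `w ≤ C m (1 + log m)^C` for `w ∈ F m`, and every `w` is in `F m` for at most
`C (1 + log N)^C` numbers `m ≤ N` -/
structure Few (F : ℕ → Set ℕ) (C : ℕ) : Prop where
  le : ∀ m : ℕ, 1 ≤ m → ∀ w ∈ F m, (w : ℝ) ≤ C * m * (1 + Real.log m) ^ C
  rare : ∀ N w : ℕ, 1 ≤ N → ∀ M : Finset ℕ, (∀ m ∈ M, 1 ≤ m ∧ m ≤ N ∧ w ∈ F m) →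
    (M.card : ℝ) ≤ C * (1 + Real.log N) ^ C

theorem Few.keeps {F : ℕ → Set ℕ} {C : ℕ} (hF : Few F C) : Keeps F := by
  intro W hW A
  obtain ⟨K, hK⟩ := hW (A + 2 * C)
  obtain ⟨K₄, hK₄, habs⟩ := absorb A (b := 1) (c := 1) one_pos one_pos
  obtain ⟨K₅, hK₅, habs5⟩ := absorb C (b := 1) (c := 1) one_pos one_pos
  refine ⟨K₄ + |K| * 2 * (C + 1) * C, fun N hN => ?_⟩
  have hN1 : (1 : ℝ) ≤ N := by exact_mod_cast hN
  have hN0 : (0 : ℝ) < N := by linarith
  obtain ⟨L, hL⟩ : ∃ L, L = Real.log N := ⟨_, rfl⟩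
  have hL0 : 0 ≤ L := by rw [hL]; exact Real.log_nonneg hN1
  have hPA : 0 < (1 + L) ^ A := by positivity
  have hPC : 1 ≤ (1 + L) ^ C := one_le_pow₀ (by linarith)
  have hC0 : (0 : ℝ) ≤ C := Nat.cast_nonneg _
  have h1X : 1 ≤ K₄ * N / (1 + L) ^ A := by
    have h2 := habs L hL0
    rw [Real.rpow_one, one_mul, hL, Real.exp_log hN0, ← hL] at h2
    rw [le_div_iff₀ hPA, one_mul]
    exact h2
  obtain ⟨X, hX⟩ : ∃ X : ℕ, X = ⌈(C + 1) * N * (1 + L) ^ C⌉₊ := ⟨_, rfl⟩
  have hbig : (1 : ℝ) ≤ (C + 1) * N * (1 + L) ^ C := by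
    have h1 : 1 ≤ ((C : ℝ) + 1) * N := one_le_mul_of_one_le_of_one_le (by linarith) hN1
    exact one_le_mul_of_one_le_of_one_le h1 hPC
  have hXle : (X : ℝ) ≤ 2 * (C + 1) * N * (1 + L) ^ C := by
    have := (Nat.ceil_lt_add_one (a := ((C : ℝ) + 1) * N * (1 + L) ^ C) (by linarith)).le
    rw [hX]
    linarith
  have hXge : (C + 1) * N * (1 + L) ^ C ≤ X := by rw [hX]; exact Nat.le_ceil _
  have hNX : (N : ℝ) ≤ X := by
    have h1 : (N : ℝ) * 1 ≤ ((C + 1) * N) * (1 + L) ^ C :=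
      mul_le_mul (by nlinarith) hPC (by norm_num) (by positivity)
    linarith
  have hX1 : 1 ≤ X := by
    have : (1 : ℝ) ≤ X := by linarith
    exact_mod_cast this
  obtain ⟨T, hT⟩ : ∃ T : ℕ → Finset ℕ, T = fun w : ℕ => (Icc (1 : ℕ) N).filter (fun m : ℕ => w ∈ F m) := ⟨_, rfl⟩
  have hsub : (range (N + 1)).filter (fun v => v ∈ pre F W) ⊆
      insert 0 (((range (X + 1)).filter (fun w => w ∈ W)).biUnion T) := by
    intro m hm
    rw [mem_filter, mem_range] at hm
    obtain ⟨hmN, w, hw, hwW⟩ := hm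
    rw [mem_insert, mem_biUnion]
    rcases Nat.eq_zero_or_pos m with h0 | h0
    · exact Or.inl h0
    · right
      have hm1 : (1 : ℝ) ≤ m := by exact_mod_cast h0
      have hmN' : (m : ℝ) ≤ N := by exact_mod_cast (by omega : m ≤ N)
      have hlm : 0 ≤ Real.log m := Real.log_nonneg hm1
      have hlm' : Real.log m ≤ L := by rw [hL]; exact Real.log_le_log (by linarith) hmN'
      refine ⟨w, ?_, ?_⟩
      · rw [mem_filter, mem_range]
        refine ⟨?_, hwW⟩
        have h1 := hF.le m h0 w hw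
        have h2 : (C : ℝ) * m * (1 + Real.log m) ^ C ≤ (C + 1) * N * (1 + L) ^ C := by
          apply mul_le_mul _ (pow_le_pow_left₀ (by linarith) (by linarith) C) (by positivity) (by positivity)
          exact mul_le_mul (by linarith) hmN' (by linarith) (by linarith)
        have h3 : (w : ℝ) ≤ X := by linarith
        have : w ≤ X := by exact_mod_cast h3
        omega
      · rw [hT, mem_filter, mem_Icc]
        exact ⟨⟨h0, by omega⟩, hw⟩
  have hTc : ∀ w : ℕ, ((T w).card : ℝ) ≤ C * (1 + L) ^ C := by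
    intro w
    rw [hL]
    exact hF.rare N w hN (T w) (fun m hm => by
      rw [hT, mem_filter, mem_Icc] at hm
      exact ⟨hm.1.1, hm.1.2, hm.2⟩)
  have hWc : (((range (X + 1)).filter (fun w => w ∈ W)).card : ℝ) ≤
      |K| * (2 * (C + 1) * N * (1 + L) ^ C) / (1 + L) ^ (A + 2 * C) := by
    have hl : L ≤ Real.log X := by rw [hL]; exact Real.log_le_log hN0 hNX
    have h2 : K * X ≤ |K| * (2 * (C + 1) * N * (1 + L) ^ C) :=
      (mul_le_mul_of_nonneg_right (le_abs_self _) (by positivity)).trans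
        (mul_le_mul_of_nonneg_left hXle (abs_nonneg _))
    calc _ ≤ K * X / (1 + Real.log X) ^ (A + 2 * C) := hK X hX1
      _ ≤ |K| * (2 * (C + 1) * N * (1 + L) ^ C) / (1 + Real.log X) ^ (A + 2 * C) :=
          div_le_div_of_nonneg_right h2 (by positivity)
      _ ≤ _ := by
          apply div_le_div_of_nonneg_left (by positivity) (by positivity)
          exact pow_le_pow_left₀ (by linarith) (by linarith) _
  have hcard : (((range (N + 1)).filter (fun v => v ∈ pre F W)).card : ℝ) ≤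
      1 + ∑ w ∈ (range (X + 1)).filter (fun w => w ∈ W), ((T w).card : ℝ) := by
    have h2 := (card_le_card hsub).trans ((card_insert_le _ _).trans (Nat.add_le_add_right card_biUnion_le 1))
    have h3 : (((range (N + 1)).filter (fun v => v ∈ pre F W)).card : ℝ) ≤
      ∑ w ∈ (range (X + 1)).filter (fun w => w ∈ W), ((T w).card : ℝ) + 1 := by exact_mod_cast h2
    linarith
  rw [← hL]
  calc _ ≤ _ := hcard
    _ ≤ 1 + ∑ w ∈ (range (X + 1)).filter (fun w => w ∈ W), C * (1 + L) ^ C := by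
        have := sum_le_sum (fun w (_ : w ∈ (range (X + 1)).filter (fun w => w ∈ W)) => hTc w)
        linarith
    _ = 1 + (((range (X + 1)).filter (fun w => w ∈ W)).card : ℝ) * (C * (1 + L) ^ C) := by
        rw [sum_const, nsmul_eq_mul]
    _ ≤ K₄ * N / (1 + L) ^ A +
          |K| * (2 * (C + 1) * N * (1 + L) ^ C) / (1 + L) ^ (A + 2 * C) * (C * (1 + L) ^ C) := by
        apply add_le_add h1X
        exact mul_le_mul_of_nonneg_right hWc (by positivity)
    _ = (K₄ + |K| * 2 * (C + 1) * C) * N / (1 + L) ^ A := by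
        have e : (1 + L) ^ (A + 2 * C) = (1 + L) ^ A * ((1 + L) ^ C * (1 + L) ^ C) := by
          rw [pow_add, two_mul, pow_add]
        have e0 : (1 + L) ^ C ≠ 0 := by positivity
        rw [e]
        field_simp

end Pool.Agent.Zk98.LD
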