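import Mathlib
import Pool.Agent.Zk98.LD

set_option autoImplicit false

/-! Exceptional sets with a saving of every power of the logarithm: divisors of almost all integers, orders modulo almost all
primes, chains. -/

namespace Pool.Agent.Zk98.LD

open Finset Classical
open Pool.Agent.N733.TG (Expanding)
open Pool.Agent.N375.AV (LogThin PD preimage_log logThin_mono near_log absorb)
open Pool.Agent.Zk73.OR (small_exps ne_zero_of_small order_pos dvd_of_order log_small)

/-- the divisors `w ≥ exp ((log m)^c)` of the positive integers within `(1 + log m)^R` of `m` -/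
def Divs (c : ℝ) (R m : ℕ) : Set ℕ :=
  {w | ∃ n : ℕ, 1 ≤ n ∧ |(n : ℝ) - m| ≤ (1 + Real.log m) ^ R ∧ Real.exp (Real.log m ^ c) ≤ w ∧ w ∣ n}

/-- if `p` is a prime, the orders modulo `p` of all integers `a` with `2 ≤ |a| ≤ p^c` -/
def Orders (c : ℝ) (p : ℕ) : Set ℕ :=
  {w | p.Prime ∧ ∃ a : ℤ, 2 ≤ |a| ∧ (|a| : ℝ) ≤ (p : ℝ) ^ c ∧ w = orderOf (a : ZMod p)}

/-- the integers `m ≤ N` within `ρ` of the multiples of `w` -/
lemma near_multiples' {w : ℕ} (hw : 1 ≤ w) {ρ : ℝ} (hρ : 1 ≤ ρ) {N : ℕ} (F : Finset ℕ)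
    (hF : ∀ m ∈ F, m ≤ N ∧ ∃ n : ℕ, 1 ≤ n ∧ w ∣ n ∧ |(n : ℝ) - m| ≤ ρ) :
    (F.card : ℝ) ≤ 3 * ρ * (N + ρ) / w := by
  obtain ⟨R, hR⟩ : ∃ R : ℕ, R = ⌊ρ⌋₊ := ⟨_, rfl⟩
  have hRle : (R : ℝ) ≤ ρ := by rw [hR]; exact Nat.floor_le (by linarith)
  have hw0 : (0 : ℝ) < w := by exact_mod_cast hw
  have hsub : F ⊆ (Icc 1 ⌊(N + ρ) / w⌋₊).biUnion (fun k => Icc (k * w - R) (k * w + R)) := by
    intro m hm
    obtain ⟨h2, n, hn, ⟨k, rfl⟩, h3⟩ := hF m hm
    have h2' : (m : ℝ) ≤ N := by exact_mod_cast h2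
    have h5 := abs_le.1 h3
    push_cast at h5
    rw [mem_biUnion]
    refine ⟨k, ?_, ?_⟩
    · rw [mem_Icc]
      constructor
      · rcases Nat.eq_zero_or_pos k with h | h
        · subst h
          omega
        · exact h
      · apply Nat.le_floor
        rw [le_div_iff₀ hw0]
        nlinarith [h5.2]
    · rw [mem_Icc]
      constructor
      · have : ((k * w : ℕ) : ℝ) - m ≤ ρ := by push_cast; nlinarith [h5.2]
        have h6 : k * w - m ≤ R := by
          rw [hR]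
          apply Nat.le_floor
          rcases le_total m (k * w) with h | h
          · rw [Nat.cast_sub h]
            exact this
          · rw [Nat.sub_eq_zero_of_le h, Nat.cast_zero]
            linarith
        omega
      · have : (m : ℝ) - ((k * w : ℕ) : ℝ) ≤ ρ := by push_cast; nlinarith [h5.1]
        have h6 : m - k * w ≤ R := by
          rw [hR]
          apply Nat.le_floor
          rcases le_total (k * w) m with h | h
          · rw [Nat.cast_sub h]
            exact this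
          · rw [Nat.sub_eq_zero_of_le h, Nat.cast_zero]
            linarith
        omega
  have h1 : F.card ≤ ∑ k ∈ Icc 1 ⌊(N + ρ) / w⌋₊, (2 * R + 1) := by
    refine (card_le_card hsub).trans (card_biUnion_le.trans (sum_le_sum fun k _ => ?_))
    rw [Nat.card_Icc]
    omega
  rw [sum_const, Nat.card_Icc, Nat.add_sub_cancel, smul_eq_mul] at h1
  have h2 : (F.card : ℝ) ≤ (⌊(N + ρ) / w⌋₊ : ℝ) * (2 * R + 1) := by exact_mod_cast h1
  have h3 : (⌊(N + ρ) / w⌋₊ : ℝ) ≤ (N + ρ) / w := Nat.floor_le (by positivity)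
  calc (F.card : ℝ) ≤ (⌊(N + ρ) / w⌋₊ : ℝ) * (2 * R + 1) := h2
    _ ≤ ((N + ρ) / w) * (3 * ρ) := by
        apply mul_le_mul h3 (by linarith) (by positivity) (by positivity)
    _ = 3 * ρ * (N + ρ) / w := by ring

/-- the number of `m` with `m * m ≤ N` -/
lemma card_small (N : ℕ) : ((((Icc 1 N).filter (fun m => m * m ≤ N)).card : ℕ) : ℝ) ≤ √N := by
  have h1 : (Icc 1 N).filter (fun m => m * m ≤ N) ⊆ Icc 1 (Nat.sqrt N) := by
    intro m hm
    rw [mem_filter, mem_Icc] at hm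
    rw [mem_Icc]
    exact ⟨hm.1.1, Nat.le_sqrt.2 hm.2⟩
  have h2 := card_le_card h1
  rw [Nat.card_Icc, Nat.add_sub_cancel] at h2
  calc ((((Icc 1 N).filter (fun m => m * m ≤ N)).card : ℕ) : ℝ) ≤ (Nat.sqrt N : ℝ) := by exact_mod_cast h2
    _ ≤ √N := Real.nat_sqrt_le_real_sqrt

/-- small `N` -/
lemma small_N {L₀ : ℝ} (U : ℕ) {N : ℕ} (hN : 1 ≤ N) (h : Real.log N < L₀) :
    ((Icc 1 N).card : ℝ) ≤ (1 + L₀) ^ U * N / (1 + Real.log N) ^ U := by
  have hN1 : (1 : ℝ) ≤ N := by exact_mod_cast hN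
  have hl := Real.log_nonneg hN1
  rw [Nat.card_Icc, Nat.add_sub_cancel, le_div_iff₀ (by positivity), mul_comm]
  exact mul_le_mul_of_nonneg_right (pow_le_pow_left₀ (by linarith) (by linarith) U) (by linarith)

theorem divs_spread {c : ℝ} (hc : 0 < c) (R : ℕ) : Spread (Divs c R) := by
  intro U
  obtain ⟨K₄, hK₄, habs4⟩ := absorb U (b := 1) (c := 1 / 2) one_pos (by norm_num)
  obtain ⟨K₅, hK₅, habs5⟩ := absorb R (b := 1) (c := 1) one_pos one_pos
  obtain ⟨C, hC⟩ := exists_nat_ge ((1 + 5 : ℝ) ^ U + K₄ + 3 * (1 + K₅) + R + 1)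
  have h6 : (0 : ℝ) < (1 + 5 : ℝ) ^ U := by positivity
  have hR0 : (0 : ℝ) ≤ R := Nat.cast_nonneg _
  refine ⟨c / 2, C, by linarith, fun N hN => ?_⟩
  have hN1 : (1 : ℝ) ≤ N := by exact_mod_cast hN
  have hN0 : (0 : ℝ) < N := by linarith
  obtain ⟨L, hL⟩ : ∃ L, L = Real.log N := ⟨_, rfl⟩
  have hL0 : 0 ≤ L := by rw [hL]; exact Real.log_nonneg hN1
  have hPU : 0 < (1 + L) ^ U := by positivity
  by_cases hc5 : L < 5
  · refine ⟨Icc 1 N, ?_, fun m h1 h2 h3 => (h3 (mem_Icc.2 ⟨h1, h2⟩)).elim, ?_⟩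
    · refine (small_N (L₀ := 5) U hN (by rw [← hL]; exact hc5)).trans ?_
      rw [← hL]
      apply div_le_div_of_nonneg_right _ hPU.le
      exact mul_le_mul_of_nonneg_right (by linarith) hN0.le
    · intro w hw M hM
      have : M = ∅ := by
        rw [Finset.eq_empty_iff_forall_notMem]
        intro m hm
        obtain ⟨a1, a2, a3, -⟩ := hM m hm
        exact a3 (mem_Icc.2 ⟨a1, a2⟩)
      rw [this, card_empty, Nat.cast_zero]
      have := Real.log_nonneg hN1
      positivity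
  have hL5 : 5 ≤ L := not_lt.1 hc5
  obtain ⟨ρ, hρ⟩ : ∃ ρ : ℝ, ρ = (1 + L) ^ R := ⟨_, rfl⟩
  have hρ1 : 1 ≤ ρ := by rw [hρ]; exact one_le_pow₀ (by linarith)
  have hρN : ρ ≤ K₅ * N := by
    have h2 := habs5 L hL0
    rw [Real.rpow_one, one_mul, hL, Real.exp_log hN0, ← hL] at h2
    rw [hρ]
    exact h2
  refine ⟨(Icc 1 N).filter (fun m => m * m ≤ N), ?_, ?_, ?_⟩
  · refine (card_small N).trans ?_
    rw [← hL, le_div_iff₀ hPU]
    have h1 := habs4 L hL0
    rw [Real.rpow_one] at h1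
    have h2 : Real.exp (1 / 2 * L) = √N := by
      have : 1 / 2 * L = Real.log √N := by
        rw [Real.log_sqrt hN0.le, hL]
        ring
      rw [this, Real.exp_log (Real.sqrt_pos.2 hN0)]
    rw [h2] at h1
    calc √(N : ℝ) * (1 + L) ^ U ≤ √N * (K₄ * √N) := mul_le_mul_of_nonneg_left h1 (Real.sqrt_nonneg _)
      _ = K₄ * (√N * √N) := by ring
      _ = K₄ * N := by rw [Real.mul_self_sqrt hN0.le]
      _ ≤ C * N := mul_le_mul_of_nonneg_right (by linarith) hN0.le
  · intro m hm1 hmN hmB w hw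
    obtain ⟨n, hn1, hnm, hwm, hwn⟩ := hw
    have hm1' : (1 : ℝ) ≤ m := by exact_mod_cast hm1
    have hmN' : (m : ℝ) ≤ N := by exact_mod_cast hmN
    have hmm : (N : ℝ) < m * m := by
      by_contra hcon
      apply hmB
      rw [mem_filter, mem_Icc]
      refine ⟨⟨hm1, hmN⟩, ?_⟩
      have := not_lt.1 hcon
      exact_mod_cast this
    have hlm : L / 2 ≤ Real.log m := by
      have h1 := Real.log_le_log hN0 hmm.le
      rw [Real.log_mul (by positivity) (by positivity), ← hL] at h1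
      linarith
    have hlm0 : 0 ≤ Real.log m := by linarith
    have hlm' : Real.log m ≤ L := by rw [hL]; exact Real.log_le_log (by linarith) hmN'
    constructor
    · rw [← hL]
      refine le_trans (Real.exp_le_exp.2 ?_) hwm
      have h1 : 1 + L ≤ (L / 2) ^ 2 := by nlinarith
      calc (1 + L) ^ (c / 2) ≤ ((L / 2) ^ 2) ^ (c / 2) :=
            Real.rpow_le_rpow (by linarith) h1 (by linarith)
        _ = (L / 2) ^ c := by
            rw [← Real.rpow_natCast, ← Real.rpow_mul (by linarith)]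
            congr 1
            push_cast
            ring
        _ ≤ Real.log m ^ c := Real.rpow_le_rpow (by linarith) hlm hc.le
    · have hwn' : (w : ℝ) ≤ n := by exact_mod_cast Nat.le_of_dvd hn1 hwn
      have h1 : (1 + Real.log m) ^ R ≤ ρ := by
        rw [hρ]
        exact pow_le_pow_left₀ (by linarith) (by linarith) R
      have h2 := (abs_le.1 hnm).2
      have h3 : (w : ℝ) ≤ (1 + K₅) * N := by linarith
      have hC1 : 1 + K₅ ≤ ((C - 1 : ℕ) : ℝ) := by
        have : 1 ≤ C := by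
          have : (1 : ℝ) ≤ C := by linarith
          exact_mod_cast this
        rw [Nat.cast_sub this]
        push_cast
        linarith
      have h4 : ((C - 1 : ℕ) : ℝ) ≤ (N : ℝ) ^ (C - 1) := by
        have h5 : (2 : ℝ) ≤ N := by
          have h7 := Real.add_one_le_exp L
          rw [hL, Real.exp_log hN0, ← hL] at h7
          linarith
        calc ((C - 1 : ℕ) : ℝ) ≤ (2 : ℝ) ^ (C - 1) := by
              have := (Nat.lt_two_pow_self (n := C - 1)).le
              exact_mod_cast this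
          _ ≤ (N : ℝ) ^ (C - 1) := pow_le_pow_left₀ (by norm_num) h5 _
      have h5 : (w : ℝ) ≤ (N : ℝ) ^ C := by
        have hCpos : C - 1 + 1 = C := by
          have : (1 : ℝ) ≤ C := by linarith
          have : 1 ≤ C := by exact_mod_cast this
          omega
        calc (w : ℝ) ≤ (1 + K₅) * N := h3
          _ ≤ (N : ℝ) ^ (C - 1) * N := mul_le_mul_of_nonneg_right (hC1.trans h4) hN0.le
          _ = (N : ℝ) ^ C := by rw [← pow_succ, hCpos]
      exact_mod_cast h5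
  · intro w hw M hM
    have h1 := near_multiples' hw hρ1 (N := N) M (fun m hm => by
      obtain ⟨a1, a2, -, n, a4, a5, -, a6⟩ := hM m hm
      have hm1' : (1 : ℝ) ≤ m := by exact_mod_cast a1
      have hmN' : (m : ℝ) ≤ N := by exact_mod_cast a2
      have hlm0 : 0 ≤ Real.log m := Real.log_nonneg hm1'
      have hlm' : Real.log m ≤ L := by rw [hL]; exact Real.log_le_log (by linarith) hmN'
      refine ⟨a2, n, a4, a6, a5.trans ?_⟩
      rw [hρ]
      exact pow_le_pow_left₀ (by linarith) (by linarith) R)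
    refine h1.trans ?_
    rw [← hL]
    apply div_le_div_of_nonneg_right _ (Nat.cast_nonneg _)
    have hRC : R ≤ C := by
      have : (R : ℝ) ≤ C := by linarith
      exact_mod_cast this
    have h2 : ρ ≤ (1 + L) ^ C := by
      rw [hρ]
      exact pow_le_pow_right₀ (by linarith) hRC
    calc 3 * ρ * (N + ρ) ≤ 3 * ρ * ((1 + K₅) * N) := mul_le_mul_of_nonneg_left (by linarith) (by linarith)
      _ = 3 * (1 + K₅) * N * ρ := by ring
      _ ≤ C * N * (1 + L) ^ C := by
          apply mul_le_mul _ h2 (by linarith) (by positivity)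
          exact mul_le_mul_of_nonneg_right (by linarith) hN0.le

theorem orders_spread {c : ℝ} (hc0 : 0 ≤ c) (hc : c < 1) : Spread (Orders c) := by
  intro U
  obtain ⟨δ, hδ⟩ : ∃ δ : ℝ, δ = (1 - c) / 4 := ⟨_, rfl⟩
  have hδ0 : 0 < δ := by rw [hδ]; linarith
  obtain ⟨CL, hCL0, hCL⟩ := log_small hδ0
  obtain ⟨K₄, hK₄, habs4⟩ := absorb U (b := 1) (c := δ) one_pos hδ0
  obtain ⟨L₀, hL₀⟩ : ∃ L₀ : ℝ, L₀ = 1 / δ ^ 2 + 1 := ⟨_, rfl⟩
  have hL₀0 : 0 ≤ L₀ := by rw [hL₀]; positivity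
  obtain ⟨C, hC⟩ := exists_nat_ge ((1 + L₀) ^ U + 6 * CL * K₄ + 6)
  have h6 : (0 : ℝ) < (1 + L₀) ^ U := by positivity
  have h7 : 0 ≤ 6 * CL * K₄ := by positivity
  refine ⟨1 / 2, C, by norm_num, fun N hN => ?_⟩
  have hN1 : (1 : ℝ) ≤ N := by exact_mod_cast hN
  have hN0 : (0 : ℝ) < N := by linarith
  obtain ⟨L, hL⟩ : ∃ L, L = Real.log N := ⟨_, rfl⟩
  have hL0 : 0 ≤ L := by rw [hL]; exact Real.log_nonneg hN1
  have hPU : 0 < (1 + L) ^ U := by positivity
  by_cases hc5 : L < L₀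
  · refine ⟨Icc 1 N, ?_, fun m h1 h2 h3 => (h3 (mem_Icc.2 ⟨h1, h2⟩)).elim, ?_⟩
    · refine (small_N U hN (by rw [← hL]; exact hc5)).trans ?_
      rw [← hL]
      apply div_le_div_of_nonneg_right _ hPU.le
      exact mul_le_mul_of_nonneg_right (by linarith) hN0.le
    · intro w hw M hM
      have : M = ∅ := by
        rw [Finset.eq_empty_iff_forall_notMem]
        intro m hm
        obtain ⟨a1, a2, a3, -⟩ := hM m hm
        exact a3 (mem_Icc.2 ⟨a1, a2⟩)
      rw [this, card_empty, Nat.cast_zero]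
      have := Real.log_nonneg hN1
      positivity
  have hLL : L₀ ≤ L := not_lt.1 hc5
  have hNd : Real.exp (δ * L) = (N : ℝ) ^ δ := by
    rw [Real.rpow_def_of_pos hN0, hL, mul_comm]
  obtain ⟨A, hA⟩ : ∃ A : ℕ, A = ⌊(N : ℝ) ^ c⌋₊ := ⟨_, rfl⟩
  obtain ⟨K, hK⟩ : ∃ K : ℕ, K = ⌊(N : ℝ) ^ δ⌋₊ := ⟨_, rfl⟩
  have hNc : 1 ≤ (N : ℝ) ^ c := Real.one_le_rpow hN1 hc0
  have hNδ : 1 ≤ (N : ℝ) ^ δ := Real.one_le_rpow hN1 hδ0.le
  have hAle : (A : ℝ) ≤ (N : ℝ) ^ c := by rw [hA]; exact Nat.floor_le (by linarith)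
  have hKle : (K : ℝ) ≤ (N : ℝ) ^ δ := by rw [hK]; exact Nat.floor_le (by linarith)
  obtain ⟨B, hB⟩ : ∃ B : Finset ℕ, B = (Icc (1 : ℕ) N).filter (fun p : ℕ => p.Prime ∧ ∃ a : ℤ, 2 ≤ |a| ∧
    |a| ≤ (A : ℤ) ∧ ∃ k : ℕ, 1 ≤ k ∧ k ≤ K ∧ (p : ℤ) ∣ a ^ k - 1) := ⟨_, rfl⟩
  have hBc := small_exps B (fun p hp => by
    rw [hB, mem_filter] at hp
    exact hp.2)
  have hB3 : (B.card : ℝ) ≤ 6 * CL * (N : ℝ) ^ (1 - δ) := by
    have e0 : Nat.log 2 A ≤ Nat.log 2 N := by
      apply Nat.log_mono_right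
      have : (A : ℝ) ≤ N := by
        calc (A : ℝ) ≤ (N : ℝ) ^ c := hAle
          _ ≤ (N : ℝ) ^ (1 : ℝ) := Real.rpow_le_rpow_of_exponent_le hN1 hc.le
          _ = N := Real.rpow_one _
      exact_mod_cast this
    have e1 : (B.card : ℝ) ≤ (2 * A + 1) * K * (1 + K * (Nat.log 2 N + 1)) := by
      have e2 : B.card ≤ (2 * A + 1) * K * (1 + K * (Nat.log 2 N + 1)) := by
        refine hBc.trans ?_
        gcongr
      exact_mod_cast e2
    have e3 := hCL N hN
    have e4 : (1 : ℝ) ≤ Nat.log 2 N + 1 := by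
      have : (0 : ℝ) ≤ Nat.log 2 N := Nat.cast_nonneg _
      linarith
    have e5 : (1 : ℝ) + K * (Nat.log 2 N + 1) ≤ 2 * (N : ℝ) ^ δ * (CL * (N : ℝ) ^ δ) := by
      have a1 : (1 : ℝ) ≤ (N : ℝ) ^ δ * (Nat.log 2 N + 1) := one_le_mul_of_one_le_of_one_le hNδ e4
      have a2 : (K : ℝ) * (Nat.log 2 N + 1) ≤ (N : ℝ) ^ δ * (Nat.log 2 N + 1) :=
        mul_le_mul_of_nonneg_right hKle (by linarith)
      have a3 : (N : ℝ) ^ δ * (Nat.log 2 N + 1) ≤ (N : ℝ) ^ δ * (CL * (N : ℝ) ^ δ) :=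
        mul_le_mul_of_nonneg_left e3 (by linarith)
      linarith
    calc (B.card : ℝ) ≤ (2 * A + 1) * K * (1 + K * (Nat.log 2 N + 1)) := e1
      _ ≤ (3 * (N : ℝ) ^ c) * (N : ℝ) ^ δ * (2 * (N : ℝ) ^ δ * (CL * (N : ℝ) ^ δ)) := by
          apply mul_le_mul _ e5 (by positivity) (by positivity)
          apply mul_le_mul (by linarith) hKle (by positivity) (by positivity)
      _ = 6 * CL * ((N : ℝ) ^ c * (N : ℝ) ^ δ * (N : ℝ) ^ δ * (N : ℝ) ^ δ) := by ring
      _ = 6 * CL * (N : ℝ) ^ (1 - δ) := by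
          rw [← Real.rpow_add hN0, ← Real.rpow_add hN0, ← Real.rpow_add hN0]
          congr 2
          rw [hδ]
          ring
  refine ⟨B, ?_, ?_, ?_⟩
  · rw [← hL, le_div_iff₀ hPU]
    have h1 := habs4 L hL0
    rw [Real.rpow_one, hNd] at h1
    calc (B.card : ℝ) * (1 + L) ^ U ≤ (6 * CL * (N : ℝ) ^ (1 - δ)) * (K₄ * (N : ℝ) ^ δ) :=
          mul_le_mul hB3 h1 hPU.le (by positivity)
      _ = 6 * CL * K₄ * ((N : ℝ) ^ (1 - δ) * (N : ℝ) ^ δ) := by ring
      _ = 6 * CL * K₄ * N := by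
          rw [← Real.rpow_add hN0, sub_add_cancel, Real.rpow_one]
      _ ≤ C * N := mul_le_mul_of_nonneg_right (by linarith) hN0.le
  · intro p hp1 hpN hpB w hw
    obtain ⟨hp, a, ha, hac, rfl⟩ := hw
    have := Fact.mk hp
    have ha0 := ne_zero_of_small hp ha hc hac
    have hpos := order_pos hp ha0
    have hpN' : (p : ℝ) ≤ N := by exact_mod_cast hpN
    constructor
    · by_contra hcon
      apply hpB
      rw [hB, mem_filter, mem_Icc]
      refine ⟨⟨hp.pos, hpN⟩, hp, a, ha, ?_, orderOf (a : ZMod p), hpos, ?_, (dvd_of_order p a _).2 dvd_rfl⟩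
      · have e1 : ((a.natAbs : ℕ) : ℝ) ≤ (N : ℝ) ^ c := by
          have : ((a.natAbs : ℕ) : ℝ) = (|a| : ℝ) := by
            rw [Nat.cast_natAbs, Int.cast_abs]
          rw [this]
          exact hac.trans (Real.rpow_le_rpow (Nat.cast_nonneg _) hpN' hc0)
        have e2 : a.natAbs ≤ A := by
          rw [hA]
          exact Nat.le_floor e1
        rw [Int.abs_eq_natAbs]
        exact_mod_cast e2
      · rw [hK]
        apply Nat.le_floor
        refine (not_le.1 hcon).le.trans ?_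
        rw [← hNd, ← hL]
        apply Real.exp_le_exp.2
        rw [← Real.sqrt_eq_rpow]
        apply Real.sqrt_le_iff.2
        refine ⟨by positivity, ?_⟩
        have e3 : 1 ≤ δ ^ 2 * (L - 1) := by
          have e4 : 1 / δ ^ 2 ≤ L - 1 := by linarith
          rw [div_le_iff₀ (by positivity)] at e4
          linarith
        have e5 : 1 ≤ L := by
          have : 0 < 1 / δ ^ 2 := by positivity
          linarith
        have e6 : 1 / δ ^ 2 ≤ L := by linarith
        rw [div_le_iff₀ (by positivity)] at e6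
        nlinarith [sq_nonneg δ]
    · have h1 := Nat.le_of_dvd (by have := hp.two_le; omega) (ZMod.orderOf_dvd_card_sub_one ha0)
      have h2 : orderOf (a : ZMod p) ≤ N := by omega
      have hC1 : 1 ≤ C := by
        have : (1 : ℝ) ≤ C := by linarith
        exact_mod_cast this
      exact h2.trans (Nat.le_self_pow (by omega) N)
  · intro w hw M hM
    have h1 := near_multiples' hw (le_refl (1 : ℝ)) (N := N) M (fun p hp => by
      obtain ⟨-, a2, -, a3, a, a4, a5, a6⟩ := hM p hp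
      have := Fact.mk a3
      have ha0 := ne_zero_of_small a3 a4 hc a5
      refine ⟨a2, p - 1, by have := a3.two_le; omega, ?_, ?_⟩
      · rw [a6]
        exact ZMod.orderOf_dvd_card_sub_one ha0
      · rw [Nat.cast_sub a3.one_le]
        simp)
    refine h1.trans ?_
    rw [← hL]
    apply div_le_div_of_nonneg_right _ (Nat.cast_nonneg _)
    have h2 : 1 ≤ (1 + L) ^ C := one_le_pow₀ (by linarith)
    calc 3 * 1 * ((N : ℝ) + 1) ≤ 6 * N * 1 := by linarith
      _ ≤ C * N * (1 + L) ^ C := by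
          apply mul_le_mul _ h2 (by norm_num) (by positivity)
          exact mul_le_mul_of_nonneg_right (by linarith) hN0.le

theorem keeps_comp {F G : ℕ → Set ℕ} (hF : Keeps F) (hG : Keeps G) :
    Keeps (fun m => {w | ∃ v ∈ G m, w ∈ F v}) := by
  intro W hW
  refine logThin_mono ?_ (hG _ (hF W hW))
  rintro m ⟨w, ⟨v, hv, hw⟩, hwW⟩
  exact ⟨v, hv, w, hw, hwW⟩

theorem keeps_union {F G : ℕ → Set ℕ} (hF : Keeps F) (hG : Keeps G) : Keeps (fun m => F m ∪ G m) := by
  intro W hW A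
  obtain ⟨K₁, h1⟩ := hF W hW A
  obtain ⟨K₂, h2⟩ := hG W hW A
  refine ⟨K₁ + K₂, fun X hX => ?_⟩
  have hsub : (range (X + 1)).filter (fun v => v ∈ pre (fun m => F m ∪ G m) W) ⊆
      (range (X + 1)).filter (fun v => v ∈ pre F W) ∪ (range (X + 1)).filter (fun v => v ∈ pre G W) := by
    intro v hv
    rw [mem_filter] at hv
    obtain ⟨hv1, w, hw | hw, hwW⟩ := hv
    · exact mem_union_left _ (mem_filter.2 ⟨hv1, w, hw, hwW⟩)
    · exact mem_union_right _ (mem_filter.2 ⟨hv1, w, hw, hwW⟩)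
  have h3 := (card_le_card hsub).trans (card_union_le _ _)
  have h4 : (((range (X + 1)).filter (fun v => v ∈ pre (fun m => F m ∪ G m) W)).card : ℝ) ≤
      ((range (X + 1)).filter (fun v => v ∈ pre F W)).card +
        ((range (X + 1)).filter (fun v => v ∈ pre G W)).card := by exact_mod_cast h3
  calc _ ≤ _ := h4
    _ ≤ K₁ * X / (1 + Real.log X) ^ A + K₂ * X / (1 + Real.log X) ^ A := add_le_add (h1 X hX) (h2 X hX)
    _ = _ := by ring

/-- **Chains.** Set valued functions of `m` made of: the divisors `≥ exp ((log m)^c)`, `c > 0`, of the integers within a power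
of `log m` of `m`; the orders modulo `m`, if `m` is a prime, of all `a` with `2 ≤ |a| ≤ m^c`, `c < 1`; windows
`|n - G m| ≤ (1 + log m)^W` around the values of functions `G` with steps `≥ a > 0` and growth at most `m`; values of functions
dominated by the largest prime factor; small values taken rarely; and of their compositions and unions. -/
inductive Chain : (ℕ → Set ℕ) → Prop
  | divisors (c : ℝ) (R : ℕ) : 0 < c → Chain (Divs c R)
  | orders (c : ℝ) : 0 ≤ c → c < 1 → Chain (Orders c)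
  | window (G : ℕ → ℝ) (W : ℕ) : Expanding G 1 → Chain (fun m => {n | |(n : ℝ) - G m| ≤ (1 + Real.log m) ^ W})
  | value (f : ℕ → ℕ) : PD f → Chain (fun m => {f m})
  | few (F : ℕ → Set ℕ) (C : ℕ) : Few F C → Chain F
  | comp (F G : ℕ → Set ℕ) : Chain F → Chain G → Chain (fun m => {w | ∃ v ∈ G m, w ∈ F v})
  | union (F G : ℕ → Set ℕ) : Chain F → Chain G → Chain (fun m => F m ∪ G m)

theorem Chain.keeps {F : ℕ → Set ℕ} (hF : Chain F) : Keeps F := by
  induction hF with
  | divisors c R hc => exact (divs_spread hc R).keeps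
  | orders c hc0 hc => exact (orders_spread hc0 hc).keeps
  | window G W hG =>
    intro E hE
    refine logThin_mono ?_ (near_log hE hG W)
    rintro m ⟨n, hn, hnE⟩
    exact ⟨n, hnE, hn⟩
  | value f hf =>
    intro E hE
    refine logThin_mono ?_ (preimage_log hf hE)
    rintro m ⟨w, hw, hwE⟩
    rw [Set.mem_singleton_iff] at hw
    rw [hw] at hwE
    exact hwE
  | few F C hF => exact hF.keeps
  | comp F G _ _ ihF ihG => exact keeps_comp ihF ihG
  | union F G _ _ ihF ihG => exact keeps_union ihF ihG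

/-- **Main tool.** -/
theorem Chain.count {F : ℕ → Set ℕ} (hF : Chain F) {E : Set ℕ} (hE : LogThin E) (U : ℕ) :
    ∃ N₀ : ℕ, ∀ N : ℕ, N₀ ≤ N →
      ({m : ℕ | 1 ≤ m ∧ m ≤ N ∧ ∃ n ∈ F m, n ∈ E}.ncard : ℝ) ≤ N / Real.log N ^ U := by
  obtain ⟨K, hK⟩ := hF.keeps E hE (U + 1)
  obtain ⟨N₀, hN₀⟩ := exists_nat_ge (Real.exp (|K| + 1))
  refine ⟨N₀, fun N hN => ?_⟩
  have hN0' : Real.exp (|K| + 1) ≤ N := hN₀.trans (by exact_mod_cast hN)
  have hN0 : (0 : ℝ) < N := lt_of_lt_of_le (Real.exp_pos _) hN0'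
  have hN1 : 1 ≤ N := by exact_mod_cast hN0
  have hl : |K| + 1 ≤ Real.log N := by
    rw [Real.le_log_iff_exp_le hN0]
    exact hN0'
  have hK0 := abs_nonneg K
  have h2 := hK N hN1
  have h3 : {m : ℕ | 1 ≤ m ∧ m ≤ N ∧ ∃ n ∈ F m, n ∈ E} ⊆
      (((range (N + 1)).filter (fun v => v ∈ pre F E) : Finset ℕ) : Set ℕ) := by
    rintro m ⟨hm1, hmN, hm⟩
    rw [mem_coe, mem_filter, mem_range]
    exact ⟨by omega, hm⟩
  have h4 := Set.ncard_le_ncard h3 (finite_toSet _)
  rw [Set.ncard_coe_finset] at h4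
  have h5 : ({m : ℕ | 1 ≤ m ∧ m ≤ N ∧ ∃ n ∈ F m, n ∈ E}.ncard : ℝ) ≤ K * N / (1 + Real.log N) ^ (U + 1) :=
    le_trans (by exact_mod_cast h4) h2
  refine h5.trans ?_
  have h6 : K * N ≤ Real.log N * N := mul_le_mul_of_nonneg_right (by linarith [le_abs_self K]) hN0.le
  have hl0 : 0 < Real.log N := by linarith
  calc K * N / (1 + Real.log N) ^ (U + 1) ≤ Real.log N * N / (1 + Real.log N) ^ (U + 1) := by gcongr
    _ ≤ Real.log N * N / Real.log N ^ (U + 1) := by
        apply div_le_div_of_nonneg_left (by positivity) (by positivity)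
        exact pow_le_pow_left₀ hl0.le (by linarith) _
    _ = N / Real.log N ^ U := by
        rw [pow_succ]
        field_simp

end Pool.Agent.Zk98.LD
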