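import Mathlib
import Pool.Agent.Zk73.OR.B

set_option autoImplicit false

/-! Sets with a power saving: chains of divisors and of orders modulo primes, for tuples. -/

namespace Pool.Agent.Zk98.MD

open Finset Classical
open Pool.Agent.Zk73.OR (small_exps ne_zero_of_small order_pos dvd_of_order log_small sum_inv)

/-- Set valued functions `F` with values `w ≤ C m` which are at least `m ^ δ'` for all `m` but few, `δ' < δ`, and which hit
every `w` with at most the expected frequency. -/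
structure PSpread (δ : ℝ) (F : ℕ → Set ℕ) : Prop where
  pos : 0 < δ
  le : ∃ C : ℕ, ∀ m : ℕ, 1 ≤ m → ∀ w ∈ F m, 1 ≤ w ∧ w ≤ C * m
  freq : ∀ ε : ℝ, 0 < ε → ∃ C : ℝ, 0 ≤ C ∧ ∀ X w : ℕ, 1 ≤ X → 1 ≤ w →
    (((Icc 1 X).filter (fun m => w ∈ F m)).card : ℝ) ≤ C * (X : ℝ) ^ (1 + ε) / w
  low : ∀ δ' : ℝ, δ' < δ → ∃ C η : ℝ, 0 ≤ C ∧ 0 < η ∧ ∀ X : ℕ, 1 ≤ X →
    (((Icc 1 X).filter (fun m => ∃ w ∈ F m, (w : ℝ) < (m : ℝ) ^ δ')).card : ℝ) ≤ C * (X : ℝ) ^ (1 - η)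

/-- the divisors `w ≥ m ^ δ` of `m` -/
def Divs (δ : ℝ) (m : ℕ) : Set ℕ := {w | w ∣ m ∧ (m : ℝ) ^ δ ≤ w}

/-- if `p` is a prime, the orders modulo `p` of all integers `a` with `2 ≤ |a| ≤ p ^ c` -/
def Orders (c : ℝ) (p : ℕ) : Set ℕ :=
  {w | p.Prime ∧ ∃ a : ℤ, 2 ≤ |a| ∧ (|a| : ℝ) ≤ (p : ℝ) ^ c ∧ w = orderOf (a : ZMod p)}

/-- the positive integers within `(1 + log m) ^ R` of `m` -/
def Near (R m : ℕ) : Set ℕ := {w | 1 ≤ w ∧ |(w : ℝ) - m| ≤ (1 + Real.log m) ^ R}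

/-- the number of multiples of `w` up to `X` -/
lemma mult_card {X w : ℕ} (hw : 1 ≤ w) (S : Finset ℕ) (hS : ∀ m ∈ S, 1 ≤ m ∧ m ≤ X ∧ w ∣ m) :
    (S.card : ℝ) ≤ X / w := by
  have h1 : S ⊆ (Icc 1 (X / w)).image (fun k => w * k) := by
    intro m hm
    obtain ⟨h1, h2, k, rfl⟩ := hS m hm
    rw [mem_image]
    refine ⟨k, ?_, rfl⟩
    rw [mem_Icc]
    constructor
    · rcases Nat.eq_zero_or_pos k with h | h
      · subst h
        omega
      · exact h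
    · rw [Nat.le_div_iff_mul_le hw, mul_comm]
      exact h2
  have h2 := (card_le_card h1).trans card_image_le
  rw [Nat.card_Icc, Nat.add_sub_cancel] at h2
  calc (S.card : ℝ) ≤ ((X / w : ℕ) : ℝ) := by exact_mod_cast h2
    _ ≤ X / w := Nat.cast_div_le

lemma le_pow_eps {X : ℕ} (hX : 1 ≤ X) {ε : ℝ} (hε : 0 < ε) : (X : ℝ) ≤ (X : ℝ) ^ (1 + ε) := by
  have hX1 : (1 : ℝ) ≤ X := by exact_mod_cast hX
  calc (X : ℝ) = (X : ℝ) ^ (1 : ℝ) := (Real.rpow_one _).symm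
    _ ≤ _ := Real.rpow_le_rpow_of_exponent_le hX1 (by linarith)

theorem divs {δ : ℝ} (hδ : 0 < δ) : PSpread δ (Divs δ) where
  pos := hδ
  le := ⟨1, fun m hm w hw => ⟨Nat.pos_of_dvd_of_pos hw.1 hm, by
    rw [one_mul]
    exact Nat.le_of_dvd hm hw.1⟩⟩
  freq := fun ε hε => ⟨1, zero_le_one, fun X w hX hw => by
    have h1 := mult_card (X := X) hw ((Icc 1 X).filter (fun m => w ∈ Divs δ m)) (fun m hm => by
      rw [mem_filter, mem_Icc] at hm
      exact ⟨hm.1.1, hm.1.2, hm.2.1⟩)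
    refine h1.trans ?_
    rw [one_mul]
    exact div_le_div_of_nonneg_right (le_pow_eps hX hε) (Nat.cast_nonneg _)⟩
  low := fun δ' hδ' => ⟨0, 1, le_rfl, one_pos, fun X hX => by
    have h1 : (Icc 1 X).filter (fun m => ∃ w ∈ Divs δ m, (w : ℝ) < (m : ℝ) ^ δ') = ∅ := by
      rw [Finset.eq_empty_iff_forall_notMem]
      intro m hm
      rw [mem_filter, mem_Icc] at hm
      obtain ⟨⟨h1, h2⟩, w, ⟨-, h3⟩, h4⟩ := hm
      have hm1 : (1 : ℝ) ≤ m := by exact_mod_cast h1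
      have h5 : (m : ℝ) ^ δ' ≤ (m : ℝ) ^ δ := Real.rpow_le_rpow_of_exponent_le hm1 hδ'.le
      linarith
    rw [h1]
    simp⟩

theorem orders {c : ℝ} (hc0 : 0 ≤ c) (hc : c < 1) : PSpread ((1 - c) / 2) (Orders c) where
  pos := by linarith
  le := ⟨1, fun p hp1 w hw => by
    obtain ⟨hp, a, ha, hac, rfl⟩ := hw
    have := Fact.mk hp
    have ha0 := ne_zero_of_small hp ha hc hac
    refine ⟨order_pos hp ha0, ?_⟩
    have h1 := Nat.le_of_dvd (by have := hp.two_le; omega) (ZMod.orderOf_dvd_card_sub_one ha0)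
    omega⟩
  freq := fun ε hε => ⟨1, zero_le_one, fun X w hX hw => by
    have h1 : (((Icc 1 X).filter (fun m => w ∈ Orders c m)).card : ℝ) ≤ X / w := by
      have h2 := mult_card (X := X) hw (((Icc 1 X).filter (fun m => w ∈ Orders c m)).image (fun p => p - 1))
        (fun m hm => by
          rw [mem_image] at hm
          obtain ⟨p, hp, rfl⟩ := hm
          rw [mem_filter, mem_Icc] at hp
          obtain ⟨⟨h1, h2⟩, h3, a, h4, h5, h6⟩ := hp
          have := Fact.mk h3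
          have ha0 := ne_zero_of_small h3 h4 hc h5
          refine ⟨by have := h3.two_le; omega, by omega, ?_⟩
          rw [h6]
          exact ZMod.orderOf_dvd_card_sub_one ha0)
      rwa [card_image_of_injOn] at h2
      intro p hp q hq hpq
      rw [mem_coe, mem_filter, mem_Icc] at hp hq
      have h3 := hp.2.1.two_le
      have h4 := hq.2.1.two_le
      simp only at hpq
      omega
    refine h1.trans ?_
    rw [one_mul]
    exact div_le_div_of_nonneg_right (le_pow_eps hX hε) (Nat.cast_nonneg _)⟩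
  low := by
    intro δ' hδ'
    obtain ⟨δ, hδ⟩ : ∃ δ : ℝ, δ = max δ' 0 := ⟨_, rfl⟩
    have hδ0 : 0 ≤ δ := by rw [hδ]; exact le_max_right _ _
    have hδδ : δ' ≤ δ := by rw [hδ]; exact le_max_left _ _
    have hδ1 : δ < (1 - c) / 2 := by rw [hδ]; exact max_lt hδ' (by linarith)
    obtain ⟨η, hη⟩ : ∃ η : ℝ, η = (1 - c - 2 * δ) / 2 := ⟨_, rfl⟩
    have hη0 : 0 < η := by rw [hη]; linarith
    obtain ⟨CL, hCL0, hCL⟩ := log_small hη0
    refine ⟨6 * (CL + 1), η, by positivity, hη0, fun N hN => ?_⟩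
    have hN1 : (1 : ℝ) ≤ N := by exact_mod_cast hN
    have hN0 : (0 : ℝ) < N := by linarith
    obtain ⟨A, hA⟩ : ∃ A : ℕ, A = ⌊(N : ℝ) ^ c⌋₊ := ⟨_, rfl⟩
    obtain ⟨K, hK⟩ : ∃ K : ℕ, K = ⌊(N : ℝ) ^ δ⌋₊ := ⟨_, rfl⟩
    have hNc : 1 ≤ (N : ℝ) ^ c := Real.one_le_rpow hN1 hc0
    have hNδ : 1 ≤ (N : ℝ) ^ δ := Real.one_le_rpow hN1 hδ0
    have hAle : (A : ℝ) ≤ (N : ℝ) ^ c := by rw [hA]; exact Nat.floor_le (by linarith)
    have hKle : (K : ℝ) ≤ (N : ℝ) ^ δ := by rw [hK]; exact Nat.floor_le (by linarith)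
    have hBc := small_exps ((Icc 1 N).filter (fun m => ∃ w ∈ Orders c m, (w : ℝ) < (m : ℝ) ^ δ')) (A := A) (K := K)
      (fun p hp => by
        rw [mem_filter, mem_Icc] at hp
        obtain ⟨⟨h1, h2⟩, w, ⟨hpp, a, ha, hac, rfl⟩, hlt⟩ := hp
        have ha0 := ne_zero_of_small hpp ha hc hac
        have hpos := order_pos hpp ha0
        have hpN' : (p : ℝ) ≤ N := by exact_mod_cast h2
        have hp1 : (1 : ℝ) ≤ p := by exact_mod_cast h1
        refine ⟨hpp, a, ha, ?_, orderOf (a : ZMod p), hpos, ?_, (dvd_of_order p a _).2 dvd_rfl⟩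
        · have e1 : ((a.natAbs : ℕ) : ℝ) ≤ (N : ℝ) ^ c := by
            have : ((a.natAbs : ℕ) : ℝ) = (|a| : ℝ) := by
              rw [Nat.cast_natAbs, Int.cast_abs]
            rw [this]
            exact hac.trans (Real.rpow_le_rpow (Nat.cast_nonneg _) hpN' hc0)
          have e2 : a.natAbs ≤ A := by
            rw [hA]
            exact Nat.le_floor e1
          rw [Int.abs_eq_natAbs]
          exact_mod_cast e2
        · rw [hK]
          apply Nat.le_floor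
          refine hlt.le.trans ?_
          calc (p : ℝ) ^ δ' ≤ (p : ℝ) ^ δ := Real.rpow_le_rpow_of_exponent_le hp1 hδδ
            _ ≤ (N : ℝ) ^ δ := Real.rpow_le_rpow (by linarith) hpN' hδ0)
    have e0 : Nat.log 2 A ≤ Nat.log 2 N := by
      apply Nat.log_mono_right
      have : (A : ℝ) ≤ N := by
        calc (A : ℝ) ≤ (N : ℝ) ^ c := hAle
          _ ≤ (N : ℝ) ^ (1 : ℝ) := Real.rpow_le_rpow_of_exponent_le hN1 hc.le
          _ = N := Real.rpow_one _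
      exact_mod_cast this
    have e1 : (((Icc 1 N).filter (fun m => ∃ w ∈ Orders c m, (w : ℝ) < (m : ℝ) ^ δ')).card : ℝ) ≤
        (2 * A + 1) * K * (1 + K * (Nat.log 2 N + 1)) := by
      have e2 : ((Icc 1 N).filter (fun m => ∃ w ∈ Orders c m, (w : ℝ) < (m : ℝ) ^ δ')).card ≤
          (2 * A + 1) * K * (1 + K * (Nat.log 2 N + 1)) := by
        refine hBc.trans ?_
        gcongr
      exact_mod_cast e2
    have e3 := hCL N hN
    have e4 : (1 : ℝ) ≤ Nat.log 2 N + 1 := by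
      have : (0 : ℝ) ≤ Nat.log 2 N := Nat.cast_nonneg _
      linarith
    have hNη : 1 ≤ (N : ℝ) ^ η := Real.one_le_rpow hN1 hη0.le
    have e5 : (1 : ℝ) + K * (Nat.log 2 N + 1) ≤ 2 * (N : ℝ) ^ δ * ((CL + 1) * (N : ℝ) ^ η) := by
      have a1 : (1 : ℝ) ≤ (N : ℝ) ^ δ * (Nat.log 2 N + 1) := one_le_mul_of_one_le_of_one_le hNδ e4
      have a2 : (K : ℝ) * (Nat.log 2 N + 1) ≤ (N : ℝ) ^ δ * (Nat.log 2 N + 1) :=
        mul_le_mul_of_nonneg_right hKle (by linarith)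
      have a3 : (N : ℝ) ^ δ * (Nat.log 2 N + 1) ≤ (N : ℝ) ^ δ * ((CL + 1) * (N : ℝ) ^ η) :=
        mul_le_mul_of_nonneg_left (by linarith) (by linarith)
      linarith
    calc (((Icc 1 N).filter (fun m => ∃ w ∈ Orders c m, (w : ℝ) < (m : ℝ) ^ δ')).card : ℝ) ≤
        (2 * A + 1) * K * (1 + K * (Nat.log 2 N + 1)) := e1
      _ ≤ (3 * (N : ℝ) ^ c) * (N : ℝ) ^ δ * (2 * (N : ℝ) ^ δ * ((CL + 1) * (N : ℝ) ^ η)) := by
          apply mul_le_mul _ e5 (by positivity) (by positivity)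
          apply mul_le_mul (by linarith) hKle (by positivity) (by positivity)
      _ = 6 * (CL + 1) * ((N : ℝ) ^ c * (N : ℝ) ^ δ * (N : ℝ) ^ δ * (N : ℝ) ^ η) := by ring
      _ = 6 * (CL + 1) * (N : ℝ) ^ (1 - η) := by
          rw [← Real.rpow_add hN0, ← Real.rpow_add hN0, ← Real.rpow_add hN0]
          congr 2
          rw [hη]
          ring

/-- numbers in a short interval -/
lemma card_near {x R : ℝ} (hR : 0 ≤ R) (S : Finset ℕ) (hS : ∀ w ∈ S, |(w : ℝ) - x| ≤ R) :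
    (S.card : ℝ) ≤ 2 * R + 1 := by
  rcases S.eq_empty_or_nonempty with rfl | hne
  · simp
    positivity
  · have h1 := abs_le.1 (hS _ (S.min'_mem hne))
    have h2 := abs_le.1 (hS _ (S.max'_mem hne))
    have h3 : S ⊆ Finset.Icc (S.min' hne) (S.max' hne) := fun w hw =>
      Finset.mem_Icc.2 ⟨S.min'_le w hw, S.le_max' w hw⟩
    have h4 := Finset.card_le_card h3
    rw [Nat.card_Icc] at h4
    have h5 : S.min' hne ≤ S.max' hne := S.min'_le _ (S.max'_mem hne)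
    have h6 : (S.card : ℝ) ≤ (S.max' hne : ℝ) + 1 - S.min' hne := by
      have h7 : S.card + S.min' hne ≤ S.max' hne + 1 := by omega
      have h8 : (S.card : ℝ) + S.min' hne ≤ S.max' hne + 1 := by exact_mod_cast h7
      linarith
    linarith [h1.1, h2.2]

/-- powers of the logarithm are small -/
lemma logpow_small (R : ℕ) {ε : ℝ} (hε : 0 < ε) : ∃ C : ℝ, 0 ≤ C ∧ ∀ X : ℕ, 1 ≤ X →
    (1 + Real.log X) ^ R ≤ C * (X : ℝ) ^ ε := by
  obtain ⟨ε', hε'⟩ : ∃ ε' : ℝ, ε' = ε / (R + 1) := ⟨_, rfl⟩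
  have hε'0 : 0 < ε' := by rw [hε']; positivity
  refine ⟨(1 + 1 / ε') ^ R, by positivity, fun X hX => ?_⟩
  have hX1 : (1 : ℝ) ≤ X := by exact_mod_cast hX
  have h1 := Real.log_le_rpow_div (by linarith : (0 : ℝ) ≤ X) hε'0
  have h2 : 1 ≤ (X : ℝ) ^ ε' := Real.one_le_rpow hX1 hε'0.le
  have h3 : 1 + Real.log X ≤ (1 + 1 / ε') * (X : ℝ) ^ ε' := by
    have : (1 + 1 / ε') * (X : ℝ) ^ ε' = (X : ℝ) ^ ε' + (X : ℝ) ^ ε' / ε' := by ring
    rw [this]
    linarith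
  have h0 := Real.log_nonneg hX1
  calc (1 + Real.log X) ^ R ≤ ((1 + 1 / ε') * (X : ℝ) ^ ε') ^ R := pow_le_pow_left₀ (by linarith) h3 R
    _ = (1 + 1 / ε') ^ R * (X : ℝ) ^ (ε' * R) := by
        rw [mul_pow, ← Real.rpow_natCast ((X : ℝ) ^ ε'), ← Real.rpow_mul (by linarith)]
    _ ≤ (1 + 1 / ε') ^ R * (X : ℝ) ^ ε := by
        apply mul_le_mul_of_nonneg_left _ (by positivity)
        apply Real.rpow_le_rpow_of_exponent_le hX1
        rw [hε', div_mul_eq_mul_div, div_le_iff₀ (by positivity)]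
        nlinarith

theorem near (R : ℕ) : PSpread 1 (Near R) := by
  obtain ⟨K, hK0, hK⟩ := logpow_small R one_pos
  have hle : ∀ m : ℕ, 1 ≤ m → ∀ w ∈ Near R m, 1 ≤ w ∧ w ≤ ⌈1 + K⌉₊ * m := by
    intro m hm w hw
    refine ⟨hw.1, ?_⟩
    have hm1 : (1 : ℝ) ≤ m := by exact_mod_cast hm
    have h1 := (abs_le.1 hw.2).2
    have h2 := hK m hm
    rw [Real.rpow_one] at h2
    have h3 : (w : ℝ) ≤ (1 + K) * m := by linarith
    have h4 : (w : ℝ) ≤ ⌈1 + K⌉₊ * m := h3.trans (mul_le_mul_of_nonneg_right (Nat.le_ceil _) (by linarith))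
    exact_mod_cast h4
  refine ⟨one_pos, ⟨⌈1 + K⌉₊, hle⟩, ?_, ?_⟩
  · intro ε hε
    obtain ⟨C, hC0, hC⟩ := logpow_small R hε
    refine ⟨3 * C * ⌈1 + K⌉₊, by positivity, fun X w hX hw => ?_⟩
    have hX1 : (1 : ℝ) ≤ X := by exact_mod_cast hX
    have hX0 : (0 : ℝ) < X := by linarith
    have hl := Real.log_nonneg hX1
    have hw0 : (0 : ℝ) < w := by exact_mod_cast hw
    have hR1 : 1 ≤ (1 + Real.log X) ^ R := one_le_pow₀ (by linarith)
    rcases ((Icc 1 X).filter (fun m => w ∈ Near R m)).eq_empty_or_nonempty with he | ⟨m0, hm0⟩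
    · rw [he, card_empty, Nat.cast_zero]
      positivity
    · rw [mem_filter, mem_Icc] at hm0
      have h1 := (hle m0 hm0.1.1 w hm0.2).2
      have h2 : (w : ℝ) ≤ ⌈1 + K⌉₊ * X := by
        have : w ≤ ⌈1 + K⌉₊ * X := h1.trans (Nat.mul_le_mul_left _ hm0.1.2)
        exact_mod_cast this
      have h3 := card_near (x := (w : ℝ)) (R := (1 + Real.log X) ^ R) (by positivity)
        ((Icc 1 X).filter (fun m => w ∈ Near R m)) (fun m hm => by
          rw [mem_filter, mem_Icc] at hm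
          have hm1 : (1 : ℝ) ≤ m := by exact_mod_cast hm.1.1
          have hmX : (m : ℝ) ≤ X := by exact_mod_cast hm.1.2
          have := Real.log_nonneg hm1
          have := Real.log_le_log (by linarith) hmX
          rw [abs_sub_comm]
          exact hm.2.2.trans (pow_le_pow_left₀ (by linarith) (by linarith) R))
      have h4 := hC X hX
      rw [le_div_iff₀ hw0]
      calc _ ≤ (2 * (1 + Real.log X) ^ R + 1) * w := mul_le_mul_of_nonneg_right h3 hw0.le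
        _ ≤ (3 * (C * (X : ℝ) ^ ε)) * (⌈1 + K⌉₊ * X) := by
            apply mul_le_mul (by linarith) h2 hw0.le (by positivity)
        _ = 3 * C * ⌈1 + K⌉₊ * ((X : ℝ) ^ (1 : ℝ) * (X : ℝ) ^ ε) := by
            rw [Real.rpow_one]
            ring
        _ = _ := by rw [← Real.rpow_add hX0]
  · intro δ' hδ'
    obtain ⟨δ, hδ⟩ : ∃ δ : ℝ, δ = max δ' (1 / 2) := ⟨_, rfl⟩
    have hδ1 : δ < 1 := by rw [hδ]; exact max_lt hδ' (by norm_num)
    have hδδ : δ' ≤ δ := by rw [hδ]; exact le_max_left _ _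
    have hδ0 : 1 / 2 ≤ δ := by rw [hδ]; exact le_max_right _ _
    obtain ⟨K', hK'0, hK'⟩ := logpow_small R (by norm_num : (0 : ℝ) < 1 / 2)
    -- for `m` large `m - (1 + log m)^R ≥ m ^ δ`
    obtain ⟨M, hM⟩ : ∃ M : ℕ, ((K' + 1 : ℝ)) ^ (1 / (1 - δ)) ≤ M := exists_nat_ge _
    refine ⟨M + 1, 1 / 2, by positivity, by norm_num, fun X hX => ?_⟩
    have hX1 : (1 : ℝ) ≤ X := by exact_mod_cast hX
    have hsub : (Icc 1 X).filter (fun m => ∃ w ∈ Near R m, (w : ℝ) < (m : ℝ) ^ δ') ⊆ Icc 1 M := by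
      intro m hm
      rw [mem_filter, mem_Icc] at hm
      obtain ⟨⟨h1, h2⟩, w, hw, hlt⟩ := hm
      rw [mem_Icc]
      refine ⟨h1, ?_⟩
      by_contra hcon
      have hm1 : (1 : ℝ) ≤ m := by exact_mod_cast h1
      have hm0 : (0 : ℝ) < m := by linarith
      have hMm : ((K' + 1 : ℝ)) ^ (1 / (1 - δ)) ≤ m := hM.trans (by exact_mod_cast (by omega : M ≤ m))
      have h3 : K' + 1 ≤ (m : ℝ) ^ (1 - δ) := by
        have h4 := Real.rpow_le_rpow (by positivity) hMm (by linarith : 0 ≤ 1 - δ)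
        rw [← Real.rpow_mul (by positivity), one_div_mul_cancel (by linarith), Real.rpow_one] at h4
        exact h4
      have h4 := (abs_le.1 hw.2).1
      have h5 := hK' m h1
      have h6 : (m : ℝ) ^ (1 / 2 : ℝ) ≤ (m : ℝ) ^ δ := Real.rpow_le_rpow_of_exponent_le hm1 hδ0
      have h7 : (m : ℝ) ^ δ' ≤ (m : ℝ) ^ δ := Real.rpow_le_rpow_of_exponent_le hm1 hδδ
      have h8 : (m : ℝ) = (m : ℝ) ^ (1 - δ) * (m : ℝ) ^ δ := by
        rw [← Real.rpow_add hm0, sub_add_cancel, Real.rpow_one]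
      have h9 : (K' + 1) * (m : ℝ) ^ δ ≤ m := by
        nth_rewrite 2 [h8]
        exact mul_le_mul_of_nonneg_right h3 (by positivity)
      have h10 : K' * (m : ℝ) ^ (1 / 2 : ℝ) ≤ K' * (m : ℝ) ^ δ := mul_le_mul_of_nonneg_left h6 hK'0
      linarith
    have h1 := card_le_card hsub
    rw [Nat.card_Icc, Nat.add_sub_cancel] at h1
    have h2 : 1 ≤ (X : ℝ) ^ (1 - 1 / 2 : ℝ) := Real.one_le_rpow hX1 (by norm_num)
    have h3 : (((Icc 1 X).filter (fun m => ∃ w ∈ Near R m, (w : ℝ) < (m : ℝ) ^ δ')).card : ℝ) ≤ M := by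
      exact_mod_cast h1
    have h4 : (0 : ℝ) ≤ M := Nat.cast_nonneg _
    nlinarith

end Pool.Agent.Zk98.MD
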