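import Mathlib
import Pool.Agent.Zk98.MD

set_option autoImplicit false

/-! Sets with a power saving: chains of divisors and of orders modulo primes, for tuples. -/

namespace Pool.Agent.Zk98.MD

open Finset Classical
open Pool.Agent.Zk73.OR (log_small sum_inv)

/-- the sum of the reciprocals of the elements of a set -/
lemma sum_inv_one {S : Set ℕ} {D ε : ℝ} (hD : 0 ≤ D) (hε : 0 < ε)
    (hS : ∀ X : ℕ, 1 ≤ X → (((Icc 1 X).filter (fun v => v ∈ S)).card : ℝ) ≤ D * (X : ℝ) ^ (1 + ε)) {X : ℕ} (hX : 1 ≤ X) :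
    ∑ v ∈ (Icc 1 X).filter (fun v => v ∈ S), (1 : ℝ) / v ≤ 2 * (D * (X : ℝ) ^ ε) * (Nat.log 2 X + 1) := by
  have hX1 : (1 : ℝ) ≤ X := by exact_mod_cast hX
  have hX0 : (0 : ℝ) < X := by linarith
  obtain ⟨V, hV⟩ : ∃ V : Set ℕ, ∀ v, v ∈ V ↔ v ∈ S ∧ v ≤ X := ⟨{v | v ∈ S ∧ v ≤ X}, fun v => Iff.rfl⟩
  have h := sum_inv (θ := 1) (C₀ := D * (X : ℝ) ^ ε) le_rfl V (by
    intro X' hX'
    have hX'1 : (1 : ℝ) ≤ X' := by exact_mod_cast hX'
    have hX'0 : (0 : ℝ) < X' := by linarith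
    rw [Real.rpow_one]
    rcases le_total X' X with hle | hle
    · have h1 : (Icc 1 X').filter (fun w => w ∈ V) ⊆ (Icc 1 X').filter (fun v => v ∈ S) := by
        intro v hv
        rw [mem_filter, hV] at hv
        rw [mem_filter]
        exact ⟨hv.1, hv.2.1⟩
      have h2 : (((Icc 1 X').filter (fun w => w ∈ V)).card : ℝ) ≤ D * (X' : ℝ) ^ (1 + ε) :=
        le_trans (by exact_mod_cast card_le_card h1) (hS X' hX')
      have h3 : (X' : ℝ) ^ ε ≤ (X : ℝ) ^ ε :=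
        Real.rpow_le_rpow hX'0.le (by exact_mod_cast hle) hε.le
      calc (((Icc 1 X').filter (fun w => w ∈ V)).card : ℝ) ≤ D * (X' : ℝ) ^ (1 + ε) := h2
        _ = D * ((X' : ℝ) * (X' : ℝ) ^ ε) := by rw [Real.rpow_add hX'0, Real.rpow_one]
        _ ≤ D * ((X' : ℝ) * (X : ℝ) ^ ε) := by gcongr
        _ = D * (X : ℝ) ^ ε * X' := by ring
    · have h1 : (Icc 1 X').filter (fun w => w ∈ V) ⊆ (Icc 1 X).filter (fun v => v ∈ S) := by
        intro v hv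
        rw [mem_filter, mem_Icc, hV] at hv
        rw [mem_filter, mem_Icc]
        exact ⟨⟨hv.1.1, hv.2.2⟩, hv.2.1⟩
      have h2 : (((Icc 1 X').filter (fun w => w ∈ V)).card : ℝ) ≤ D * (X : ℝ) ^ (1 + ε) :=
        le_trans (by exact_mod_cast card_le_card h1) (hS X hX)
      have h3 : (X : ℝ) ≤ X' := by exact_mod_cast hle
      calc (((Icc 1 X').filter (fun w => w ∈ V)).card : ℝ) ≤ D * (X : ℝ) ^ (1 + ε) := h2
        _ = D * ((X : ℝ) * (X : ℝ) ^ ε) := by rw [Real.rpow_add hX0, Real.rpow_one]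
        _ ≤ D * ((X' : ℝ) * (X : ℝ) ^ ε) := by gcongr
        _ = D * (X : ℝ) ^ ε * X' := by ring) (Y := 1) le_rfl X
  have he : (Icc 1 X).filter (fun w : ℕ => w ∈ V ∧ (1 : ℝ) ≤ w) = (Icc 1 X).filter (fun v => v ∈ S) := by
    ext v
    rw [mem_filter, mem_filter, mem_Icc, hV]
    constructor
    · rintro ⟨h1, h2, -⟩
      exact ⟨h1, h2.1⟩
    · rintro ⟨h1, h2⟩
      exact ⟨h1, ⟨h2, h1.2⟩, by exact_mod_cast h1.1⟩
  rw [he, sub_self, Real.rpow_zero, mul_one] at h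
  exact h

theorem PSpread.mono {δ δ₀ : ℝ} {F : ℕ → Set ℕ} (hF : PSpread δ F) (h0 : 0 < δ₀) (h : δ₀ ≤ δ) : PSpread δ₀ F :=
  ⟨h0, hF.le, hF.freq, fun δ' hδ' => hF.low δ' (lt_of_lt_of_le hδ' h)⟩

theorem union {δ₁ δ₂ : ℝ} {F G : ℕ → Set ℕ} (hF : PSpread δ₁ F) (hG : PSpread δ₂ G) :
    PSpread (min δ₁ δ₂) (fun m => F m ∪ G m) := by
  obtain ⟨H, hH⟩ : ∃ H : ℕ → Set ℕ, H = fun m => F m ∪ G m := ⟨_, rfl⟩
  have hHm : ∀ m w, w ∈ H m ↔ w ∈ F m ∨ w ∈ G m := fun m w => by rw [hH]; exact Iff.rfl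
  rw [← hH]
  refine ⟨lt_min hF.pos hG.pos, ?_, ?_, ?_⟩
  · obtain ⟨A, hA⟩ := hF.le
    obtain ⟨B, hB⟩ := hG.le
    refine ⟨A + B, fun m hm w hw => ?_⟩
    rcases (hHm m w).1 hw with hw | hw
    · obtain ⟨h1, h2⟩ := hA m hm w hw
      exact ⟨h1, h2.trans (Nat.mul_le_mul_right _ (by omega))⟩
    · obtain ⟨h1, h2⟩ := hB m hm w hw
      exact ⟨h1, h2.trans (Nat.mul_le_mul_right _ (by omega))⟩
  · intro ε hε
    obtain ⟨a, ha0, ha⟩ := hF.freq ε hε
    obtain ⟨b, hb0, hb⟩ := hG.freq ε hε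
    refine ⟨a + b, by positivity, fun X w hX hw => ?_⟩
    have h1 : (Icc 1 X).filter (fun m => w ∈ H m) ⊆
        (Icc 1 X).filter (fun m => w ∈ F m) ∪ (Icc 1 X).filter (fun m => w ∈ G m) := by
      intro m hm
      rw [mem_filter, hHm] at hm
      rw [mem_union, mem_filter, mem_filter]
      rcases hm.2 with h | h
      · exact Or.inl ⟨hm.1, h⟩
      · exact Or.inr ⟨hm.1, h⟩
    have h2 := (card_le_card h1).trans (card_union_le _ _)
    have h3 : (((Icc 1 X).filter (fun m => w ∈ H m)).card : ℝ) ≤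
        ((Icc 1 X).filter (fun m => w ∈ F m)).card + ((Icc 1 X).filter (fun m => w ∈ G m)).card := by
      exact_mod_cast h2
    calc _ ≤ _ := h3
      _ ≤ a * (X : ℝ) ^ (1 + ε) / w + b * (X : ℝ) ^ (1 + ε) / w := add_le_add (ha X w hX hw) (hb X w hX hw)
      _ = _ := by ring
  · intro δ' hδ'
    obtain ⟨a, η₁, ha0, hη₁, ha⟩ := hF.low δ' (lt_of_lt_of_le hδ' (min_le_left _ _))
    obtain ⟨b, η₂, hb0, hη₂, hb⟩ := hG.low δ' (lt_of_lt_of_le hδ' (min_le_right _ _))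
    refine ⟨a + b, min η₁ η₂, by positivity, lt_min hη₁ hη₂, fun X hX => ?_⟩
    have hX1 : (1 : ℝ) ≤ X := by exact_mod_cast hX
    have h1 : (Icc 1 X).filter (fun m => ∃ w ∈ H m, (w : ℝ) < (m : ℝ) ^ δ') ⊆
        (Icc 1 X).filter (fun m => ∃ w ∈ F m, (w : ℝ) < (m : ℝ) ^ δ') ∪
        (Icc 1 X).filter (fun m => ∃ w ∈ G m, (w : ℝ) < (m : ℝ) ^ δ') := by
      intro m hm
      rw [mem_filter] at hm
      rw [mem_union, mem_filter, mem_filter]
      obtain ⟨hm1, w, hw, hlt⟩ := hm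
      rcases (hHm m w).1 hw with hw | hw
      · exact Or.inl ⟨hm1, w, hw, hlt⟩
      · exact Or.inr ⟨hm1, w, hw, hlt⟩
    have h2 := (card_le_card h1).trans (card_union_le _ _)
    have h3 : (((Icc 1 X).filter (fun m => ∃ w ∈ H m, (w : ℝ) < (m : ℝ) ^ δ')).card : ℝ) ≤
        ((Icc 1 X).filter (fun m => ∃ w ∈ F m, (w : ℝ) < (m : ℝ) ^ δ')).card +
        ((Icc 1 X).filter (fun m => ∃ w ∈ G m, (w : ℝ) < (m : ℝ) ^ δ')).card := by
      exact_mod_cast h2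
    have e1 : (X : ℝ) ^ (1 - η₁) ≤ (X : ℝ) ^ (1 - min η₁ η₂) :=
      Real.rpow_le_rpow_of_exponent_le hX1 (by linarith [min_le_left η₁ η₂])
    have e2 : (X : ℝ) ^ (1 - η₂) ≤ (X : ℝ) ^ (1 - min η₁ η₂) :=
      Real.rpow_le_rpow_of_exponent_le hX1 (by linarith [min_le_right η₁ η₂])
    calc _ ≤ _ := h3
      _ ≤ a * (X : ℝ) ^ (1 - η₁) + b * (X : ℝ) ^ (1 - η₂) := add_le_add (ha X hX) (hb X hX)
      _ ≤ a * (X : ℝ) ^ (1 - min η₁ η₂) + b * (X : ℝ) ^ (1 - min η₁ η₂) :=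
          add_le_add (mul_le_mul_of_nonneg_left e1 ha0) (mul_le_mul_of_nonneg_left e2 hb0)
      _ = _ := by ring

theorem comp {δ₁ δ₂ : ℝ} {F G : ℕ → Set ℕ} (hG : PSpread δ₁ G) (hF : PSpread δ₂ F) :
    PSpread (δ₁ * δ₂) (fun m => {w | ∃ v ∈ G m, w ∈ F v}) := by
  obtain ⟨A, hA⟩ := hG.le
  obtain ⟨B, hB⟩ := hF.le
  refine ⟨mul_pos hG.pos hF.pos, ⟨A * B, fun m hm w hw => ?_⟩, ?_, ?_⟩
  · obtain ⟨v, hv, hw⟩ := hw
    obtain ⟨h1, h2⟩ := hA m hm v hv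
    obtain ⟨h3, h4⟩ := hB v h1 w hw
    refine ⟨h3, h4.trans ?_⟩
    calc B * v ≤ B * (A * m) := Nat.mul_le_mul_left _ h2
      _ = A * B * m := by ring
  · intro ε hε
    obtain ⟨a, ha0, ha⟩ := hG.freq (ε / 3) (by positivity)
    obtain ⟨b, hb0, hb⟩ := hF.freq (ε / 3) (by positivity)
    obtain ⟨CL, hCL0, hCL⟩ := log_small (ε := ε / 3) (by positivity)
    refine ⟨2 * a * b * CL * ((A + 1 : ℕ) : ℝ) ^ (2 * (ε / 3)), by positivity, fun X w hX hw => ?_⟩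
    have hX1 : (1 : ℝ) ≤ X := by exact_mod_cast hX
    have hX0 : (0 : ℝ) < X := by linarith
    have hw0 : (0 : ℝ) < w := by exact_mod_cast hw
    obtain ⟨Z, hZ⟩ : ∃ Z : ℕ, Z = (A + 1) * X := ⟨_, rfl⟩
    have hZ1 : 1 ≤ Z := by rw [hZ]; exact Nat.mul_pos (by omega) hX
    have hZ1' : (1 : ℝ) ≤ Z := by exact_mod_cast hZ1
    have hZ' : (Z : ℝ) = ((A + 1 : ℕ) : ℝ) * X := by rw [hZ]; push_cast; ring
    have hsub : (Icc 1 X).filter (fun m => w ∈ {w | ∃ v ∈ G m, w ∈ F v}) ⊆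
        ((Icc 1 Z).filter (fun v => w ∈ F v)).biUnion (fun v => (Icc 1 X).filter (fun m => v ∈ G m)) := by
      intro m hm
      rw [mem_filter, mem_Icc] at hm
      obtain ⟨⟨h1, h2⟩, v, hv, hw⟩ := hm
      obtain ⟨h3, h4⟩ := hA m h1 v hv
      rw [mem_biUnion]
      refine ⟨v, ?_, ?_⟩
      · rw [mem_filter, mem_Icc]
        refine ⟨⟨h3, h4.trans ?_⟩, hw⟩
        rw [hZ]
        exact Nat.mul_le_mul (by omega) h2
      · rw [mem_filter, mem_Icc]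
        exact ⟨⟨h1, h2⟩, hv⟩
    have h1 := sum_inv_one (S := {v | w ∈ F v}) (D := b / w) (ε := ε / 3) (by positivity) (by positivity) (by
      intro X' hX'
      calc _ ≤ b * (X' : ℝ) ^ (1 + ε / 3) / w := hb X' w hX' hw
        _ = _ := by ring) hZ1
    have h2 : (((Icc 1 X).filter (fun m => w ∈ {w | ∃ v ∈ G m, w ∈ F v})).card : ℝ) ≤
        ∑ v ∈ (Icc 1 Z).filter (fun v => v ∈ {v | w ∈ F v}), a * (X : ℝ) ^ (1 + ε / 3) * (1 / v) := by
      have h3 : (((Icc 1 X).filter (fun m => w ∈ {w | ∃ v ∈ G m, w ∈ F v})).card : ℝ) ≤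
          ∑ v ∈ (Icc 1 Z).filter (fun v => w ∈ F v), (((Icc 1 X).filter (fun m => v ∈ G m)).card : ℝ) := by
        exact_mod_cast (card_le_card hsub).trans card_biUnion_le
      refine h3.trans (sum_le_sum fun v hv => ?_)
      rw [mem_filter, mem_Icc] at hv
      calc _ ≤ a * (X : ℝ) ^ (1 + ε / 3) / v := ha X v hX hv.1.1
        _ = _ := by ring
    rw [← mul_sum] at h2
    have h4 := hCL Z hZ1
    calc _ ≤ _ := h2
      _ ≤ a * (X : ℝ) ^ (1 + ε / 3) * (2 * (b / w * (Z : ℝ) ^ (ε / 3)) * (Nat.log 2 Z + 1)) :=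
          mul_le_mul_of_nonneg_left h1 (by positivity)
      _ ≤ a * (X : ℝ) ^ (1 + ε / 3) * (2 * (b / w * (Z : ℝ) ^ (ε / 3)) * (CL * (Z : ℝ) ^ (ε / 3))) := by
          apply mul_le_mul_of_nonneg_left _ (by positivity)
          exact mul_le_mul_of_nonneg_left h4 (by positivity)
      _ = 2 * a * b * CL * ((Z : ℝ) ^ (ε / 3) * (Z : ℝ) ^ (ε / 3)) * (X : ℝ) ^ (1 + ε / 3) / w := by ring
      _ = 2 * a * b * CL * ((A + 1 : ℕ) : ℝ) ^ (2 * (ε / 3)) * (X : ℝ) ^ (1 + ε) / w := by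
          rw [← Real.rpow_add (by linarith), hZ', Real.mul_rpow (by positivity) hX0.le,
            show (1 : ℝ) + ε = 2 * (ε / 3) + (1 + ε / 3) by ring, Real.rpow_add hX0 (2 * (ε / 3)),
            show ε / 3 + ε / 3 = 2 * (ε / 3) by ring]
          ring
  · intro δ' hδ'
    have hδ1 := hG.pos
    have hδ2 := hF.pos
    obtain ⟨t, ht0, ht1, ht⟩ : ∃ t : ℝ, 0 < t ∧ t < 1 ∧ δ' ≤ t * δ₁ * (t * δ₂) := by
      have hx : δ' / (δ₁ * δ₂) < 1 := by
        rw [div_lt_one (by positivity)]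
        exact hδ'
      refine ⟨max (1 / 2) √(δ' / (δ₁ * δ₂)), lt_of_lt_of_le (by norm_num) (le_max_left _ _), max_lt (by norm_num) ?_, ?_⟩
      · rw [Real.sqrt_lt' one_pos, one_pow]
        exact hx
      · obtain ⟨t, ht⟩ : ∃ t, t = max (1 / 2) √(δ' / (δ₁ * δ₂)) := ⟨_, rfl⟩
        rw [← ht]
        have h1 : √(δ' / (δ₁ * δ₂)) ≤ t := by rw [ht]; exact le_max_right _ _
        have h0 : 0 ≤ t := by rw [ht]; exact le_trans (by norm_num) (le_max_left _ _)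
        have h2 : δ' / (δ₁ * δ₂) ≤ t ^ 2 := by
          rcases le_total 0 (δ' / (δ₁ * δ₂)) with h | h
          · calc δ' / (δ₁ * δ₂) = √(δ' / (δ₁ * δ₂)) ^ 2 := (Real.sq_sqrt h).symm
              _ ≤ t ^ 2 := pow_le_pow_left₀ (Real.sqrt_nonneg _) h1 2
          · exact h.trans (by positivity)
        rw [div_le_iff₀ (by positivity)] at h2
        calc δ' ≤ t ^ 2 * (δ₁ * δ₂) := h2
          _ = _ := by ring
    obtain ⟨a, η₁, ha0, hη₁, ha⟩ := hG.low (t * δ₁) (by nlinarith)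
    obtain ⟨b, η₂, hb0, hη₂, hb⟩ := hF.low (t * δ₂) (by nlinarith)
    obtain ⟨ζ, hζ⟩ : ∃ ζ : ℝ, ζ = min η₂ 1 * (t * δ₁ / 2) / 4 := ⟨_, rfl⟩
    have hζ0 : 0 < ζ := by rw [hζ]; have := lt_min hη₂ one_pos; positivity
    obtain ⟨η₂', hη₂'⟩ : ∃ η₂' : ℝ, η₂' = min η₂ 1 := ⟨_, rfl⟩
    have hη2p : 0 < η₂' := by rw [hη₂']; exact lt_min hη₂ one_pos
    have hη2l : η₂' ≤ η₂ := by rw [hη₂']; exact min_le_left _ _
    obtain ⟨c, hc0, hc⟩ := hG.freq ζ hζ0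
    obtain ⟨CL, hCL0, hCL⟩ := log_small hζ0
    obtain ⟨η, hη⟩ : ∃ η : ℝ, η = min (min η₁ (1 / 2)) (2 * ζ) := ⟨_, rfl⟩
    have hη0 : 0 < η := by rw [hη]; exact lt_min (lt_min hη₁ (by norm_num)) (by positivity)
    have hl1 : η ≤ η₁ := by rw [hη]; exact (min_le_left _ _).trans (min_le_left _ _)
    have hl2 : η ≤ 1 / 2 := by rw [hη]; exact (min_le_left _ _).trans (min_le_right _ _)
    have hl3 : η ≤ 2 * ζ := by rw [hη]; exact min_le_right _ _
    refine ⟨a + 1 + c * (2 * b * (CL * ((A + 1 : ℕ) : ℝ) ^ ζ)), η, by positivity, hη0, fun X hX => ?_⟩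
    have hX1 : (1 : ℝ) ≤ X := by exact_mod_cast hX
    have hX0 : (0 : ℝ) < X := by linarith
    obtain ⟨Z, hZ⟩ : ∃ Z : ℕ, Z = (A + 1) * X := ⟨_, rfl⟩
    have hZ1 : 1 ≤ Z := by rw [hZ]; exact Nat.mul_pos (by omega) hX
    have hZ' : (Z : ℝ) = ((A + 1 : ℕ) : ℝ) * X := by rw [hZ]; push_cast; ring
    obtain ⟨S, hS⟩ : ∃ S : Set ℕ, S = {v | 1 ≤ v ∧ ∃ w ∈ F v, (w : ℝ) < (v : ℝ) ^ (t * δ₂)} := ⟨_, rfl⟩
    obtain ⟨Y, hY⟩ : ∃ Y : ℝ, Y = (X : ℝ) ^ (t * δ₁ / 2) := ⟨_, rfl⟩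
    have hY1 : 1 ≤ Y := by rw [hY]; exact Real.one_le_rpow hX1 (by positivity)
    have hSc : ∀ X' : ℕ, 1 ≤ X' → (((Icc 1 X').filter (fun v => v ∈ S)).card : ℝ) ≤ b * (X' : ℝ) ^ (1 - η₂') := by
      intro X' hX'
      have hX'1 : (1 : ℝ) ≤ X' := by exact_mod_cast hX'
      have h1 : (Icc 1 X').filter (fun v => v ∈ S) ⊆
          (Icc 1 X').filter (fun m => ∃ w ∈ F m, (w : ℝ) < (m : ℝ) ^ (t * δ₂)) := by
        intro v hv
        rw [mem_filter] at hv ⊢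
        rw [hS] at hv
        exact ⟨hv.1, hv.2.2⟩
      calc _ ≤ (((Icc 1 X').filter (fun m => ∃ w ∈ F m, (w : ℝ) < (m : ℝ) ^ (t * δ₂))).card : ℝ) := by
            exact_mod_cast card_le_card h1
        _ ≤ b * (X' : ℝ) ^ (1 - η₂) := hb X' hX'
        _ ≤ b * (X' : ℝ) ^ (1 - η₂') := by
            apply mul_le_mul_of_nonneg_left _ hb0
            exact Real.rpow_le_rpow_of_exponent_le hX'1 (by linarith)
    have hsi := sum_inv (θ := 1 - η₂') (C₀ := b) (by linarith) S hSc hY1 Z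
    have hsub : (Icc 1 X).filter (fun m => ∃ w ∈ {w | ∃ v ∈ G m, w ∈ F v}, (w : ℝ) < (m : ℝ) ^ δ') ⊆
        (Icc 1 X).filter (fun m => ∃ w ∈ G m, (w : ℝ) < (m : ℝ) ^ (t * δ₁)) ∪
        ((Icc 1 X).filter (fun m => m * m ≤ X) ∪
        ((Icc 1 Z).filter (fun v => v ∈ S ∧ Y ≤ v)).biUnion (fun v => (Icc 1 X).filter (fun m => v ∈ G m))) := by
      intro m hm
      rw [mem_filter, mem_Icc] at hm
      obtain ⟨⟨h1, h2⟩, w, ⟨v, hv, hw⟩, hlt⟩ := hm
      have hm1 : (1 : ℝ) ≤ m := by exact_mod_cast h1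
      rw [mem_union, mem_union]
      by_cases hc1 : ∃ w ∈ G m, (w : ℝ) < (m : ℝ) ^ (t * δ₁)
      · left
        rw [mem_filter, mem_Icc]
        exact ⟨⟨h1, h2⟩, hc1⟩
      · right
        by_cases hc2 : m * m ≤ X
        · left
          rw [mem_filter, mem_Icc]
          exact ⟨⟨h1, h2⟩, hc2⟩
        · right
          push Not at hc1
          have h3 := hc1 v hv
          obtain ⟨h4, h5⟩ := hA m h1 v hv
          have hv1 : (1 : ℝ) ≤ v := by exact_mod_cast h4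
          have h6 : Y ≤ v := by
            refine le_trans ?_ h3
            rw [hY]
            have h7 : (X : ℝ) ≤ (m : ℝ) ^ (2 : ℝ) := by
              have h8 : X ≤ m * m := by omega
              have h9 : (X : ℝ) ≤ m * m := by exact_mod_cast h8
              calc (X : ℝ) ≤ m * m := h9
                _ = (m : ℝ) ^ (2 : ℝ) := by
                    rw [show (2 : ℝ) = ((2 : ℕ) : ℝ) by norm_num, Real.rpow_natCast]
                    ring
            calc (X : ℝ) ^ (t * δ₁ / 2) ≤ ((m : ℝ) ^ (2 : ℝ)) ^ (t * δ₁ / 2) :=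
                  Real.rpow_le_rpow hX0.le h7 (by positivity)
              _ = (m : ℝ) ^ (t * δ₁) := by
                  rw [← Real.rpow_mul (by linarith)]
                  congr 1
                  ring
          rw [mem_biUnion]
          refine ⟨v, ?_, ?_⟩
          · rw [mem_filter, mem_Icc]
            refine ⟨⟨h4, h5.trans ?_⟩, ?_, h6⟩
            · rw [hZ]
              exact Nat.mul_le_mul (by omega) h2
            · rw [hS]
              refine ⟨h4, w, hw, lt_of_lt_of_le hlt ?_⟩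
              calc (m : ℝ) ^ δ' ≤ (m : ℝ) ^ (t * δ₁ * (t * δ₂)) := Real.rpow_le_rpow_of_exponent_le hm1 ht
                _ = ((m : ℝ) ^ (t * δ₁)) ^ (t * δ₂) := Real.rpow_mul (by linarith) _ _
                _ ≤ (v : ℝ) ^ (t * δ₂) := Real.rpow_le_rpow (by positivity) h3 (by positivity)
          · rw [mem_filter, mem_Icc]
            exact ⟨⟨h1, h2⟩, hv⟩
    have hsq : ((((Icc 1 X).filter (fun m => m * m ≤ X)).card : ℕ) : ℝ) ≤ (X : ℝ) ^ (1 - η) := by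
      have h1 : (Icc 1 X).filter (fun m => m * m ≤ X) ⊆ Icc 1 (Nat.sqrt X) := by
        intro m hm
        rw [mem_filter, mem_Icc] at hm
        rw [mem_Icc]
        exact ⟨hm.1.1, Nat.le_sqrt.2 hm.2⟩
      have h2 := card_le_card h1
      rw [Nat.card_Icc, Nat.add_sub_cancel] at h2
      calc ((((Icc 1 X).filter (fun m => m * m ≤ X)).card : ℕ) : ℝ) ≤ (Nat.sqrt X : ℝ) := by exact_mod_cast h2
        _ ≤ √X := Real.nat_sqrt_le_real_sqrt
        _ = (X : ℝ) ^ (1 / 2 : ℝ) := Real.sqrt_eq_rpow _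
        _ ≤ (X : ℝ) ^ (1 - η) := Real.rpow_le_rpow_of_exponent_le hX1 (by linarith)
    have hbi : ((((Icc 1 Z).filter (fun v => v ∈ S ∧ Y ≤ v)).biUnion
        (fun v => (Icc 1 X).filter (fun m => v ∈ G m))).card : ℝ) ≤
        c * (2 * b * (CL * ((A + 1 : ℕ) : ℝ) ^ ζ)) * (X : ℝ) ^ (1 - η) := by
      have h3 : ((((Icc 1 Z).filter (fun v => v ∈ S ∧ Y ≤ v)).biUnion
          (fun v => (Icc 1 X).filter (fun m => v ∈ G m))).card : ℝ) ≤
          ∑ v ∈ (Icc 1 Z).filter (fun v => v ∈ S ∧ Y ≤ v), c * (X : ℝ) ^ (1 + ζ) * (1 / v) := by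
        have h4 : ((((Icc 1 Z).filter (fun v => v ∈ S ∧ Y ≤ v)).biUnion
            (fun v => (Icc 1 X).filter (fun m => v ∈ G m))).card : ℝ) ≤
            ∑ v ∈ (Icc 1 Z).filter (fun v => v ∈ S ∧ Y ≤ v), (((Icc 1 X).filter (fun m => v ∈ G m)).card : ℝ) := by
          exact_mod_cast card_biUnion_le
        refine h4.trans (sum_le_sum fun v hv => ?_)
        rw [mem_filter, mem_Icc] at hv
        calc _ ≤ c * (X : ℝ) ^ (1 + ζ) / v := hc X v hX hv.1.1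
          _ = _ := by ring
      rw [← mul_sum] at h3
      have h4 := hCL Z hZ1
      rw [hZ', Real.mul_rpow (by positivity) hX0.le] at h4
      have hY0 : 0 < Y := by linarith
      have e1 : Y ^ ((1 - η₂') - 1) = (X : ℝ) ^ (-(4 * ζ)) := by
        rw [hY, ← Real.rpow_mul hX0.le]
        congr 1
        rw [hζ, ← hη₂']
        ring
      calc _ ≤ _ := h3
        _ ≤ c * (X : ℝ) ^ (1 + ζ) * (2 * b * (Nat.log 2 Z + 1) * Y ^ ((1 - η₂') - 1)) :=
            mul_le_mul_of_nonneg_left hsi (by positivity)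
        _ ≤ c * (X : ℝ) ^ (1 + ζ) * (2 * b * (CL * (((A + 1 : ℕ) : ℝ) ^ ζ * (X : ℝ) ^ ζ)) * Y ^ ((1 - η₂') - 1)) := by
            apply mul_le_mul_of_nonneg_left _ (by positivity)
            apply mul_le_mul_of_nonneg_right _ (by positivity)
            exact mul_le_mul_of_nonneg_left h4 (by positivity)
        _ = c * (2 * b * (CL * ((A + 1 : ℕ) : ℝ) ^ ζ)) * ((X : ℝ) ^ (1 + ζ) * (X : ℝ) ^ ζ * (X : ℝ) ^ (-(4 * ζ))) := by
            rw [e1]
            ring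
        _ = c * (2 * b * (CL * ((A + 1 : ℕ) : ℝ) ^ ζ)) * (X : ℝ) ^ (1 - 2 * ζ) := by
            rw [← Real.rpow_add hX0, ← Real.rpow_add hX0]
            congr 2
            ring
        _ ≤ c * (2 * b * (CL * ((A + 1 : ℕ) : ℝ) ^ ζ)) * (X : ℝ) ^ (1 - η) := by
            apply mul_le_mul_of_nonneg_left _ (by positivity)
            exact Real.rpow_le_rpow_of_exponent_le hX1 (by linarith)
    have h0 := (card_le_card hsub).trans ((card_union_le _ _).trans (Nat.add_le_add_left (card_union_le _ _) _))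
    have h1 : (((Icc 1 X).filter (fun m => ∃ w ∈ {w | ∃ v ∈ G m, w ∈ F v}, (w : ℝ) < (m : ℝ) ^ δ')).card : ℝ) ≤
        (((Icc 1 X).filter (fun m => ∃ w ∈ G m, (w : ℝ) < (m : ℝ) ^ (t * δ₁))).card : ℝ) +
        ((((Icc 1 X).filter (fun m => m * m ≤ X)).card : ℝ) +
        ((((Icc 1 Z).filter (fun v => v ∈ S ∧ Y ≤ v)).biUnion
          (fun v => (Icc 1 X).filter (fun m => v ∈ G m))).card : ℝ)) := by exact_mod_cast h0
    have h2 : (X : ℝ) ^ (1 - η₁) ≤ (X : ℝ) ^ (1 - η) := Real.rpow_le_rpow_of_exponent_le hX1 (by linarith)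
    have h3 := ha X hX
    have h4 := mul_le_mul_of_nonneg_left h2 ha0
    calc _ ≤ _ := h1
      _ ≤ a * (X : ℝ) ^ (1 - η) + ((X : ℝ) ^ (1 - η) +
          c * (2 * b * (CL * ((A + 1 : ℕ) : ℝ) ^ ζ)) * (X : ℝ) ^ (1 - η)) := by linarith
      _ = _ := by ring

end Pool.Agent.Zk98.MD
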