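import Mathlib
import Pool.Agent.Zk98.ME

set_option autoImplicit false

/-! Sets with a power saving in dyadic boxes: tuples of chains of divisors and of orders modulo primes. -/

namespace Pool.Agent.Zk98.MD

open Finset Classical
open Pool.Agent.Zk73.OR (log_small)

/-- the tuples in a dyadic box -/
def DBox {d : ℕ} (W : Set (Fin d → ℕ)) (j : Fin d → ℕ) : Set (Fin d → ℕ) :=
  {w | w ∈ W ∧ ∀ i, 2 ^ (j i) ≤ w i ∧ w i < 2 ^ (j i + 1)}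

lemma dbox_fin {d : ℕ} (W : Set (Fin d → ℕ)) (j : Fin d → ℕ) : (DBox W j).Finite := by
  apply (Set.Finite.pi' fun i : Fin d => Set.finite_Icc 0 (2 ^ (j i + 1))).subset
  rintro w ⟨-, hw⟩ i
  exact ⟨Nat.zero_le _, (hw i).2.le⟩

/-- the number of the `m ∈ [1, N]^d` with `m i ∈ B` -/
lemma card_slice {d N : ℕ} (hd : 1 ≤ d) (i : Fin d) (B : Finset ℕ) :
    ((((Fintype.piFinset fun _ : Fin d => Icc 1 N).filter (fun m => m i ∈ B)).card : ℕ) : ℝ) ≤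
      B.card * (N : ℝ) ^ ((d : ℝ) - 1) := by
  have h1 : (Fintype.piFinset fun _ : Fin d => Icc 1 N).filter (fun m => m i ∈ B) ⊆
      Fintype.piFinset fun k : Fin d => if k = i then B else Icc 1 N := by
    intro m hm
    rw [mem_filter, Fintype.mem_piFinset] at hm
    rw [Fintype.mem_piFinset]
    intro k
    by_cases hk : k = i
    · rw [if_pos hk, hk]
      exact hm.2
    · rw [if_neg hk]
      exact hm.1 k
  have h2 := card_le_card h1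
  rw [Fintype.card_piFinset, ← Finset.mul_prod_erase univ _ (mem_univ i), if_pos rfl] at h2
  have h3 : ∏ k ∈ univ.erase i, (if k = i then B else Icc 1 N).card = N ^ (d - 1) := by
    rw [prod_congr rfl (g := fun _ => N), prod_const, card_erase_of_mem (mem_univ i), card_univ, Fintype.card_fin]
    intro k hk
    rw [if_neg (ne_of_mem_erase hk), Nat.card_Icc, Nat.add_sub_cancel]
  rw [h3] at h2
  have h4 : ((N ^ (d - 1) : ℕ) : ℝ) = (N : ℝ) ^ ((d : ℝ) - 1) := by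
    push_cast
    rw [← Real.rpow_natCast, Nat.cast_sub hd]
    norm_num
  rw [← h4]
  exact_mod_cast h2

/-- **Tuples.** If the sets `W` of tuples in a family `𝒲` have uniformly few elements in the dyadic boxes with sides between
`N ^ δ₁` and a multiple of `N`, `0 < δ₁ < δ`, and the `F i` are spread with exponent `δ`, then for all `m ∈ [1, N]^d` but
`C N ^ (d - η)` there is no element `w` of `W` with `w i ∈ F i (m i)` for all `i`. -/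
theorem tuples_unif {d : ℕ} (hd : 1 ≤ d) {δ : ℝ} {F : Fin d → ℕ → Set ℕ} (hF : ∀ i, PSpread δ (F i))
    (𝒲 : Set (Set (Fin d → ℕ))) {δ₁ η₁ : ℝ} (hδ₁ : 0 < δ₁) (hδ : δ₁ < δ) (hη₁ : 0 < η₁)
    (hW : ∀ A : ℕ, ∃ C₁ : ℝ, 0 ≤ C₁ ∧ ∀ W ∈ 𝒲, ∀ (N : ℕ) (j : Fin d → ℕ), 1 ≤ N →
      (∀ i, (N : ℝ) ^ δ₁ ≤ 2 ^ (j i + 1) ∧ 2 ^ (j i) ≤ A * N) →
      ((DBox W j).ncard : ℝ) ≤ C₁ * (N : ℝ) ^ (-η₁) * ∏ i, (2 : ℝ) ^ (j i)) :
    ∃ C η : ℝ, 0 < η ∧ ∀ W ∈ 𝒲, ∀ N : ℕ, 1 ≤ N →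
      ({m : Fin d → ℕ | (∀ i, 1 ≤ m i ∧ m i ≤ N) ∧ ∃ w ∈ W, ∀ i, w i ∈ F i (m i)}.ncard : ℝ) ≤
        C * (N : ℝ) ^ ((d : ℝ) - η) := by
  have : Nonempty (Fin d) := ⟨⟨0, hd⟩⟩
  have hd0 : (0 : ℝ) < d := by exact_mod_cast hd
  obtain ⟨δ₂, hδ₂⟩ : ∃ δ₂ : ℝ, δ₂ = (δ₁ + δ) / 2 := ⟨_, rfl⟩
  have h12 : δ₁ < δ₂ := by rw [hδ₂]; linarith
  have h2 : δ₂ < δ := by rw [hδ₂]; linarith
  have hδ20 : 0 < δ₂ := by linarith
  obtain ⟨θ, hθ⟩ : ∃ θ : ℝ, θ = 1 - δ₁ / δ₂ := ⟨_, rfl⟩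
  have hθ0 : 0 < θ := by
    rw [hθ, sub_pos, div_lt_one hδ20]
    exact h12
  have hθδ : (1 - θ) * δ₂ = δ₁ := by
    rw [hθ]
    field_simp
    ring
  obtain ⟨ε, hε⟩ : ∃ ε : ℝ, ε = η₁ / (4 * d) := ⟨_, rfl⟩
  have hε0 : 0 < ε := by rw [hε]; positivity
  choose A hA using fun i => (hF i).le
  choose Cl ηl hCl hηl hl using fun i => (hF i).low δ₂ h2
  choose Cf hCf hf using fun i => (hF i).freq ε hε0
  obtain ⟨i₀, hi₀⟩ := Finite.exists_min ηl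
  obtain ⟨CL, hCL0, hCL⟩ := log_small hε0
  obtain ⟨A', hA'⟩ : ∃ A' : ℕ, A' = ∑ i, A i + 1 := ⟨_, rfl⟩
  have hAA : ∀ i, A i ≤ A' := by
    intro i
    have := single_le_sum (f := A) (fun _ _ => Nat.zero_le _) (mem_univ i)
    omega
  obtain ⟨C₁, hC₁0, hC₁⟩ := hW A'
  obtain ⟨η, hη⟩ : ∃ η : ℝ, η = min (min θ (ηl i₀)) (η₁ / 2) := ⟨_, rfl⟩
  have hη0 : 0 < η := by rw [hη]; exact lt_min (lt_min hθ0 (hηl i₀)) (by linarith)
  have hη1 : η ≤ θ := by rw [hη]; exact (min_le_left _ _).trans (min_le_left _ _)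
  have hη2 : ∀ i, η ≤ ηl i := fun i => le_trans (by rw [hη]; exact (min_le_left _ _).trans (min_le_right _ _)) (hi₀ i)
  have hη3 : η ≤ η₁ / 2 := by rw [hη]; exact min_le_right _ _
  refine ⟨∑ i, (1 + Cl i) + (CL * (A' : ℝ) ^ ε) ^ d * (C₁ * ∏ i, Cf i), η, hη0, fun W hWW N hN => ?_⟩
  have hN1 : (1 : ℝ) ≤ N := by exact_mod_cast hN
  have hN0 : (0 : ℝ) < N := by linarith
  obtain ⟨box, hbox⟩ : ∃ box, box = Fintype.piFinset fun _ : Fin d => Icc 1 N := ⟨_, rfl⟩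
  obtain ⟨B, hB⟩ : ∃ B : Fin d → Finset ℕ, B = fun i => (Icc 1 N).filter (fun m : ℕ => (m : ℝ) ≤ (N : ℝ) ^ (1 - θ)) ∪
    (Icc 1 N).filter (fun m => ∃ w ∈ F i m, (w : ℝ) < (m : ℝ) ^ δ₂) := ⟨_, rfl⟩
  have hBc : ∀ i, ((B i).card : ℝ) ≤ (1 + Cl i) * (N : ℝ) ^ (1 - η) := by
    intro i
    have e1 : (((Icc 1 N).filter (fun m : ℕ => (m : ℝ) ≤ (N : ℝ) ^ (1 - θ))).card : ℝ) ≤ (N : ℝ) ^ (1 - η) := by
      have e2 : (Icc 1 N).filter (fun m : ℕ => (m : ℝ) ≤ (N : ℝ) ^ (1 - θ)) ⊆ Icc 1 ⌊(N : ℝ) ^ (1 - θ)⌋₊ := by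
        intro m hm
        rw [mem_filter, mem_Icc] at hm
        rw [mem_Icc]
        exact ⟨hm.1.1, Nat.le_floor hm.2⟩
      have e3 := card_le_card e2
      rw [Nat.card_Icc, Nat.add_sub_cancel] at e3
      calc _ ≤ ((⌊(N : ℝ) ^ (1 - θ)⌋₊ : ℕ) : ℝ) := by exact_mod_cast e3
        _ ≤ (N : ℝ) ^ (1 - θ) := Nat.floor_le (by positivity)
        _ ≤ (N : ℝ) ^ (1 - η) := Real.rpow_le_rpow_of_exponent_le hN1 (by linarith)
    have e2 := hl i N hN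
    have e3 : (N : ℝ) ^ (1 - ηl i) ≤ (N : ℝ) ^ (1 - η) :=
      Real.rpow_le_rpow_of_exponent_le hN1 (by linarith [hη2 i])
    have e4 := mul_le_mul_of_nonneg_left e3 (hCl i)
    have e5 : ((B i).card : ℝ) ≤ (((Icc 1 N).filter (fun m : ℕ => (m : ℝ) ≤ (N : ℝ) ^ (1 - θ))).card : ℝ) +
        (((Icc 1 N).filter (fun m => ∃ w ∈ F i m, (w : ℝ) < (m : ℝ) ^ δ₂)).card : ℝ) := by
      rw [hB]
      exact_mod_cast card_union_le _ _
    calc _ ≤ _ := e5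
      _ ≤ (N : ℝ) ^ (1 - η) + Cl i * (N : ℝ) ^ (1 - η) := by linarith
      _ = _ := by ring
  obtain ⟨J, hJ⟩ : ∃ J : ℕ, J = Nat.log 2 (A' * N) := ⟨_, rfl⟩
  have hA'1 : 1 ≤ A' := by omega
  have hAN : 1 ≤ A' * N := Nat.mul_pos hA'1 hN
  obtain ⟨JJ, hJJ⟩ : ∃ JJ : Finset (Fin d → ℕ), JJ = (Fintype.piFinset fun _ : Fin d => range (J + 1)).filter
    (fun j => ∀ i, (N : ℝ) ^ δ₁ ≤ 2 ^ (j i + 1) ∧ 2 ^ (j i) ≤ A' * N) := ⟨_, rfl⟩
  obtain ⟨T, hT⟩ : ∃ T : (Fin d → ℕ) → Finset (Fin d → ℕ), T = fun w => Fintype.piFinset fun i : Fin d =>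
    (Icc 1 N).filter (fun m : ℕ => w i ∈ F i m) := ⟨_, rfl⟩
  have hcov : {m : Fin d → ℕ | (∀ i, 1 ≤ m i ∧ m i ≤ N) ∧ ∃ w ∈ W, ∀ i, w i ∈ F i (m i)} ⊆
      (((univ.biUnion fun i : Fin d => box.filter (fun m => m i ∈ B i)) ∪
        (JJ.biUnion fun j => (dbox_fin W j).toFinset.biUnion T) : Finset (Fin d → ℕ)) : Set (Fin d → ℕ)) := by
    rintro m ⟨hm, w, hwW, hw⟩
    rw [mem_coe, mem_union]
    by_cases hc : ∃ i, m i ∈ B i
    · left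
      obtain ⟨i, hi⟩ := hc
      rw [mem_biUnion]
      refine ⟨i, mem_univ i, ?_⟩
      rw [mem_filter, hbox, Fintype.mem_piFinset]
      exact ⟨fun k => mem_Icc.2 (hm k), hi⟩
    · right
      push Not at hc
      have hw1 : ∀ i, 1 ≤ w i ∧ w i ≤ A' * N := by
        intro i
        obtain ⟨h3, h4⟩ := hA i (m i) (hm i).1 (w i) (hw i)
        exact ⟨h3, h4.trans (Nat.mul_le_mul (hAA i) (hm i).2)⟩
      have hw2 : ∀ i, (N : ℝ) ^ δ₁ ≤ w i := by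
        intro i
        have h3 := hc i
        rw [hB, mem_union, mem_filter, mem_filter, mem_Icc] at h3
        push Not at h3
        have h4 := h3.1 (hm i)
        have h5 := h3.2 (hm i) (w i) (hw i)
        calc (N : ℝ) ^ δ₁ = ((N : ℝ) ^ (1 - θ)) ^ δ₂ := by rw [← Real.rpow_mul hN0.le, hθδ]
          _ ≤ (m i : ℝ) ^ δ₂ := Real.rpow_le_rpow (by positivity) h4.le hδ20.le
          _ ≤ w i := h5
      rw [mem_biUnion]
      refine ⟨fun i => Nat.log 2 (w i), ?_, ?_⟩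
      · rw [hJJ, mem_filter, Fintype.mem_piFinset]
        refine ⟨fun i => ?_, fun i => ⟨?_, ?_⟩⟩
        · rw [mem_range, hJ]
          exact Nat.lt_succ_of_le (Nat.log_mono_right (hw1 i).2)
        · refine (hw2 i).trans ?_
          have := (Nat.lt_pow_succ_log_self (by norm_num : 1 < 2) (w i)).le
          exact_mod_cast this
        · exact (Nat.pow_log_le_self 2 (by have := (hw1 i).1; omega)).trans (hw1 i).2
      · rw [mem_biUnion]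
        refine ⟨w, ?_, ?_⟩
        · rw [Set.Finite.mem_toFinset]
          exact ⟨hwW, fun i => ⟨Nat.pow_log_le_self 2 (by have := (hw1 i).1; omega),
            Nat.lt_pow_succ_log_self (by norm_num) _⟩⟩
        · rw [hT, Fintype.mem_piFinset]
          intro i
          rw [mem_filter, mem_Icc]
          exact ⟨hm i, hw i⟩
  have hTj : ∀ j ∈ JJ, ((((dbox_fin W j).toFinset.biUnion T).card : ℕ) : ℝ) ≤
      C₁ * (∏ i, Cf i) * (N : ℝ) ^ ((d : ℝ) + d * ε - η₁) := by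
    intro j hj
    rw [hJJ, mem_filter] at hj
    have h3 := hC₁ W hWW N j hN hj.2
    rw [Set.ncard_eq_toFinset_card _ (dbox_fin W j)] at h3
    have h4 : ∀ w ∈ (dbox_fin W j).toFinset, (((T w).card : ℕ) : ℝ) ≤
        (∏ i, Cf i) * (N : ℝ) ^ ((d : ℝ) * (1 + ε)) / ∏ i, (2 : ℝ) ^ (j i) := by
      intro w hw
      rw [Set.Finite.mem_toFinset] at hw
      rw [hT, Fintype.card_piFinset]
      push_cast
      have h5 : ∀ i ∈ (univ : Finset (Fin d)), ((((Icc 1 N).filter (fun m : ℕ => w i ∈ F i m)).card : ℕ) : ℝ) ≤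
          Cf i * (N : ℝ) ^ (1 + ε) / (2 : ℝ) ^ (j i) := by
        intro i _
        have h6 := hw.2 i
        have h7 : 1 ≤ w i := le_trans (Nat.one_le_two_pow) h6.1
        refine (hf i N (w i) hN h7).trans ?_
        apply div_le_div_of_nonneg_left (mul_nonneg (hCf i) (by positivity)) (by positivity)
        exact_mod_cast h6.1
      refine (prod_le_prod (fun i _ => Nat.cast_nonneg _) h5).trans (le_of_eq ?_)
      rw [prod_div_distrib, prod_mul_distrib, prod_const, card_univ, Fintype.card_fin, ← Real.rpow_natCast,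
        ← Real.rpow_mul hN0.le, mul_comm (1 + ε)]
    have hP : (0 : ℝ) < ∏ i, (2 : ℝ) ^ (j i) := prod_pos fun i _ => by positivity
    have hCfP : 0 ≤ ∏ i, Cf i := prod_nonneg fun i _ => hCf i
    have h5 : ((((dbox_fin W j).toFinset.biUnion T).card : ℕ) : ℝ) ≤ ∑ w ∈ (dbox_fin W j).toFinset, (((T w).card : ℕ) : ℝ) := by
      exact_mod_cast card_biUnion_le
    calc _ ≤ _ := h5
      _ ≤ ∑ w ∈ (dbox_fin W j).toFinset, (∏ i, Cf i) * (N : ℝ) ^ ((d : ℝ) * (1 + ε)) / ∏ i, (2 : ℝ) ^ (j i) :=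
          sum_le_sum h4
      _ = (dbox_fin W j).toFinset.card * ((∏ i, Cf i) * (N : ℝ) ^ ((d : ℝ) * (1 + ε)) / ∏ i, (2 : ℝ) ^ (j i)) := by
          rw [sum_const, nsmul_eq_mul]
      _ ≤ (C₁ * (N : ℝ) ^ (-η₁) * ∏ i, (2 : ℝ) ^ (j i)) *
          ((∏ i, Cf i) * (N : ℝ) ^ ((d : ℝ) * (1 + ε)) / ∏ i, (2 : ℝ) ^ (j i)) :=
          mul_le_mul_of_nonneg_right h3 (by positivity)
      _ = C₁ * (∏ i, Cf i) * ((N : ℝ) ^ ((d : ℝ) * (1 + ε)) * (N : ℝ) ^ (-η₁)) := by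
          field_simp
      _ = _ := by
          rw [← Real.rpow_add hN0]
          congr 2
          ring
  have hJc : (JJ.card : ℝ) ≤ (CL * (A' : ℝ) ^ ε) ^ d * (N : ℝ) ^ (d * ε) := by
    have h3 : JJ.card ≤ (J + 1) ^ d := by
      rw [hJJ]
      refine (card_filter_le _ _).trans ?_
      rw [Fintype.card_piFinset, prod_const, card_univ, Fintype.card_fin, card_range]
    have h4 := hCL (A' * N) hAN
    rw [← hJ] at h4
    push_cast at h4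
    rw [Real.mul_rpow (Nat.cast_nonneg _) hN0.le] at h4
    calc (JJ.card : ℝ) ≤ ((J : ℝ) + 1) ^ d := by exact_mod_cast h3
      _ ≤ (CL * ((A' : ℝ) ^ ε * (N : ℝ) ^ ε)) ^ d := pow_le_pow_left₀ (by positivity) h4 d
      _ = (CL * (A' : ℝ) ^ ε) ^ d * ((N : ℝ) ^ ε) ^ d := by
          rw [← mul_assoc, mul_pow]
      _ = _ := by
          rw [← Real.rpow_natCast ((N : ℝ) ^ ε), ← Real.rpow_mul hN0.le, mul_comm ε]
  have h3 := Set.ncard_le_ncard hcov (finite_toSet _)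
  rw [Set.ncard_coe_finset] at h3
  have h4 : (({m : Fin d → ℕ | (∀ i, 1 ≤ m i ∧ m i ≤ N) ∧ ∃ w ∈ W, ∀ i, w i ∈ F i (m i)}.ncard : ℕ) : ℝ) ≤
      ∑ i : Fin d, ((box.filter (fun m => m i ∈ B i)).card : ℝ) +
        ∑ j ∈ JJ, ((((dbox_fin W j).toFinset.biUnion T).card : ℕ) : ℝ) := by
    have h5 := h3.trans ((card_union_le _ _).trans (Nat.add_le_add card_biUnion_le card_biUnion_le))
    exact_mod_cast h5
  have h5 : ∑ i : Fin d, ((box.filter (fun m => m i ∈ B i)).card : ℝ) ≤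
      (∑ i, (1 + Cl i)) * (N : ℝ) ^ ((d : ℝ) - η) := by
    rw [sum_mul]
    apply sum_le_sum
    intro i _
    have e1 := card_slice (N := N) hd i (B i)
    rw [← hbox] at e1
    calc _ ≤ _ := e1
      _ ≤ ((1 + Cl i) * (N : ℝ) ^ (1 - η)) * (N : ℝ) ^ ((d : ℝ) - 1) :=
          mul_le_mul_of_nonneg_right (hBc i) (by positivity)
      _ = (1 + Cl i) * ((N : ℝ) ^ (1 - η) * (N : ℝ) ^ ((d : ℝ) - 1)) := by ring
      _ = _ := by
          rw [← Real.rpow_add hN0]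
          congr 2
          ring
  have hCfP : 0 ≤ ∏ i, Cf i := prod_nonneg fun i _ => hCf i
  have h6 : ∑ j ∈ JJ, ((((dbox_fin W j).toFinset.biUnion T).card : ℕ) : ℝ) ≤
      (CL * (A' : ℝ) ^ ε) ^ d * (C₁ * ∏ i, Cf i) * (N : ℝ) ^ ((d : ℝ) - η) := by
    calc _ ≤ ∑ j ∈ JJ, C₁ * (∏ i, Cf i) * (N : ℝ) ^ ((d : ℝ) + d * ε - η₁) := sum_le_sum hTj
      _ = JJ.card * (C₁ * (∏ i, Cf i) * (N : ℝ) ^ ((d : ℝ) + d * ε - η₁)) := by rw [sum_const, nsmul_eq_mul]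
      _ ≤ ((CL * (A' : ℝ) ^ ε) ^ d * (N : ℝ) ^ (d * ε)) *
          (C₁ * (∏ i, Cf i) * (N : ℝ) ^ ((d : ℝ) + d * ε - η₁)) :=
          mul_le_mul_of_nonneg_right hJc (by positivity)
      _ = (CL * (A' : ℝ) ^ ε) ^ d * (C₁ * ∏ i, Cf i) *
          ((N : ℝ) ^ (d * ε) * (N : ℝ) ^ ((d : ℝ) + d * ε - η₁)) := by ring
      _ = (CL * (A' : ℝ) ^ ε) ^ d * (C₁ * ∏ i, Cf i) * (N : ℝ) ^ ((d : ℝ) - η₁ / 2) := by
          rw [← Real.rpow_add hN0]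
          congr 2
          rw [hε]
          field_simp
          ring
      _ ≤ _ := by
          apply mul_le_mul_of_nonneg_left _ (by positivity)
          exact Real.rpow_le_rpow_of_exponent_le hN1 (by linarith)
  calc _ ≤ _ := h4
    _ ≤ _ := add_le_add h5 h6
    _ = _ := by ring

/-- the same for one set -/
theorem tuples {d : ℕ} (hd : 1 ≤ d) {δ : ℝ} {F : Fin d → ℕ → Set ℕ} (hF : ∀ i, PSpread δ (F i))
    (W : Set (Fin d → ℕ)) {δ₁ η₁ : ℝ} (hδ₁ : 0 < δ₁) (hδ : δ₁ < δ) (hη₁ : 0 < η₁)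
    (hW : ∀ A : ℕ, ∃ C₁ : ℝ, 0 ≤ C₁ ∧ ∀ (N : ℕ) (j : Fin d → ℕ), 1 ≤ N →
      (∀ i, (N : ℝ) ^ δ₁ ≤ 2 ^ (j i + 1) ∧ 2 ^ (j i) ≤ A * N) →
      ((DBox W j).ncard : ℝ) ≤ C₁ * (N : ℝ) ^ (-η₁) * ∏ i, (2 : ℝ) ^ (j i)) :
    ∃ C η : ℝ, 0 < η ∧ ∀ N : ℕ, 1 ≤ N →
      ({m : Fin d → ℕ | (∀ i, 1 ≤ m i ∧ m i ≤ N) ∧ ∃ w ∈ W, ∀ i, w i ∈ F i (m i)}.ncard : ℝ) ≤
        C * (N : ℝ) ^ ((d : ℝ) - η) := by
  obtain ⟨C, η, hη, h⟩ := tuples_unif hd hF {W} hδ₁ hδ hη₁ (fun A => by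
    obtain ⟨C₁, h1, h2⟩ := hW A
    refine ⟨C₁, h1, fun W' hW' => ?_⟩
    rw [Set.mem_singleton_iff] at hW'
    rw [hW']
    exact h2)
  exact ⟨C, η, hη, h W (Set.mem_singleton _)⟩

/-- **Chains.** Set valued functions of `m` made of the divisors `≥ m ^ δ` of `m` (exponent `δ`), the orders modulo `m`, if `m`
is a prime, of all integers `a` with `2 ≤ |a| ≤ m ^ c` (exponent `(1 - c) / 2`), the positive integers within a power of
`log m` of `m` (exponent `1`), and their compositions (product of the exponents) and unions (minimum). -/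
inductive PChain : ℝ → (ℕ → Set ℕ) → Prop
  | divisors (δ : ℝ) : 0 < δ → PChain δ (Divs δ)
  | orders (c : ℝ) : 0 ≤ c → c < 1 → PChain ((1 - c) / 2) (Orders c)
  | near (R : ℕ) : PChain 1 (Near R)
  | comp (δ₁ δ₂ : ℝ) (G F : ℕ → Set ℕ) : PChain δ₁ G → PChain δ₂ F →
      PChain (δ₁ * δ₂) (fun m => {w | ∃ v ∈ G m, w ∈ F v})
  | union (δ₁ δ₂ : ℝ) (F G : ℕ → Set ℕ) : PChain δ₁ F → PChain δ₂ G → PChain (min δ₁ δ₂) (fun m => F m ∪ G m)

theorem PChain.spread {δ : ℝ} {F : ℕ → Set ℕ} (h : PChain δ F) : PSpread δ F := by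
  induction h with
  | divisors δ h => exact MD.divs h
  | orders c h0 h1 => exact MD.orders h0 h1
  | near R => exact MD.near R
  | comp δ₁ δ₂ G F _ _ hG hF => exact MD.comp hG hF
  | union δ₁ δ₂ F G _ _ hF hG => exact MD.union hF hG

end Pool.Agent.Zk98.MD
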