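import Mathlib

set_option autoImplicit false

namespace Pool.Agent.Zk98

theorem sol_count (K u v : ℕ) (hu : 1 ≤ u) (hv : 1 ≤ v) (w : ℤ) :
    ((((Finset.Ico K (2*K)) ×ˢ (Finset.Ico K (2*K))).filter
      (fun z : ℕ × ℕ => (z.1 : ℤ) * u - (z.2 : ℤ) * v = w)).card : ℝ) ≤ K * ((Nat.gcd u v : ℕ) : ℝ) / v + 1 := by
  classical
  obtain ⟨S, hS⟩ : ∃ S, S = ((Finset.Ico K (2*K)) ×ˢ (Finset.Ico K (2*K))).filter
      (fun z : ℕ × ℕ => (z.1 : ℤ) * u - (z.2 : ℤ) * v = w) := ⟨_, rfl⟩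
  rw [← hS]
  obtain ⟨g, hg⟩ : ∃ g, g = Nat.gcd u v := ⟨_, rfl⟩
  have hg0 : 0 < g := by rw [hg]; exact Nat.gcd_pos_of_pos_left _ hu
  obtain ⟨u', hu'⟩ : g ∣ u := by rw [hg]; exact Nat.gcd_dvd_left _ _
  obtain ⟨m, hm⟩ : g ∣ v := by rw [hg]; exact Nat.gcd_dvd_right _ _
  have hm0 : 0 < m := by
    rcases Nat.eq_zero_or_pos m with h | h
    · rw [h, mul_zero] at hm
      omega
    · exact h
  have hcop : Nat.Coprime m u' := by
    have h1 : Nat.gcd (g * u') (g * m) = g := by rw [← hu', ← hm, ← hg]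
    rw [Nat.gcd_mul_left] at h1
    have h2 : Nat.gcd u' m = 1 := by
      have := Nat.eq_of_mul_eq_mul_left hg0 (h1.trans (mul_one g).symm)
      exact this
    exact (Nat.coprime_comm.1 h2)
  rcases Nat.eq_zero_or_pos K with hK | hK
  · have : S = ∅ := by
      rw [hS, hK]
      simp
    rw [this, Finset.card_empty, Nat.cast_zero]
    positivity
  -- the map
  have hinj : Set.InjOn (fun z : ℕ × ℕ => (z.1 - K) / m) (S : Set (ℕ × ℕ)) := by
    rintro ⟨k, l⟩ h1 ⟨k', l'⟩ h2 h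
    rw [Finset.mem_coe, hS, Finset.mem_filter, Finset.mem_product, Finset.mem_Ico, Finset.mem_Ico] at h1 h2
    obtain ⟨⟨⟨a1, a2⟩, a3, a4⟩, a5⟩ := h1
    obtain ⟨⟨⟨b1, b2⟩, b3, b4⟩, b5⟩ := h2
    simp only at a1 a2 a3 a4 a5 b1 b2 b3 b4 b5 h
    have c1 : ((k : ℤ) - k') * u = ((l : ℤ) - l') * v := by linarith
    have c2 : ((k : ℤ) - k') * u' = ((l : ℤ) - l') * m := by
      have e1 : (g : ℤ) * (((k : ℤ) - k') * u') = g * (((l : ℤ) - l') * m) := by
        have h3 : (u : ℤ) = g * u' := by exact_mod_cast hu'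
        have h4 : (v : ℤ) = g * m := by exact_mod_cast hm
        rw [h3, h4] at c1
        linarith
      exact mul_left_cancel₀ (by exact_mod_cast hg0.ne') e1
    have c3 : (m : ℤ) ∣ (k : ℤ) - k' := by
      have h3 : IsCoprime (m : ℤ) (u' : ℤ) := Nat.isCoprime_iff_coprime.2 hcop
      exact h3.dvd_of_dvd_mul_right (Dvd.intro_left _ c2.symm)
    have c4 : k = k' := by
      obtain ⟨x, hx⟩ := c3
      have d1 := Nat.div_add_mod (k - K) m
      have d2 := Nat.div_add_mod (k' - K) m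
      rw [h] at d1
      have d3 := Nat.mod_lt (k - K) hm0
      have d4 := Nat.mod_lt (k' - K) hm0
      generalize (k' - K) / m = A at d1 d2
      generalize (k - K) % m = r at d1 d3
      generalize (k' - K) % m = r' at d2 d4
      have d5 : ((k : ℤ) - k') = (r : ℤ) - (r' : ℤ) := by
        have e1 : ((m * A + r : ℕ) : ℤ) = (k : ℤ) - K := by rw [d1, Nat.cast_sub a1]
        have e2 : ((m * A + r' : ℕ) : ℤ) = (k' : ℤ) - K := by rw [d2, Nat.cast_sub b1]
        push_cast at e1 e2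
        linarith
      have d6 : x = 0 := by
        have e3 : |(m : ℤ) * x| < m := by
          rw [← hx, d5, abs_lt]
          constructor <;> omega
        rw [abs_mul, abs_of_nonneg (Int.natCast_nonneg m)] at e3
        by_contra hx0
        have e4 : 1 ≤ |x| := Int.one_le_abs hx0
        have e5 : (0 : ℤ) < m := by exact_mod_cast hm0
        nlinarith
      rw [d6, mul_zero] at hx
      omega
    have c5 : l = l' := by
      have e1 : ((l : ℤ) - l') * m = 0 := by rw [← c2, c4]; ring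
      have e2 : (m : ℤ) ≠ 0 := by exact_mod_cast hm0.ne'
      have := (mul_eq_zero.1 e1).resolve_right e2
      omega
    rw [c4, c5]
  have hmaps : ∀ z ∈ S, (fun z : ℕ × ℕ => (z.1 - K) / m) z ∈ Finset.range ((K - 1) / m + 1) := by
    rintro ⟨k, l⟩ h1
    rw [hS, Finset.mem_filter, Finset.mem_product, Finset.mem_Ico, Finset.mem_Ico] at h1
    rw [Finset.mem_range]
    exact Nat.lt_succ_of_le (Nat.div_le_div_right (by
      have := h1.1.1.2
      simp only at this
      show k - K ≤ K - 1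
      omega))
  have hcard := Finset.card_le_card_of_injOn _ hmaps hinj
  rw [Finset.card_range] at hcard
  have h1 : (S.card : ℝ) ≤ (((K - 1) / m : ℕ) : ℝ) + 1 := by exact_mod_cast hcard
  have h2 : (((K - 1) / m : ℕ) : ℝ) ≤ (K : ℝ) / m := by
    refine (Nat.cast_div_le).trans ?_
    apply div_le_div_of_nonneg_right _ (by positivity)
    exact_mod_cast Nat.sub_le _ _
  have h3 : (K : ℝ) / m = K * ((Nat.gcd u v : ℕ) : ℝ) / v := by
    have e1 : (v : ℝ) = g * m := by exact_mod_cast hm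
    rw [← hg, e1]
    have e2 : (g : ℝ) ≠ 0 := by exact_mod_cast hg0.ne'
    have e3 : (m : ℝ) ≠ 0 := by exact_mod_cast hm0.ne'
    field_simp
  linarith

end Pool.Agent.Zk98
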